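import Mathlib

/-! The Bernstein-Sato functional equation of an ideal, with arbitrary finite index types. -/

namespace Pool.Agent.MP_ee8c61_ag.H10

open MvPolynomial

/-- Elements of `D[s_j : j ∈ κ]`: finite sums of `p(x, s) ∂_{i_1} ⋯ ∂_{i_l}`. -/
abbrev DiffOp (σ κ : Type) : Type :=
  List σ →₀ MvPolynomial σ (MvPolynomial κ ℂ)

/-- The operator with `s` specialised to natural numbers, applied to a polynomial. -/
noncomputable def act {σ κ : Type} (P : DiffOp σ κ) (s : κ → ℕ) (g : MvPolynomial σ ℂ) :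
    MvPolynomial σ ℂ :=
  P.sum fun L p => map (eval fun j => (s j : ℂ)) p * L.foldr (fun i h => pderiv i h) g

/-- The Bernstein-Sato functional equation of `(f_j : j ∈ κ)`, at all `s ∈ ℕ^κ`. -/
def IsBS {σ κ : Type} [Fintype κ] (f : κ → MvPolynomial σ ℂ) (b : Polynomial ℂ) : Prop :=
  ∃ (S : Finset (κ → ℤ)) (P : (κ → ℤ) → DiffOp σ κ), (∀ c ∈ S, ∑ j, c j = 1) ∧
    ∀ s : κ → ℕ, C (b.eval (∑ j, (s j : ℂ))) * ∏ j, f j ^ s j =
      ∑ c ∈ S, act (P c) s
        (C (∏ j, ((s j).choose (-c j).toNat : ℂ)) * ∏ j, f j ^ ((s j : ℤ) + c j).toNat)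

end Pool.Agent.MP_ee8c61_ag.H10
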