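import Mathlib
import Pool.Agent.MP_ee8c61_ag.H10.Defs

/-! The functional equation for products of powers of elements of powers of the ideal. -/

namespace Pool.Agent.MP_ee8c61_ag.H10

open MvPolynomial

section tpoly

variable {σ κ : Type} [Fintype κ]

/-- Monomials in the variables `t`. -/
noncomputable def tm (σ : Type) (s : κ → ℕ) : MvPolynomial (σ ⊕ κ) ℂ := ∏ j, X (Sum.inr j) ^ s j

/-- Polynomials in `x` inside the polynomials in `x, t`. -/
noncomputable abbrev ix (κ : Type) : MvPolynomial σ ℂ →ₐ[ℂ] MvPolynomial (σ ⊕ κ) ℂ := rename Sum.inl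

/-- The part of degree `d` in `t`. -/
noncomputable def Hom (σ κ : Type) [Fintype κ] (d : ℤ) : Submodule ℂ (MvPolynomial (σ ⊕ κ) ℂ) :=
  Submodule.span ℂ {P | ∃ (a : MvPolynomial σ ℂ) (s : κ → ℕ), ((∑ j, s j : ℕ) : ℤ) = d ∧
    P = ix κ a * tm σ s}

lemma tm_add (s s' : κ → ℕ) : tm σ (s + s') = tm σ s * tm σ s' := by
  simp [tm, pow_add, Finset.prod_mul_distrib]

lemma tm_zero : tm σ (0 : κ → ℕ) = 1 := by simp [tm]

lemma tm_single [DecidableEq κ] (j : κ) (n : ℕ) : tm σ (Pi.single j n) = X (Sum.inr j) ^ n := by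
  rw [tm, Finset.prod_eq_single j]
  · simp
  · intro b _ hb; simp [Pi.single_eq_of_ne hb]
  · simp

lemma gen_mem (a : MvPolynomial σ ℂ) (s : κ → ℕ) {d : ℤ} (h : ((∑ j, s j : ℕ) : ℤ) = d) :
    ix κ a * tm σ s ∈ Hom σ κ d := Submodule.subset_span ⟨a, s, h, rfl⟩

lemma mul_mem_Hom {d d' : ℤ} {p q : MvPolynomial (σ ⊕ κ) ℂ} (hp : p ∈ Hom σ κ d)
    (hq : q ∈ Hom σ κ d') : p * q ∈ Hom σ κ (d + d') := by
  induction hp using Submodule.span_induction with
  | zero => simp
  | add x y _ _ hx hy => rw [add_mul]; exact add_mem hx hy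
  | smul c x _ hx => rw [smul_mul_assoc]; exact Submodule.smul_mem _ _ hx
  | mem x hx =>
    obtain ⟨a, s, hs, rfl⟩ := hx
    induction hq using Submodule.span_induction with
    | zero => simp
    | add x y _ _ hx hy => rw [mul_add]; exact add_mem hx hy
    | smul c x _ hx => rw [mul_smul_comm]; exact Submodule.smul_mem _ _ hx
    | mem x hx =>
      obtain ⟨a', s', hs', rfl⟩ := hx
      have : ix κ a * tm σ s * (ix κ a' * tm σ s') = ix κ (a * a') * tm σ (s + s') := by
        rw [map_mul, tm_add]; ring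
      rw [this]
      apply gen_mem
      rw [← hs, ← hs']
      simp [Finset.sum_add_distrib]

lemma ix_mem (a : MvPolynomial σ ℂ) : ix κ a ∈ Hom σ κ 0 := by
  have := gen_mem (κ := κ) a 0 (d := 0) (by simp)
  rwa [tm_zero, mul_one] at this

lemma X_mem (j : κ) : (X (Sum.inr j) : MvPolynomial (σ ⊕ κ) ℂ) ∈ Hom σ κ 1 := by
  classical
  have := gen_mem (σ := σ) 1 (Pi.single j 1) (d := 1) (by simp)
  rwa [tm_single, map_one, one_mul, pow_one] at this

lemma pow_mem_Hom {d : ℤ} {p : MvPolynomial (σ ⊕ κ) ℂ} (hp : p ∈ Hom σ κ d) (n : ℕ) :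
    p ^ n ∈ Hom σ κ (n * d) := by
  induction n with
  | zero => simpa using ix_mem (κ := κ) (1 : MvPolynomial σ ℂ)
  | succ n ih =>
    have := mul_mem_Hom ih hp
    rw [pow_succ]
    have e : ((n + 1 : ℕ) : ℤ) * d = n * d + d := by push_cast; ring
    rwa [e]

lemma prod_mem_Hom {L : Type} (u : Finset L) (d : L → ℤ) (p : L → MvPolynomial (σ ⊕ κ) ℂ)
    (hp : ∀ l ∈ u, p l ∈ Hom σ κ (d l)) : ∏ l ∈ u, p l ∈ Hom σ κ (∑ l ∈ u, d l) := by
  classical
  induction u using Finset.induction_on with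
  | empty => simpa using ix_mem (κ := κ) (1 : MvPolynomial σ ℂ)
  | insert a u ha ih =>
    rw [Finset.prod_insert ha, Finset.sum_insert ha]
    exact mul_mem_Hom (hp a (by simp)) (ih fun l hl => hp l (by simp [hl]))

lemma der_prod_zero {A L : Type} [CommRing A] [Algebra ℂ A] (D : Derivation ℂ A A) (u : Finset L)
    (p : L → A) (h : ∀ l ∈ u, D (p l) = 0) : D (∏ l ∈ u, p l) = 0 := by
  refine Finset.prod_induction p (fun x => D x = 0) ?_ (by simp) h
  intro a b ha hb
  simp [ha, hb]

lemma dx_tm (i : σ) (s : κ → ℕ) : pderiv (Sum.inl i) (tm σ s) = 0 := by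
  apply der_prod_zero
  intro j _
  simp [Derivation.leibniz_pow]

lemma dx_gen (i : σ) (a : MvPolynomial σ ℂ) (s : κ → ℕ) :
    pderiv (Sum.inl i) (ix κ a * tm σ s) = ix κ (pderiv i a) * tm σ s := by
  rw [pderiv_mul, dx_tm, pderiv_rename Sum.inl_injective]; simp

omit [Fintype κ] in
lemma dt_ix (j : κ) (a : MvPolynomial σ ℂ) : pderiv (Sum.inr j) (ix κ a) = 0 := by
  induction a using MvPolynomial.induction_on with
  | C a => simp
  | add p q hp hq => rw [map_add, map_add, hp, hq, add_zero]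
  | mul_X p n hp => rw [map_mul, pderiv_mul, hp]; simp

lemma dt_gen [DecidableEq κ] (j : κ) (a : MvPolynomial σ ℂ) (s : κ → ℕ) :
    pderiv (Sum.inr j) (ix κ a * tm σ s) =
      (s j : ℂ) • (ix κ a * tm σ (Function.update s j (s j - 1))) := by
  have h1 : ∀ n, tm σ (Function.update s j n) = X (Sum.inr j) ^ n * tm σ (Function.update s j 0) := by
    intro n
    rw [← tm_single, ← tm_add]
    congr 1
    funext i
    by_cases h : i = j
    · subst h; simp
    · simp [h]
  have h2 : pderiv (Sum.inr j) (tm σ (Function.update s j 0)) = 0 := by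
    apply der_prod_zero
    intro i _
    by_cases h : i = j
    · subst h; simp
    · simp [Derivation.leibniz_pow, h]
  have h3 : tm σ s = X (Sum.inr j) ^ s j * tm σ (Function.update s j 0) := by
    rw [← h1]; simp
  rw [pderiv_mul, dt_ix, h3, pderiv_mul, h2, pderiv_pow, h1 (s j - 1), pderiv_X_self]
  rw [smul_eq_C_mul]
  simp only [map_natCast]
  ring

lemma dx_mem (i : σ) {d : ℤ} {p : MvPolynomial (σ ⊕ κ) ℂ} (hp : p ∈ Hom σ κ d) :
    pderiv (Sum.inl i) p ∈ Hom σ κ d := by
  induction hp using Submodule.span_induction with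
  | zero => simp
  | add x y _ _ hx hy => rw [map_add]; exact add_mem hx hy
  | smul c x _ hx => rw [Derivation.map_smul]; exact Submodule.smul_mem _ _ hx
  | mem x hx =>
    obtain ⟨a, s, hs, rfl⟩ := hx
    rw [dx_gen]; exact gen_mem _ _ hs

lemma dt_mem (j : κ) {d : ℤ} {p : MvPolynomial (σ ⊕ κ) ℂ} (hp : p ∈ Hom σ κ d) :
    pderiv (Sum.inr j) p ∈ Hom σ κ (d + -1) := by
  classical
  induction hp using Submodule.span_induction with
  | zero => simp
  | add x y _ _ hx hy => rw [map_add]; exact add_mem hx hy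
  | smul c x _ hx => rw [Derivation.map_smul]; exact Submodule.smul_mem _ _ hx
  | mem x hx =>
    obtain ⟨a, s, hs, rfl⟩ := hx
    rw [dt_gen]
    rcases Nat.eq_zero_or_pos (s j) with h | h
    · simp [h]
    · refine Submodule.smul_mem _ _ (gen_mem _ _ ?_)
      rw [Finset.sum_update_of_mem (Finset.mem_univ j), ← hs,
        ← Finset.add_sum_erase _ _ (Finset.mem_univ j), Finset.sdiff_singleton_eq_erase]
      push_cast [Nat.cast_sub h]
      ring

/-- Substitution of the generators for the variables `t`. -/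
noncomputable def ev (f : κ → MvPolynomial σ ℂ) : MvPolynomial (σ ⊕ κ) ℂ →ₐ[ℂ] MvPolynomial σ ℂ :=
  aeval (Sum.elim X f)

omit [Fintype κ] in
lemma ev_ix (f : κ → MvPolynomial σ ℂ) (a : MvPolynomial σ ℂ) : ev f (ix κ a) = a := by
  rw [ev, aeval_rename]
  exact aeval_X_left_apply a

lemma ev_gen (f : κ → MvPolynomial σ ℂ) (a : MvPolynomial σ ℂ) (s : κ → ℕ) :
    ev f (ix κ a * tm σ s) = a * ∏ j, f j ^ s j := by
  rw [map_mul, ev_ix]; simp [tm, ev]

lemma ev_mem (f : κ → MvPolynomial σ ℂ) (n : ℕ) {p : MvPolynomial (σ ⊕ κ) ℂ}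
    (hp : p ∈ Hom σ κ n) : ev f p ∈ Ideal.span (Set.range f) ^ n := by
  induction hp using Submodule.span_induction with
  | zero => simp
  | add x y _ _ hx hy => rw [map_add]; exact add_mem hx hy
  | smul c x _ hx => rw [map_smul, smul_eq_C_mul]; exact Ideal.mul_mem_left _ _ hx
  | mem x hx =>
    obtain ⟨a, s, hs, rfl⟩ := hx
    rw [ev_gen]
    apply Ideal.mul_mem_left
    have hn : n = ∑ j, s j := by exact_mod_cast hs.symm
    rw [hn, ← Finset.prod_pow_eq_pow_sum]
    exact Ideal.prod_mem_prod fun j _ => Ideal.pow_mem_pow (Ideal.subset_span (Set.mem_range_self j)) _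

lemma exists_ev (f : κ → MvPolynomial σ ℂ) (n : ℕ) {g : MvPolynomial σ ℂ}
    (hg : g ∈ Ideal.span (Set.range f) ^ n) : ∃ v ∈ Hom σ κ n, ev f v = g := by
  induction n generalizing g with
  | zero => exact ⟨ix κ g, ix_mem g, ev_ix f g⟩
  | succ n ih =>
    rw [pow_succ] at hg
    refine Submodule.mul_induction_on hg ?_ ?_
    · intro a ha b hb
      obtain ⟨v, hv, rfl⟩ := ih ha
      obtain ⟨c, rfl⟩ := Ideal.mem_span_range_iff_exists_fun.1 hb
      refine ⟨v * ∑ j, ix κ (c j) * X (Sum.inr j), ?_, ?_⟩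
      · have : (∑ j, ix κ (c j) * X (Sum.inr j) : MvPolynomial (σ ⊕ κ) ℂ) ∈ Hom σ κ 1 :=
          Submodule.sum_mem _ fun j _ => by simpa using mul_mem_Hom (ix_mem (c j)) (X_mem j)
        simpa using mul_mem_Hom hv this
      · simp only [map_mul, map_sum, ev_ix]
        simp [ev]
    · rintro a b ⟨v, hv, rfl⟩ ⟨w, hw, rfl⟩
      exact ⟨v + w, add_mem hv hw, map_add _ _ _⟩

lemma ev_chain (f : κ → MvPolynomial σ ℂ) (i : σ) (P : MvPolynomial (σ ⊕ κ) ℂ) :
    ev f (pderiv (Sum.inl i) P + ∑ j, ix κ (pderiv i (f j)) * pderiv (Sum.inr j) P) =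
      pderiv i (ev f P) := by
  classical
  induction P using MvPolynomial.induction_on with
  | C a => simp [ev]
  | add p q hp hq =>
    rw [map_add (ev f) p q, map_add (pderiv i), ← hp, ← hq, ← map_add]
    congr 1
    simp only [map_add, mul_add, Finset.sum_add_distrib]
    ring
  | mul_X p n hp =>
    rw [map_mul (ev f) p, pderiv_mul (i := i), ← hp]
    simp only [pderiv_mul, map_add, map_mul, map_sum, mul_add, Finset.sum_add_distrib, ev_ix]
    have key : ev f (pderiv (Sum.inl i) (X n)) +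
        ∑ j, pderiv i (f j) * ev f (pderiv (Sum.inr j) (X n)) = pderiv i (ev f (X n)) := by
      rcases n with n | n
      · by_cases h : n = i
        · subst h; simp [ev]
        · simp [ev, h]
      · simp only [ev, aeval_X, Sum.elim_inr]
        rw [Finset.sum_eq_single n]
        · simp
        · intro b _ hb; simp [hb.symm]
        · simp
    rw [← key, add_mul, Finset.sum_mul, mul_add, Finset.mul_sum]
    have e1 : ∑ j, pderiv i (f j) * (ev f (pderiv (Sum.inr j) p) * ev f (X n)) =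
      ∑ j, pderiv i (f j) * ev f (pderiv (Sum.inr j) p) * ev f (X n) :=
      Finset.sum_congr rfl fun j _ => by ring
    have e2 : ∑ j, pderiv i (f j) * (ev f p * ev f (pderiv (Sum.inr j) (X n))) =
      ∑ j, ev f p * (pderiv i (f j) * ev f (pderiv (Sum.inr j) (X n))) :=
      Finset.sum_congr rfl fun j _ => by ring
    rw [e1, e2]; ring

end tpoly

section fam

variable {A L : Type} [CommRing A] [Algebra ℂ A] [Fintype L]

/-- The family `e ↦ ∏ e_l (e_l - 1) ⋯ (e_l - j_l + 1) v_l ^ (e_l - j_l)`. -/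
def wf (v : L → A) (j e : L → ℕ) : A := ∏ l, ((e l).descFactorial (j l) : A) * v l ^ (e l - j l)

omit [Algebra ℂ A] in
lemma wf_zero (v : L → A) (e : L → ℕ) : wf v 0 e = ∏ l, v l ^ e l := by simp [wf]

omit [Fintype L] in
lemma der_prod [DecidableEq L] (D : Derivation ℂ A A) (u : Finset L) (p : L → A) :
    D (∏ l ∈ u, p l) = ∑ l ∈ u, D (p l) * ∏ l' ∈ u.erase l, p l' := by
  induction u using Finset.induction_on with
  | empty => simp
  | insert a u ha ih =>
    rw [Finset.prod_insert ha, Finset.sum_insert ha, Derivation.leibniz, ih, Finset.erase_insert ha,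
      smul_eq_mul, smul_eq_mul, Finset.mul_sum, add_comm, mul_comm (D (p a))]
    congr 1
    refine Finset.sum_congr rfl fun l hl => ?_
    have hne : a ≠ l := fun h => ha (h ▸ hl)
    rw [Finset.erase_insert_of_ne hne, Finset.prod_insert (fun h => ha (Finset.mem_of_mem_erase h))]
    ring

lemma der_wf [DecidableEq L] (D : Derivation ℂ A A) (v : L → A) (j e : L → ℕ) :
    D (wf v j e) = ∑ l, D (v l) * wf v (j + Pi.single l 1) e := by
  rw [wf, der_prod]
  refine Finset.sum_congr rfl fun l _ => ?_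
  rw [wf, ← Finset.mul_prod_erase _ _ (Finset.mem_univ l)]
  have h1 : ∏ l' ∈ Finset.univ.erase l, (((e l').descFactorial ((j + Pi.single l 1 : L → ℕ) l') : A) *
      v l' ^ (e l' - (j + Pi.single l 1 : L → ℕ) l')) =
      ∏ l' ∈ Finset.univ.erase l, (((e l').descFactorial (j l') : A) * v l' ^ (e l' - j l')) := by
    refine Finset.prod_congr rfl fun l' hl' => ?_
    simp [Pi.single_eq_of_ne (Finset.ne_of_mem_erase hl')]
  rw [h1, Derivation.leibniz, Derivation.leibniz_pow, Derivation.map_natCast]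
  simp only [Pi.add_apply, Pi.single_eq_same, Nat.descFactorial_succ, smul_eq_mul, nsmul_eq_mul,
    Nat.cast_mul, Nat.sub_add_eq]
  ring

end fam

section ops

variable {σ κ L : Type} [Fintype κ] [Fintype L] (v : L → MvPolynomial (σ ⊕ κ) ℂ) (M : L → ℕ)

/-- Families of relative degree `d`. -/
noncomputable def FamS (d : ℤ) : Submodule ℂ ((L → ℕ) → MvPolynomial (σ ⊕ κ) ℂ) :=
  Submodule.span ℂ {F | ∃ (j : L → ℕ) (p : MvPolynomial (σ ⊕ κ) ℂ),
    p ∈ Hom σ κ (d + (∑ l, j l * M l : ℕ)) ∧ F = fun e => p * wf v j e}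

/-- Families without a condition on the degree. -/
noncomputable def FamA : Submodule ℂ ((L → ℕ) → MvPolynomial (σ ⊕ κ) ℂ) :=
  Submodule.span ℂ {F | ∃ (j : L → ℕ) (p : MvPolynomial (σ ⊕ κ) ℂ), F = fun e => p * wf v j e}

lemma FamS_le (d : ℤ) : FamS v M d ≤ FamA v :=
  Submodule.span_mono fun _ ⟨j, p, _, h⟩ => ⟨j, p, h⟩

/-- The operator raises the degree of families by `d`. -/
def PresH (d : ℤ) (T : Module.End ℂ (MvPolynomial (σ ⊕ κ) ℂ)) : Prop :=
  ∀ d₀, ∀ F ∈ FamS v M d₀, (fun e => T (F e)) ∈ FamS v M (d₀ + d)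

/-- The operator preserves families. -/
def PresA (T : Module.End ℂ (MvPolynomial (σ ⊕ κ) ℂ)) : Prop :=
  ∀ F ∈ FamA v, (fun e => T (F e)) ∈ FamA v

variable {v M}

lemma span_map {B B' ι : Type} [AddCommGroup B] [Module ℂ B] [AddCommGroup B'] [Module ℂ B']
    (T : B →ₗ[ℂ] B') {G : Set (ι → B)} {Z : Submodule ℂ (ι → B')}
    (h : ∀ F ∈ G, (fun e => T (F e)) ∈ Z) : ∀ F ∈ Submodule.span ℂ G, (fun e => T (F e)) ∈ Z := by
  intro F hF
  induction hF using Submodule.span_induction with
  | zero =>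
    simp only [Pi.zero_apply, map_zero]
    exact Z.zero_mem
  | add x y _ _ hx hy =>
    simp only [Pi.add_apply, map_add]
    exact Z.add_mem hx hy
  | smul c x _ hx =>
    simp only [Pi.smul_apply, map_smul]
    exact Z.smul_mem c hx
  | mem x hx => exact h x hx

lemma PresH.comp {d d' : ℤ} {T T' : Module.End ℂ (MvPolynomial (σ ⊕ κ) ℂ)} (h : PresH v M d T)
    (h' : PresH v M d' T') : PresH v M (d' + d) (T * T') := by
  intro d₀ F hF
  have := h _ _ (h' _ _ hF)
  rwa [add_assoc] at this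

lemma PresH.add {d : ℤ} {T T' : Module.End ℂ (MvPolynomial (σ ⊕ κ) ℂ)} (h : PresH v M d T)
    (h' : PresH v M d T') : PresH v M d (T + T') :=
  fun d₀ F hF => Submodule.add_mem _ (h d₀ F hF) (h' d₀ F hF)

lemma PresH.smul {d : ℤ} {T : Module.End ℂ (MvPolynomial (σ ⊕ κ) ℂ)} (h : PresH v M d T) (c : ℂ) :
    PresH v M d (c • T) :=
  fun d₀ F hF => Submodule.smul_mem _ c (h d₀ F hF)

lemma PresH.one : PresH v M 0 1 := fun d₀ F hF => by simpa using hF

lemma PresH.mul {d : ℤ} {q : MvPolynomial (σ ⊕ κ) ℂ} (hq : q ∈ Hom σ κ d) :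
    PresH v M d (LinearMap.mulLeft ℂ q) := by
  intro d₀
  apply span_map
  rintro _ ⟨j, p, hp, rfl⟩
  refine Submodule.subset_span ⟨j, q * p, ?_, by funext e; simp [mul_assoc]⟩
  have := mul_mem_Hom hq hp
  rwa [show d + (d₀ + ((∑ l, j l * M l : ℕ) : ℤ)) = d₀ + d + (∑ l, j l * M l : ℕ) by ring] at this

lemma der_fam [DecidableEq L] {A : Type} [CommRing A] [Algebra ℂ A] (D : Derivation ℂ A A)
    (v : L → A) (p : A) (j : L → ℕ) :
    (fun e => D (p * wf v j e)) = (fun e => D p * wf v j e) +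
      ∑ l, fun e => (p * D (v l)) * wf v (j + Pi.single l 1) e := by
  funext e
  simp only [Derivation.leibniz, der_wf, smul_eq_mul, Pi.add_apply, Finset.sum_apply,
    Finset.mul_sum, mul_assoc]
  ring

lemma PresH.der (hv : ∀ l, v l ∈ Hom σ κ (M l)) {d : ℤ}
    (D : Derivation ℂ (MvPolynomial (σ ⊕ κ) ℂ) (MvPolynomial (σ ⊕ κ) ℂ))
    (hD : ∀ d₀, ∀ p ∈ Hom σ κ d₀, D p ∈ Hom σ κ (d₀ + d)) : PresH v M d D.toLinearMap := by
  classical
  intro d₀
  apply span_map
  rintro _ ⟨j, p, hp, rfl⟩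
  simp only [Derivation.coeFn_coe]
  rw [der_fam]
  refine add_mem (Submodule.subset_span ⟨j, D p, ?_, rfl⟩)
    (Submodule.sum_mem _ fun l _ => Submodule.subset_span ⟨_, _, ?_, rfl⟩)
  · have := hD _ _ hp
    rwa [add_right_comm] at this
  · have := mul_mem_Hom hp (hD _ _ (hv l))
    have e : ∑ l', (j + Pi.single l 1 : L → ℕ) l' * M l' = ∑ l', j l' * M l' + M l := by
      simp [add_mul, Finset.sum_add_distrib, Pi.single_apply]
    rw [e]
    rwa [show d₀ + ((∑ l, j l * M l : ℕ) : ℤ) + (M l + d) =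
      d₀ + d + ((∑ l', j l' * M l' + M l : ℕ) : ℤ) by push_cast; ring] at this

omit [Fintype κ] in
lemma PresA.der (D : Derivation ℂ (MvPolynomial (σ ⊕ κ) ℂ) (MvPolynomial (σ ⊕ κ) ℂ)) :
    PresA v D.toLinearMap := by
  classical
  apply span_map
  rintro _ ⟨j, p, rfl⟩
  simp only [Derivation.coeFn_coe]
  rw [der_fam]
  exact add_mem (Submodule.subset_span ⟨j, D p, rfl⟩)
    (Submodule.sum_mem _ fun l _ => Submodule.subset_span ⟨_, _, rfl⟩)

omit [Fintype κ] in
lemma PresA.mul (q : MvPolynomial (σ ⊕ κ) ℂ) : PresA v (LinearMap.mulLeft ℂ q) := by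
  apply span_map
  rintro _ ⟨j, p, rfl⟩
  exact Submodule.subset_span ⟨j, q * p, by funext e; simp [mul_assoc]⟩

omit [Fintype κ] in
lemma PresA.comp {T T' : Module.End ℂ (MvPolynomial (σ ⊕ κ) ℂ)} (h : PresA v T)
    (h' : PresA v T') : PresA v (T * T') := fun _ hF => h _ (h' _ hF)

lemma exDiag (hv : ∀ l, v l ∈ Hom σ κ (M l)) (p : MvPolynomial σ (MvPolynomial κ ℂ)) :
    ∃ T, PresH v M 0 T ∧ ∀ a s, T (ix κ a * tm σ s) =
      ix κ (map (eval fun j => (s j : ℂ)) p * a) * tm σ s := by
  classical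
  induction p using MvPolynomial.induction_on with
  | C q =>
    induction q using MvPolynomial.induction_on with
    | C c =>
      refine ⟨c • 1, PresH.one.smul c, fun a s => ?_⟩
      simp [smul_eq_C_mul, mul_assoc]
    | add p q hp hq =>
      obtain ⟨T, hT, h⟩ := hp
      obtain ⟨T', hT', h'⟩ := hq
      refine ⟨T + T', hT.add hT', fun a s => ?_⟩
      rw [LinearMap.add_apply, h, h']
      simp only [map_add, add_mul]
    | mul_X q j hq =>
      obtain ⟨T, hT, h⟩ := hq
      have h1 : PresH v M (-1) (pderiv (Sum.inr j)).toLinearMap :=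
        PresH.der hv _ fun d₀ p hp => dt_mem j hp
      refine ⟨T * (LinearMap.mulLeft ℂ (X (Sum.inr j)) * (pderiv (Sum.inr j)).toLinearMap), ?_,
        fun a s => ?_⟩
      · simpa using hT.comp ((PresH.mul (X_mem j)).comp h1)
      · have h2 : X (Sum.inr j) * pderiv (Sum.inr j) (ix κ a * tm σ s) =
            (s j : ℂ) • (ix κ a * tm σ s) := by
          rw [dt_gen, mul_smul_comm]
          rcases Nat.eq_zero_or_pos (s j) with h0 | h0
          · simp [h0]
          · congr 1
            rw [mul_left_comm, ← pow_one (X (Sum.inr j)), ← tm_single, ← tm_add]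
            congr 2
            funext i
            by_cases hi : i = j
            · subst hi; simp; omega
            · simp [hi]
        simp only [Module.End.mul_apply, LinearMap.mulLeft_apply, Derivation.coeFn_coe]
        rw [h2, map_smul, h]
        simp only [map_mul, map_C, eval_X, smul_eq_C_mul, rename_C]
        ring
  | add p q hp hq =>
    obtain ⟨T, hT, h⟩ := hp
    obtain ⟨T', hT', h'⟩ := hq
    refine ⟨T + T', hT.add hT', fun a s => ?_⟩
    rw [LinearMap.add_apply, h, h']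
    simp only [map_add, add_mul]
  | mul_X p i hp =>
    obtain ⟨T, hT, h⟩ := hp
    refine ⟨LinearMap.mulLeft ℂ (ix κ (X i)) * T, ?_, fun a s => ?_⟩
    · simpa using (PresH.mul (ix_mem (X i))).comp hT
    · simp only [Module.End.mul_apply, LinearMap.mulLeft_apply, h, map_mul, map_X]
      ring

lemma exOne [DecidableEq κ] (hv : ∀ l, v l ∈ Hom σ κ (M l)) (j : κ) (c : ℤ) :
    ∃ T, PresH v M c T ∧ ∀ a s, T (ix κ a * tm σ s) = ((s j).choose (-c).toNat : ℂ) •
      (ix κ a * tm σ (Function.update s j ((s j : ℤ) + c).toNat)) := by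
  obtain ⟨n, rfl | rfl⟩ := Int.eq_nat_or_neg c
  · refine ⟨LinearMap.mulLeft ℂ (X (Sum.inr j) ^ n), PresH.mul ?_, fun a s => ?_⟩
    · simpa using pow_mem_Hom (X_mem (σ := σ) j) n
    · have : (-(n : ℤ)).toNat = 0 := by omega
      rw [this, Nat.choose_zero_right, Nat.cast_one, one_smul, LinearMap.mulLeft_apply,
        mul_left_comm, ← tm_single, ← tm_add]
      congr 2
      funext i
      by_cases hi : i = j
      · subst hi; simp; omega
      · simp [hi]
  · have key : ∃ T, PresH v M (-(n : ℤ)) T ∧ ∀ a s, T (ix κ a * tm σ s) =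
        ((s j).descFactorial n : ℂ) • (ix κ a * tm σ (Function.update s j (s j - n))) := by
      induction n with
      | zero => exact ⟨1, by simpa using PresH.one, fun a s => by simp⟩
      | succ n ih =>
        obtain ⟨T, hT, h⟩ := ih
        have h1 : PresH v M (-1) (pderiv (Sum.inr j)).toLinearMap :=
          PresH.der hv _ fun d₀ p hp => dt_mem j hp
        refine ⟨(pderiv (Sum.inr j)).toLinearMap * T, ?_, fun a s => ?_⟩
        · have := h1.comp hT
          rwa [show -(n : ℤ) + -1 = -((n + 1 : ℕ) : ℤ) by push_cast; ring] at this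
        · simp only [Module.End.mul_apply, Derivation.coeFn_coe, h]
          rw [Derivation.map_smul, dt_gen, smul_smul, Nat.descFactorial_succ]
          simp [Nat.sub_add_eq, mul_comm]
    obtain ⟨T, hT, h⟩ := key
    refine ⟨((n.factorial : ℂ)⁻¹) • T, hT.smul _, fun a s => ?_⟩
    have e : ((s j : ℤ) + -(n : ℤ)).toNat = s j - n := by omega
    rw [LinearMap.smul_apply, h, smul_smul, e, neg_neg, Int.toNat_natCast,
      Nat.descFactorial_eq_factorial_mul_choose]
    congr 1
    have : (n.factorial : ℂ) ≠ 0 := by exact_mod_cast n.factorial_ne_zero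
    push_cast
    field_simp

lemma exShift (hv : ∀ l, v l ∈ Hom σ κ (M l)) (c : κ → ℤ) :
    ∃ T, PresH v M (∑ j, c j) T ∧ ∀ a s, T (ix κ a * tm σ s) =
      (∏ j, ((s j).choose (-c j).toNat : ℂ)) •
        (ix κ a * tm σ (fun j => ((s j : ℤ) + c j).toNat)) := by
  classical
  have key : ∀ u : Finset κ, ∃ T, PresH v M (∑ j ∈ u, c j) T ∧ ∀ a s, T (ix κ a * tm σ s) =
      (∏ j ∈ u, ((s j).choose (-c j).toNat : ℂ)) •
        (ix κ a * tm σ (fun j => if j ∈ u then ((s j : ℤ) + c j).toNat else s j)) := by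
    intro u
    induction u using Finset.induction_on with
    | empty => exact ⟨1, by simpa using PresH.one, fun a s => by simp⟩
    | insert j u hj ih =>
      obtain ⟨T, hT, h⟩ := ih
      obtain ⟨T', hT', h'⟩ := exOne hv j (c j)
      refine ⟨T' * T, ?_, fun a s => ?_⟩
      · rw [Finset.sum_insert hj, add_comm]; exact hT'.comp hT
      · rw [Module.End.mul_apply, h, map_smul, h', smul_smul, Finset.prod_insert hj, if_neg hj,
          mul_comm]
        congr 3
        funext i
        by_cases hi : i = j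
        · subst hi; simp
        · simp [hi]
  simpa using key Finset.univ

end ops

section main

variable {σ κ L : Type} [Fintype κ] [Fintype L]

lemma foldr_C (Ls : List σ) (c : ℂ) (g : MvPolynomial σ ℂ) :
    Ls.foldr (fun i h => pderiv i h) (C c * g) = C c * Ls.foldr (fun i h => pderiv i h) g := by
  induction Ls with
  | nil => rfl
  | cons i Ls ih => simp only [List.foldr_cons, ih, pderiv_C_mul]

/-- The functional equation for a product of powers of elements of powers of the ideal. -/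
theorem core (f : κ → MvPolynomial σ ℂ) (b : Polynomial ℂ) (hb : IsBS f b)
    (g : L → MvPolynomial σ ℂ) (M : L → ℕ) (hg : ∀ l, g l ∈ Ideal.span (Set.range f) ^ M l)
    (Z : Submodule ℂ ((L → ℕ) → MvPolynomial σ ℂ))
    (h1 : ∀ j p, p ∈ Ideal.span (Set.range f) ^ (1 + ∑ l, j l * M l) →
      (fun e => p * wf g j e) ∈ Z)
    (h2 : ∀ i j p, (fun e => pderiv i (p * wf g j e)) ∈ Z) :
    (fun e => C (b.eval ((∑ l, e l * M l : ℕ) : ℂ)) * wf g 0 e) ∈ Z := by
  classical
  choose v hv hvg using fun l => exists_ev f (M l) (hg l)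
  have hw : ∀ j e, ev f (wf v j e) = wf g j e := by
    intro j e; simp [wf, hvg]
  have k1 : ∀ F ∈ FamS v M 1, (fun e => (ev f).toLinearMap (F e)) ∈ Z := by
    apply span_map
    rintro _ ⟨j, p, hp, rfl⟩
    simp only [AlgHom.toLinearMap_apply, map_mul, hw]
    exact h1 j _ (ev_mem f _ (by exact_mod_cast hp))
  have k2 : ∀ i, ∀ F ∈ FamA v, (fun e => ((pderiv i).toLinearMap ∘ₗ (ev f).toLinearMap) (F e)) ∈ Z := by
    intro i
    apply span_map
    rintro _ ⟨j, p, rfl⟩
    simp only [LinearMap.comp_apply, AlgHom.toLinearMap_apply, map_mul, hw, Derivation.coeFn_coe]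
    exact h2 i j _
  have exA : ∀ Ls : List σ, ∃ T, PresA v T ∧
      (∀ a s, ev f (T (ix κ a * tm σ s)) = a * Ls.foldr (fun i h => pderiv i h) (∏ j, f j ^ s j)) ∧
      ∀ F ∈ FamS v M 1, (fun e => ev f (T (F e))) ∈ Z := by
    intro Ls
    induction Ls with
    | nil => exact ⟨1, fun F hF => hF, fun a s => ev_gen f a s, k1⟩
    | cons i Ls ih =>
      obtain ⟨T, hT, h, h'⟩ := ih
      let D : Module.End ℂ (MvPolynomial (σ ⊕ κ) ℂ) := (pderiv (Sum.inl i)).toLinearMap +
        ∑ j, LinearMap.mulLeft ℂ (ix κ (pderiv i (f j))) * (pderiv (Sum.inr j)).toLinearMap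
      have hD : ∀ P, ev f (D P) = pderiv i (ev f P) := by
        intro P
        rw [← ev_chain]
        simp [D, LinearMap.sum_apply]
      have hDA : PresA v D := by
        intro F hF
        have : (fun e => D (F e)) = (fun e => (pderiv (Sum.inl i)).toLinearMap (F e)) +
            ∑ j, fun e => (LinearMap.mulLeft ℂ (ix κ (pderiv i (f j))) *
              (pderiv (Sum.inr j)).toLinearMap : Module.End ℂ (MvPolynomial (σ ⊕ κ) ℂ)) (F e) := by
          funext e; simp [D, LinearMap.sum_apply]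
        rw [this]
        exact add_mem (PresA.der _ F hF)
          (Submodule.sum_mem _ fun j _ => ((PresA.mul _).comp (PresA.der _)) F hF)
      refine ⟨D * T - T * (pderiv (Sum.inl i)).toLinearMap, fun F hF => ?_, fun a s => ?_,
        fun F hF => ?_⟩
      · exact Submodule.sub_mem _ (hDA.comp hT F hF) (hT.comp (PresA.der _) F hF)
      · simp only [LinearMap.sub_apply, Module.End.mul_apply, map_sub, hD, h, Derivation.coeFn_coe,
          dx_gen, List.foldr_cons]
        rw [pderiv_mul]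
        ring
      · have a1 := k2 i _ (hT F (FamS_le v M 1 hF))
        have a2 := h' _ (by
          simpa using PresH.der hv (d := 0) (pderiv (Sum.inl i))
            (fun d₀ p hp => by simpa using dx_mem i hp) 1 F hF)
        have := Z.sub_mem a1 a2
        refine (congrArg (· ∈ Z) ?_).mp this
        funext e
        simp [hD]
  choose A hA1 hA2 hA3 using exA
  choose T hT1 hT2 using exDiag hv
  choose U hU1 hU2 using exShift hv
  obtain ⟨S, P, hS, hP⟩ := hb
  have key : ∀ (n : ℕ), ∀ Φ ∈ Hom σ κ n, C (b.eval (n : ℂ)) * ev f Φ =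
      ∑ c ∈ S, ∑ Ls ∈ (P c).support, ev f (A Ls (U c (T (P c Ls) Φ))) := by
    intro n Φ hΦ
    induction hΦ using Submodule.span_induction with
    | zero => simp
    | add x y _ _ hx hy => simp only [map_add, mul_add, hx, hy, Finset.sum_add_distrib]
    | smul c x _ hx =>
      simp only [map_smul, mul_smul_comm, hx, Finset.smul_sum]
    | mem x hx =>
      obtain ⟨a, s, hs, rfl⟩ := hx
      have hn : (n : ℂ) = ∑ j, (s j : ℂ) := by exact_mod_cast hs.symm
      rw [ev_gen, mul_left_comm, hn, hP, Finset.mul_sum]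
      refine Finset.sum_congr rfl fun c _ => ?_
      rw [act, Finsupp.sum, Finset.mul_sum]
      refine Finset.sum_congr rfl fun Ls _ => ?_
      rw [hT2, hU2, map_smul, map_smul, hA2, foldr_C, smul_eq_C_mul]
      ring
  have h0 : (fun e => wf v 0 e) ∈ FamS v M 0 :=
    Submodule.subset_span ⟨0, 1, by simpa using ix_mem (κ := κ) (1 : MvPolynomial σ ℂ), by simp⟩
  have hfin : (fun e => C (b.eval ((∑ l, e l * M l : ℕ) : ℂ)) * wf g 0 e) =
      ∑ c ∈ S, ∑ Ls ∈ (P c).support, fun e => ev f (A Ls (U c (T (P c Ls) (wf v 0 e)))) := by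
    funext e
    simp only [Finset.sum_apply]
    rw [← key (∑ l, e l * M l), hw]
    rw [wf_zero]
    have := prod_mem_Hom Finset.univ (fun l => (e l : ℤ) * M l) (fun l => v l ^ e l)
      fun l _ => pow_mem_Hom (hv l) (e l)
    simpa using this
  rw [hfin]
  refine Submodule.sum_mem _ fun c hc => Submodule.sum_mem _ fun Ls _ => hA3 Ls _ ?_
  have := hU1 c _ _ (hT1 (P c Ls) _ _ h0)
  simpa [hS c hc] using this

end main

end Pool.Agent.MP_ee8c61_ag.H10
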