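import Mathlib
import Pool.Agent.MP_ee8c61_ag.H10.Core

/-! Criteria for divisors of a Bernstein-Sato polynomial from a functional that kills
derivatives. -/

namespace Pool.Agent.MP_ee8c61_ag.H10

open MvPolynomial

section dl

variable {A : Type} [CommRing A] [Algebra ℂ A]

/-- Logarithmic derivative of a unit. -/
def dl (D : Derivation ℂ A A) (u : Aˣ) : A := ↑u⁻¹ * D u

lemma dl_mul (D : Derivation ℂ A A) (u v : Aˣ) : dl D (u * v) = dl D u + dl D v := by
  simp only [dl, Units.val_mul, Derivation.leibniz, smul_eq_mul, mul_inv_rev]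
  have h1 := u.inv_mul
  have h2 := v.inv_mul
  linear_combination (↑v⁻¹ * D v) * h1 + (↑u⁻¹ * D u) * h2

lemma dl_one (D : Derivation ℂ A A) : dl D 1 = 0 := by simp [dl]

lemma dl_inv (D : Derivation ℂ A A) (u : Aˣ) : dl D u⁻¹ = -dl D u := by
  have := dl_mul D u⁻¹ u
  rw [inv_mul_cancel, dl_one] at this
  linear_combination -this

lemma dl_pow (D : Derivation ℂ A A) (u : Aˣ) (n : ℕ) : dl D (u ^ n) = (n : ℂ) • dl D u := by
  induction n with
  | zero => simp [dl_one]
  | succ n ih => rw [pow_succ, dl_mul, ih]; push_cast; rw [add_smul, one_smul]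

lemma dl_prod {L : Type} (D : Derivation ℂ A A) (s : Finset L) (u : L → Aˣ) :
    dl D (∏ l ∈ s, u l) = ∑ l ∈ s, dl D (u l) := by
  classical
  induction s using Finset.induction_on with
  | empty => simp [dl_one]
  | insert a s ha ih => rw [Finset.prod_insert ha, Finset.sum_insert ha, dl_mul, ih]

lemma der_unit (D : Derivation ℂ A A) (u : Aˣ) : D u = u * dl D u := by
  rw [dl, ← mul_assoc, u.mul_inv, one_mul]

end dl

section crit

variable {σ κ L A : Type} [Fintype κ] [Fintype L] [CommRing A] [Algebra ℂ A]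

lemma eval_aeval_poly {L : Type} (x : L → ℂ) (q : MvPolynomial L ℂ) (p : Polynomial ℂ) :
    eval x (Polynomial.aeval q p) = p.eval (eval x q) := by
  induction p using Polynomial.induction_on' with
  | add p p' hp hp' => simp [hp, hp']
  | monomial n a => simp [Polynomial.aeval_monomial]

theorem crit (f : κ → MvPolynomial σ ℂ) (b : Polynomial ℂ) (hb : IsBS f b)
    (φ : MvPolynomial σ ℂ →ₐ[ℂ] A) (δ : σ → Derivation ℂ A A)
    (hδ : ∀ i p, δ i (φ p) = φ (pderiv i p)) (Λ : A →ₗ[ℂ] ℂ) (hΛ : ∀ i a, Λ (δ i a) = 0)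
    (g : L → MvPolynomial σ ℂ) (M : L → ℕ) (hg : ∀ l, g l ∈ Ideal.span (Set.range f) ^ M l)
    (u : L → Aˣ) (hu : ∀ l, φ (g l) = u l) (Ψ : A) (e : L → Polynomial ℂ)
    (hs : ∑ l, e l * Polynomial.C (M l : ℂ) = Polynomial.X)
    (hΨ : ∀ i s, δ i Ψ = Ψ * ∑ l, (e l).eval s • dl (δ i) (u l))
    (J : Ideal (Polynomial ℂ))
    (hJ : ∀ (j : L → ℕ) p, p ∈ Ideal.span (Set.range f) ^ (1 + ∑ l, j l * M l) →
      (∏ l, (descPochhammer ℂ (j l)).comp (e l)) *
        Polynomial.C (Λ (Ψ * φ p * ↑(∏ l, u l ^ j l)⁻¹)) ∈ J) :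
    b * Polynomial.C (Λ Ψ) ∈ J := by
  classical
  let Z : Submodule ℂ ((L → ℕ) → MvPolynomial σ ℂ) :=
    { carrier := {F | ∃ G : MvPolynomial L ℂ, (∀ n : L → ℕ, eval (fun l => (n l : ℂ)) G =
        Λ (Ψ * φ (F n) * ↑(∏ l, u l ^ n l)⁻¹)) ∧ aeval e G ∈ J}
      add_mem' := by
        rintro F F' ⟨G, h, hG⟩ ⟨G', h', hG'⟩
        refine ⟨G + G', fun n => ?_, by rw [map_add]; exact add_mem hG hG'⟩
        simp only [map_add, h, h', Pi.add_apply, mul_add, add_mul]
      zero_mem' := ⟨0, fun n => by simp, by simp⟩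
      smul_mem' := by
        rintro c F ⟨G, h, hG⟩
        refine ⟨C c * G, fun n => ?_, by rw [map_mul]; exact J.mul_mem_left _ hG⟩
        simp only [map_mul, eval_C, h, Pi.smul_apply, map_smul, mul_smul_comm, smul_mul_assoc,
          smul_eq_mul] }
  let Gd : (L → ℕ) → MvPolynomial L ℂ := fun j =>
    ∏ l, Polynomial.aeval (X l : MvPolynomial L ℂ) (descPochhammer ℂ (j l))
  have hG1 : ∀ j (n : L → ℕ), eval (fun l => (n l : ℂ)) (Gd j) =
      ∏ l, ((n l).descFactorial (j l) : ℂ) := by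
    intro j n
    simp only [Gd, map_prod]
    refine Finset.prod_congr rfl fun l _ => ?_
    rw [← descPochhammer_eval_eq_descFactorial, eval_aeval_poly, eval_X]
  have hG2 : ∀ j, aeval e (Gd j) = ∏ l, (descPochhammer ℂ (j l)).comp (e l) := by
    intro j
    simp only [Gd, map_prod]
    refine Finset.prod_congr rfl fun l _ => ?_
    rw [← Polynomial.aeval_algHom_apply, aeval_X, Polynomial.comp_eq_aeval]
  have hw : ∀ j n, φ (wf g j n) = (∏ l, ((n l).descFactorial (j l) : ℂ)) •
      ((↑(∏ l, u l ^ j l)⁻¹ : A) * ↑(∏ l, u l ^ n l)) := by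
    intro j n
    rw [← Units.val_mul, ← Finset.prod_inv_distrib, ← Finset.prod_mul_distrib, Units.coe_prod,
      ← Finset.prod_smul, wf, map_prod]
    refine Finset.prod_congr rfl fun l _ => ?_
    rw [map_mul, map_natCast, map_pow, hu]
    rcases le_or_gt (j l) (n l) with h | h
    · have : (u l ^ j l)⁻¹ * u l ^ n l = u l ^ (n l - j l) := by
        rw [pow_sub _ h, mul_comm]
      rw [this, Units.val_pow_eq_pow_val, Algebra.smul_def, map_natCast]
    · simp [Nat.descFactorial_of_lt h]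
  have main := core f b hb g M hg Z ?_ ?_
  · obtain ⟨G, h, hG⟩ := main
    have hGeq : G = Polynomial.aeval (∑ l, X l * C (M l : ℂ) : MvPolynomial L ℂ) b * C (Λ Ψ) := by
      refine MvPolynomial.funext_set (fun _ => Set.range (Nat.cast : ℕ → ℂ))
        (fun _ => Set.infinite_range_of_injective Nat.cast_injective) fun x hx => ?_
      choose n hn using fun l => hx l (Set.mem_univ l)
      obtain rfl : x = fun l => (n l : ℂ) := funext fun l => (hn l).symm
      rw [h, map_mul φ, hw, map_mul (eval _), eval_C, eval_aeval_poly]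
      simp only [Pi.zero_apply, Nat.descFactorial_zero, Nat.cast_one, Finset.prod_const_one,
        pow_zero, inv_one, Units.val_one, one_mul, one_smul, map_sum, map_mul, eval_X, eval_C,
        algHom_C]
      rw [mul_assoc, mul_assoc, Units.mul_inv, mul_one, mul_comm Ψ, ← Algebra.smul_def, map_smul,
        smul_eq_mul]
      simp
    rw [hGeq, map_mul, ← Polynomial.aeval_algHom_apply] at hG
    simp only [map_sum, map_mul, aeval_X, aeval_C, Polynomial.algebraMap_eq, hs,
      Polynomial.aeval_X_left_apply] at hG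
    exact hG
  · intro j p hp
    refine ⟨Gd j * C (Λ (Ψ * φ p * ↑(∏ l, u l ^ j l)⁻¹)), fun n => ?_, ?_⟩
    · rw [map_mul, hG1, eval_C, map_mul φ, hw, ← smul_eq_mul, ← map_smul]
      congr 1
      simp only [mul_smul_comm, smul_mul_assoc, mul_assoc, Units.mul_inv, mul_one]
    · rw [map_mul, hG2, aeval_C, Polynomial.algebraMap_eq]
      exact hJ j p hp
  · intro i j p
    set a : A := φ p * ↑(∏ l, u l ^ j l)⁻¹ with ha
    refine ⟨Gd j * (C (Λ (Ψ * δ i a)) + ∑ l, X l * C (Λ (Ψ * a * dl (δ i) (u l)))),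
      fun n => ?_, ?_⟩
    · rw [map_mul, hG1, ← hδ, map_mul φ, hw, mul_smul_comm, ← mul_assoc (φ p), ← ha,
        Derivation.map_smul, Derivation.leibniz _ a, der_unit, dl_prod]
      simp only [map_add, map_sum, map_mul, eval_C, eval_X, dl_pow, smul_eq_mul, mul_smul_comm,
        smul_mul_assoc, map_smul]
      congr 1
      have : Ψ * (a * (↑(∏ l, u l ^ n l) * ∑ l, (n l : ℂ) • dl (δ i) (u l)) +
          ↑(∏ l, u l ^ n l) * δ i a) * ↑(∏ l, u l ^ n l)⁻¹ =
          Ψ * δ i a + ∑ l, (n l : ℂ) • (Ψ * a * dl (δ i) (u l)) := by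
        have h1 := (∏ l, u l ^ n l).mul_inv
        have h2 : ∑ l, (n l : ℂ) • (Ψ * a * dl (δ i) (u l)) =
            Ψ * a * ∑ l, (n l : ℂ) • dl (δ i) (u l) := by
          simp only [Finset.mul_sum, mul_smul_comm]
        rw [h2]
        linear_combination (Ψ * δ i a + Ψ * a * ∑ l, (n l : ℂ) • dl (δ i) (u l)) * h1
      rw [this]
      simp only [map_add, map_sum, map_smul, smul_eq_mul]
    · have : aeval e (C (Λ (Ψ * δ i a)) + ∑ l, X l * C (Λ (Ψ * a * dl (δ i) (u l))) :
          MvPolynomial L ℂ) = 0 := by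
        apply Polynomial.funext
        intro s
        have h1 := hΛ i (Ψ * a)
        rw [Derivation.leibniz, hΨ i s] at h1
        simp only [map_add, map_sum, map_mul, aeval_C, aeval_X, Polynomial.algebraMap_eq,
          Polynomial.eval_add, Polynomial.eval_C, Polynomial.eval_finsetSum, Polynomial.eval_mul,
          Polynomial.eval_zero]
        rw [← h1]
        simp only [smul_eq_mul, Finset.mul_sum, mul_smul_comm, map_add, map_sum, map_smul]
        congr 1
        refine Finset.sum_congr rfl fun l _ => ?_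
        rw [mul_left_comm a, mul_assoc]
      rw [map_mul, this, mul_zero]
      exact J.zero_mem

end crit

section grad

variable {A : Type} [CommRing A] [Algebra ℂ A]

/-- The span of the eigenvectors with integer eigenvalue at least `d`. -/
def Nn (E : Derivation ℂ A A) (d : ℤ) : Submodule ℂ A :=
  Submodule.span ℂ {g | ∃ d' : ℤ, d ≤ d' ∧ E g = (d' : ℂ) • g}

variable {E : Derivation ℂ A A}

lemma Nn.of {g : A} {d d' : ℤ} (h : d ≤ d') (hg : E g = (d' : ℂ) • g) : g ∈ Nn E d :=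
  Submodule.subset_span ⟨d', h, hg⟩

lemma Nn.mono {d d' : ℤ} (h : d ≤ d') {g : A} (hg : g ∈ Nn E d') : g ∈ Nn E d :=
  Submodule.span_mono (fun _ hx => hx.imp fun _ h' => ⟨h.trans h'.1, h'.2⟩) hg

lemma Nn.mul {d d' : ℤ} {p q : A} (hp : p ∈ Nn E d) (hq : q ∈ Nn E d') : p * q ∈ Nn E (d + d') := by
  induction hp using Submodule.span_induction with
  | zero => simp
  | add x y _ _ hx hy => rw [add_mul]; exact add_mem hx hy
  | smul c x _ hx => rw [smul_mul_assoc]; exact Submodule.smul_mem _ _ hx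
  | mem x hx =>
    obtain ⟨a, ha, hx⟩ := hx
    induction hq using Submodule.span_induction with
    | zero => simp
    | add x y _ _ hx hy => rw [mul_add]; exact add_mem hx hy
    | smul c x _ hx => rw [mul_smul_comm]; exact Submodule.smul_mem _ _ hx
    | mem y hy =>
      obtain ⟨a', ha', hy⟩ := hy
      refine Nn.of (add_le_add ha ha') ?_
      rw [Derivation.leibniz, hx, hy]
      push_cast
      simp only [smul_eq_mul, mul_smul_comm, add_smul, mul_comm y x, add_comm]

lemma Nn.mul0 {d : ℤ} {p q : A} (hp : p ∈ Nn E 0) (hq : q ∈ Nn E d) : p * q ∈ Nn E d := by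
  simpa using Nn.mul hp hq

lemma Nn.mul0' {d : ℤ} {p q : A} (hp : p ∈ Nn E d) (hq : q ∈ Nn E 0) : p * q ∈ Nn E d := by
  simpa using Nn.mul hp hq

lemma Nn.one : (1 : A) ∈ Nn E 0 := Nn.of le_rfl (by simp)

lemma Nn.prod {L : Type} (u : Finset L) (d : L → ℤ) (p : L → A)
    (hp : ∀ l ∈ u, p l ∈ Nn E (d l)) : ∏ l ∈ u, p l ∈ Nn E (∑ l ∈ u, d l) := by
  classical
  induction u using Finset.induction_on with
  | empty => simpa using Nn.one
  | insert a u ha ih =>
    rw [Finset.prod_insert ha, Finset.sum_insert ha]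
    exact Nn.mul (hp a (by simp)) (ih fun l hl => hp l (by simp [hl]))

lemma Nn.kill (Λ : A →ₗ[ℂ] ℂ) (hΛ : ∀ g, Λ (E g) = 0) {g : A} (hg : g ∈ Nn E 1) : Λ g = 0 := by
  induction hg using Submodule.span_induction with
  | zero => simp
  | add x y _ _ hx hy => rw [map_add, hx, hy, add_zero]
  | smul c x _ hx => rw [map_smul, hx, smul_zero]
  | mem x hx =>
    obtain ⟨a, ha, hx⟩ := hx
    have := hΛ x
    rw [hx, map_smul, smul_eq_mul, mul_eq_zero] at this
    refine this.resolve_left ?_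
    have : a ≠ 0 := by omega
    exact_mod_cast this

lemma Nn.unit {u : Aˣ} {d : ℤ} (h : dl E u = algebraMap ℂ A d) : (u : A) ∈ Nn E d :=
  Nn.of le_rfl (by rw [der_unit, h, mul_comm, Algebra.smul_def])

variable {σ κ : Type}

lemma Nn.poly (φ : MvPolynomial σ ℂ →ₐ[ℂ] A) (hx : ∀ i, φ (X i) ∈ Nn E 0) (p : MvPolynomial σ ℂ) :
    φ p ∈ Nn E 0 := by
  induction p using MvPolynomial.induction_on with
  | C a => rw [algHom_C, Algebra.algebraMap_eq_smul_one]; exact Submodule.smul_mem _ _ Nn.one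
  | add p q hp hq => rw [map_add]; exact add_mem hp hq
  | mul_X p n hp => rw [map_mul]; exact Nn.mul0 hp (hx n)

lemma Nn.ideal [Fintype κ] (φ : MvPolynomial σ ℂ →ₐ[ℂ] A) (hx : ∀ i, φ (X i) ∈ Nn E 0)
    (f : κ → MvPolynomial σ ℂ) (N : ℤ) (hf : ∀ j, φ (f j) ∈ Nn E N) (n : ℕ) {p : MvPolynomial σ ℂ}
    (hp : p ∈ Ideal.span (Set.range f) ^ n) : φ p ∈ Nn E (n * N) := by
  induction n generalizing p with
  | zero => simpa using Nn.poly φ hx p
  | succ n ih =>
    rw [pow_succ] at hp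
    refine Submodule.mul_induction_on hp ?_ ?_
    · intro a ha c hc
      obtain ⟨c, rfl⟩ := Ideal.mem_span_range_iff_exists_fun.1 hc
      have h1 : φ (∑ j, c j * f j) ∈ Nn E N := by
        rw [map_sum]
        exact Submodule.sum_mem _ fun j _ => by
          rw [map_mul]; exact Nn.mul0 (Nn.poly φ hx _) (hf j)
      have := Nn.mul (ih ha) h1
      rw [map_mul]
      rwa [show (n : ℤ) * N + N = ((n + 1 : ℕ) : ℤ) * N by push_cast; ring] at this
    · intro a c ha hc
      rw [map_add]; exact add_mem ha hc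

end grad

section crit2

variable {σ κ L T A : Type} [Fintype κ] [Fintype L] [Fintype T] [CommRing A] [Algebra ℂ A]

/-- `w` is a quotient of an element of a power of the ideal by a power of `h`, of degree `M`. -/
def InG (φ : MvPolynomial σ ℂ →ₐ[ℂ] A) (I : Ideal (MvPolynomial σ ℂ)) (h : A) (M₀ : ℕ) (M : ℤ)
    (w : A) : Prop :=
  ∃ j n : ℕ, (n : ℤ) = M + j * M₀ ∧ ∃ g ∈ I ^ n, φ g = w * h ^ j

theorem crit2 (f : κ → MvPolynomial σ ℂ) (b : Polynomial ℂ) (hb : IsBS f b)
    (φ : MvPolynomial σ ℂ →ₐ[ℂ] A) (δ : σ → Derivation ℂ A A)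
    (hδ : ∀ i p, δ i (φ p) = φ (pderiv i p)) (Λ : A →ₗ[ℂ] ℂ) (hΛ : ∀ i a, Λ (δ i a) = 0)
    (h : Aˣ) (M₀ : ℕ) (g₀ : MvPolynomial σ ℂ) (hg₀ : g₀ ∈ Ideal.span (Set.range f) ^ M₀)
    (hh : φ g₀ = h) (w : L → Aˣ) (M : L → ℤ)
    (hw : ∀ l, InG φ (Ideal.span (Set.range f)) h M₀ (M l) (w l))
    (Ψ : A) (hΨ0 : Λ Ψ ≠ 0) (e : L → Polynomial ℂ) (e₀ : Polynomial ℂ)
    (hs : ∑ l, e l * Polynomial.C (M l : ℂ) + e₀ * Polynomial.C (M₀ : ℂ) = Polynomial.X)
    (hΨ : ∀ i s, δ i Ψ = Ψ * (∑ l, (e l).eval s • dl (δ i) (w l) + e₀.eval s • dl (δ i) h))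
    (E : T → Derivation ℂ A A) (N : T → ℤ) (hN : ∀ a, 0 < N a) (lab : T → L)
    (hlab : Function.Injective lab) (hE : ∀ a g, Λ (Ψ * E a g) = 0)
    (hx : ∀ a i, φ (X i) ∈ Nn (E a) 0) (hf : ∀ a j, φ (f j) ∈ Nn (E a) (N a))
    (hEh : ∀ a, dl (E a) h = algebraMap ℂ A ((M₀ * N a : ℤ) : ℂ))
    (hEw : ∀ a l, l ≠ lab a → dl (E a) (w l) = algebraMap ℂ A ((M l * N a : ℤ) : ℂ)) :
    ∏ a, e (lab a) ∣ b := by
  classical
  choose j n hn g hg hφ using hw
  let u : Option L → Aˣ := fun o => o.elim h fun l => w l * h ^ j l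
  let M' : Option L → ℕ := fun o => o.elim M₀ n
  have hn' : ∀ l, (n l : ℂ) = M l + j l * M₀ := fun l => by exact_mod_cast hn l
  have key := crit f b hb φ δ hδ Λ hΛ (fun o : Option L => o.elim g₀ g) M'
    (by rintro (_ | l); exacts [hg₀, hg l]) u (by rintro (_ | l); exacts [hh, by simpa [u] using hφ l])
    Ψ (fun o => o.elim (e₀ - ∑ l, e l * Polynomial.C (j l : ℂ)) e) ?_ ?_
    (Ideal.span {∏ a, e (lab a)}) ?_
  · rw [Ideal.mem_span_singleton] at key
    exact (IsUnit.dvd_mul_right (Polynomial.isUnit_C.2 (Ne.isUnit hΨ0))).1 key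
  · rw [← hs]
    simp only [Fintype.sum_option, Option.elim, M', hn', map_add, map_mul, mul_add, sub_mul,
      Finset.sum_add_distrib, Finset.sum_mul, mul_assoc]
    ring
  · intro i s
    rw [hΨ i s]
    simp only [Fintype.sum_option, Option.elim, u, dl_mul, dl_pow, Polynomial.eval_sub,
      Polynomial.eval_finsetSum, Polynomial.eval_mul, Polynomial.eval_C, smul_add, sub_smul,
      Finset.sum_add_distrib, Finset.sum_smul, smul_smul]
    congr 1
    abel
  · intro k p hp
    rw [Ideal.mem_span_singleton]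
    by_cases hk : ∀ a, k (some (lab a)) ≠ 0
    · apply Dvd.dvd.mul_right
      rw [Fintype.prod_option]
      apply Dvd.dvd.mul_left
      refine Dvd.dvd.trans ?_ (Finset.prod_dvd_prod_of_subset (Finset.univ.image lab) _ _
        (Finset.subset_univ _))
      rw [Finset.prod_image fun _ _ _ _ h => hlab h]
      refine Finset.prod_dvd_prod_of_dvd _ _ fun a _ => ?_
      obtain ⟨m, hm⟩ := Nat.exists_eq_succ_of_ne_zero (hk a)
      rw [hm, descPochhammer_succ_left, Polynomial.mul_comp, Polynomial.X_comp]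
      exact Dvd.intro _ rfl
    · push Not at hk
      obtain ⟨a, ha⟩ := hk
      have h1 := Nn.ideal φ (hx a) f (N a) (hf a) _ hp
      have h2 : dl (E a) (∏ o, u o ^ k o)⁻¹ =
          algebraMap ℂ A ((-((∑ o, k o * M' o : ℕ) * N a) : ℤ) : ℂ) := by
        have e1 : ((-((∑ o, k o * M' o : ℕ) * N a) : ℤ) : ℂ) =
            -∑ o, (k o : ℂ) * M' o * N a := by
          push_cast
          rw [Finset.sum_mul]
        rw [dl_inv, dl_prod, e1, map_neg, map_sum]
        congr 1
        refine Finset.sum_congr rfl fun o _ => ?_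
        rw [dl_pow]
        rcases o with _ | l
        · simp [u, M', hEh, Algebra.smul_def, mul_assoc]
        · by_cases hl : l = lab a
          · subst hl; simp [ha]
          · simp only [u, M', Option.elim, dl_mul, dl_pow, hEh, hEw a l hl, hn', Algebra.smul_def,
              ← map_mul, ← map_add]
            congr 1
            push_cast
            ring
      have h3 := Nn.mul h1 (Nn.unit h2)
      have h4 : Λ (Ψ * φ p * ↑(∏ o, u o ^ k o)⁻¹) = 0 := by
        rw [mul_assoc]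
        refine Nn.kill (Λ ∘ₗ LinearMap.mulLeft ℂ Ψ) (hE a) (Nn.mono ?_ h3)
        have := hN a
        push_cast
        nlinarith
      rw [h4]
      simp

end crit2

end Pool.Agent.MP_ee8c61_ag.H10
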