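import Mathlib
import Pool.Agent.MP_ee8c61_ag.H10.Crit

/-! Coordinate systems with a functional that kills the coordinate derivatives, and triangular
changes of coordinates. -/

namespace Pool.Agent.MP_ee8c61_ag.H10

open Matrix

variable {A : Type} [CommRing A] [Algebra ℂ A]

lemma der_det {n : Type} [Fintype n] [DecidableEq n] (D : Derivation ℂ A A) (M : Matrix n n A) :
    D M.det = ∑ i, ∑ r, M.adjugate i r * D (M r i) := by
  have h1 : ∀ i, ∑ r, M.adjugate i r * D (M r i) = (M.updateCol i fun r => D (M r i)).det := by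
    intro i
    rw [← cramer_apply, cramer_eq_adjugate_mulVec]
    rfl
  simp only [h1, det_apply', map_sum]
  rw [Finset.sum_comm]
  refine Finset.sum_congr rfl fun s _ => ?_
  rw [Derivation.leibniz, Derivation.map_intCast, smul_zero, add_zero, der_prod, smul_eq_mul,
    Finset.mul_sum]
  refine Finset.sum_congr rfl fun i _ => ?_
  rw [← Finset.mul_prod_erase _ _ (Finset.mem_univ i), updateCol_self]
  congr 2
  exact Finset.prod_congr rfl fun j hj => (updateCol_ne (Finset.ne_of_mem_erase hj)).symm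

lemma der_sum_apply {L : Type} (s : Finset L) (D : L → Derivation ℂ A A) (g : A) :
    (∑ l ∈ s, D l) g = ∑ l ∈ s, D l g := by
  classical
  induction s using Finset.induction_on with
  | empty => simp
  | insert a s ha ih => rw [Finset.sum_insert ha, Finset.sum_insert ha, Derivation.add_apply, ih]

/-- `y` is a system of coordinates and `Λ` kills all derivatives. -/
def Fr {ι : Type} [DecidableEq ι] (y : ι → A) (Λ : A →ₗ[ℂ] ℂ) : Prop :=
  ∃ ξ : ι → Derivation ℂ A A, (∀ i j, ξ i (y j) = if i = j then 1 else 0) ∧ ∀ i a, Λ (ξ i a) = 0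

lemma der_adjoin_zero (D : Derivation ℂ A A) {s : Set A} (h : ∀ a ∈ s, D a = 0) {a : A}
    (ha : a ∈ Algebra.adjoin ℂ s) : D a = 0 := by
  induction ha using Algebra.adjoin_induction with
  | mem x hx => exact h x hx
  | algebraMap r => simp
  | add x y _ _ hx hy => simp [hx, hy]
  | mul x y _ _ hx hy => simp [hx, hy]

lemma der_adjoin_mem (D : Derivation ℂ A A) {s : Set A} (h : ∀ a ∈ s, D a ∈ Algebra.adjoin ℂ s)
    {a : A} (ha : a ∈ Algebra.adjoin ℂ s) : D a ∈ Algebra.adjoin ℂ s := by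
  induction ha using Algebra.adjoin_induction with
  | mem x hx => exact h x hx
  | algebraMap r => simp
  | add x y _ _ hx hy => rw [map_add]; exact add_mem hx hy
  | mul x y hx' hy' hx hy =>
    rw [Derivation.leibniz]
    exact add_mem (mul_mem hx' hy) (mul_mem hy' hx)

lemma ibp (Λ : A →ₗ[ℂ] ℂ) (D : Derivation ℂ A A) (h : ∀ a, Λ (D a) = 0) (c g : A) :
    Λ (c * D g) = -Λ (D c * g) := by
  have := h (c * g)
  rw [Derivation.leibniz, map_add, smul_eq_mul, smul_eq_mul, mul_comm g] at this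
  linear_combination this

theorem Fr.affine {ι κ : Type} [DecidableEq ι] [Fintype κ] [DecidableEq κ] {y : ι → A}
    {Λ : A →ₗ[ℂ] ℂ} (h : Fr y Λ) (e : κ → ι) (he : Function.Injective e) (M : Matrix κ κ A)
    (F : κ → A) (hM : ∀ a b, M a b ∈ Algebra.adjoin ℂ (y '' (Set.range e)ᶜ))
    (hF : ∀ a, F a ∈ Algebra.adjoin ℂ (y '' (Set.range e)ᶜ)) (hdet : IsUnit M.det) (x : ι → A)
    (hx1 : ∀ a, x (e a) = ∑ b, M a b * y (e b) + F a) (hx2 : ∀ i, i ∉ Set.range e → x i = y i) :
    Fr x (Λ ∘ₗ LinearMap.mulLeft ℂ M.det) := by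
  classical
  obtain ⟨ξ, hξ, hΛ⟩ := h
  set K := Algebra.adjoin ℂ (y '' (Set.range e)ᶜ) with hK
  have k0 : ∀ b, ∀ a ∈ K, ξ (e b) a = 0 := fun b a ha => by
    refine der_adjoin_zero _ ?_ ha
    rintro _ ⟨j, hj, rfl⟩
    rw [hξ, if_neg]
    rintro rfl
    exact hj ⟨b, rfl⟩
  have k1 : ∀ i, ∀ a ∈ K, ξ i a ∈ K := fun i a ha => by
    refine der_adjoin_mem _ ?_ ha
    rintro _ ⟨j, _, rfl⟩
    rw [hξ]
    split_ifs
    exacts [one_mem _, zero_mem _]
  have kadj : ∀ a b, M.adjugate a b ∈ K := by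
    intro a b
    let M' : Matrix κ κ K := fun a b => ⟨M a b, hM a b⟩
    have h1 : M = K.val.mapMatrix M' := rfl
    rw [h1, ← AlgHom.map_adjugate]
    exact (M'.adjugate a b).2
  have hinv : ∀ a b, M.det * M⁻¹ a b = M.adjugate a b := by
    intro a b
    rw [inv_def, Matrix.smul_apply, smul_eq_mul, ← mul_assoc, Ring.mul_inverse_cancel _ hdet, one_mul]
  let δ' : κ → Derivation ℂ A A := fun a => ∑ b, M⁻¹ b a • ξ (e b)
  have hδ' : ∀ a g, δ' a g = ∑ b, M⁻¹ b a * ξ (e b) g := by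
    intro a g
    simp only [δ']
    rw [der_sum_apply]
    simp
  have d0 : ∀ b c, ξ (e b) (x (e c)) = M c b := by
    intro b c
    rw [hx1, map_add, k0 b _ (hF c), map_sum, add_zero, Finset.sum_eq_single b]
    · simp [k0 b _ (hM c b), hξ]
    · intro b' _ hb'
      simp [k0 b _ (hM c b'), hξ, he.eq_iff, hb'.symm]
    · simp
  have d1 : ∀ a c, δ' a (x (e c)) = if a = c then 1 else 0 := by
    intro a c
    have := congrFun (congrFun (mul_nonsing_inv M hdet) c) a
    rw [mul_apply, one_apply] at this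
    simp only [hδ', d0, mul_comm (M⁻¹ _ _), this, eq_comm]
  have d2 : ∀ a i, i ∉ Set.range e → δ' a (x i) = 0 := by
    intro a i hi
    rw [hδ', hx2 i hi]
    exact Finset.sum_eq_zero fun b _ => by
      rw [k0 b _ (Algebra.subset_adjoin ⟨i, hi, rfl⟩), mul_zero]
  have l1 : ∀ a c g, Λ (M.det * (c * δ' a g)) = -∑ b, Λ (M.adjugate b a * ξ (e b) c * g) := by
    intro a c g
    rw [hδ', Finset.mul_sum, Finset.mul_sum, map_sum, ← Finset.sum_neg_distrib]
    refine Finset.sum_congr rfl fun b _ => ?_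
    have : M.det * (c * (M⁻¹ b a * ξ (e b) g)) = (M.adjugate b a * c) * ξ (e b) g := by
      rw [← hinv]; ring
    rw [this, ibp Λ _ (hΛ _), Derivation.leibniz, k0 b _ (kadj b a)]
    simp
  let δ : ι → Derivation ℂ A A := fun i =>
    if h : i ∈ Set.range e then δ' h.choose else ξ i - ∑ a, ξ i (x (e a)) • δ' a
  have hδ1 : ∀ a, δ (e a) = δ' a := by
    intro a
    have h : e a ∈ Set.range e := ⟨a, rfl⟩
    simp only [δ, dif_pos h]
    rw [he h.choose_spec]
  have hδ2 : ∀ i, i ∉ Set.range e → ∀ g, δ i g = ξ i g - ∑ a, ξ i (x (e a)) * δ' a g := by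
    intro i hi g
    simp only [δ, dif_neg hi]
    rw [Derivation.sub_apply, der_sum_apply]
    simp
  refine ⟨δ, fun i j => ?_, fun i g => ?_⟩
  · by_cases hi : i ∈ Set.range e
    · obtain ⟨a, rfl⟩ := hi
      rw [hδ1]
      by_cases hj : j ∈ Set.range e
      · obtain ⟨c, rfl⟩ := hj
        simp [d1, he.eq_iff]
      · rw [d2 a j hj, if_neg]
        rintro rfl
        exact hj ⟨a, rfl⟩
    · rw [hδ2 i hi]
      by_cases hj : j ∈ Set.range e
      · obtain ⟨c, rfl⟩ := hj
        rw [if_neg (by rintro rfl; exact hi ⟨c, rfl⟩)]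
        simp [d1]
      · simp only [d2 _ j hj]
        simp [hx2 j hj, hξ]
  · rw [LinearMap.comp_apply, LinearMap.mulLeft_apply]
    by_cases hi : i ∈ Set.range e
    · obtain ⟨a, rfl⟩ := hi
      have := l1 a 1 g
      simpa [hδ1] using this
    · have d3 : ∀ a b, ξ (e b) (ξ i (x (e a))) = ξ i (M a b) := by
        intro a b
        have hy : ∀ c, ξ i (y (e c)) = 0 := fun c => by
          rw [hξ, if_neg]
          rintro rfl
          exact hi ⟨c, rfl⟩
        rw [hx1, map_add, map_add, k0 b _ (k1 i _ (hF a)), map_sum, map_sum, add_zero,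
          Finset.sum_eq_single b]
        · simp [hy, hξ, k0 b _ (k1 i _ (hM a b))]
        · intro b' _ hb'
          simp [hy, hξ, k0 b _ (k1 i _ (hM a b')), he.eq_iff, hb'.symm]
        · simp
      rw [hδ2 i hi, mul_sub, map_sub, Finset.mul_sum, map_sum, ibp Λ _ (hΛ _), der_det]
      simp only [l1, d3, Finset.sum_mul, map_sum, Finset.sum_neg_distrib]
      rw [Finset.sum_comm]
      ring

theorem Fr.affine' {ι P κ : Type} [DecidableEq ι] [Fintype κ] [DecidableEq κ] {y : ι → A}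
    {Λ : A →ₗ[ℂ] ℂ} (h : Fr y Λ) (e : P → ι) (he : Function.Injective e) (e' : κ → P)
    (he' : Function.Injective e') (M : Matrix κ κ A) (F : κ → A)
    (hM : ∀ a b, M a b ∈ Algebra.adjoin ℂ ((y ∘ e) '' (Set.range e')ᶜ))
    (hF : ∀ a, F a ∈ Algebra.adjoin ℂ ((y ∘ e) '' (Set.range e')ᶜ)) (hdet : IsUnit M.det)
    (x : ι → A) (hx1 : ∀ a, x (e (e' a)) = ∑ b, M a b * y (e (e' b)) + F a)
    (hx2 : ∀ p, p ∉ Set.range e' → x (e p) = y (e p)) (hx3 : ∀ i, i ∉ Set.range e → x i = y i) :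
    Fr x (Λ ∘ₗ LinearMap.mulLeft ℂ M.det) := by
  have hle : Algebra.adjoin ℂ ((y ∘ e) '' (Set.range e')ᶜ) ≤
      Algebra.adjoin ℂ (y '' (Set.range (e ∘ e'))ᶜ) := by
    apply Algebra.adjoin_mono
    rintro _ ⟨p, hp, rfl⟩
    exact ⟨e p, fun ⟨a, ha⟩ => hp ⟨a, he ha⟩, rfl⟩
  refine h.affine (e ∘ e') (he.comp he') M F (fun a b => hle (hM a b)) (fun a => hle (hF a)) hdet x
    hx1 fun i hi => ?_
  by_cases hi' : i ∈ Set.range e
  · obtain ⟨p, rfl⟩ := hi'
    exact hx2 p fun ⟨a, ha⟩ => hi ⟨a, congrArg e ha⟩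
  · exact hx3 i hi'

/-- The matrix with upper left block `B`, and Schur complement `Z`. -/
def stepM {α ρ γ : Type} [Fintype α] (B : Matrix α α A) (Q : Matrix α γ A) (P : Matrix ρ α A)
    (Z : Matrix ρ γ A) : Matrix (α ⊕ ρ) (α ⊕ γ) A :=
  fromBlocks B (B * Q) (P * B) (Z + P * B * Q)

theorem Fr.step {ι α ρ γ : Type} [DecidableEq ι] [Fintype α] [DecidableEq α] [Fintype ρ]
    [DecidableEq ρ] [Fintype γ] [DecidableEq γ] {y : ι → A} {Λ : A →ₗ[ℂ] ℂ} (h : Fr y Λ)
    (e : (α ⊕ ρ) × (α ⊕ γ) → ι) (he : Function.Injective e) (B : Matrix α α A) (Q : Matrix α γ A)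
    (P : Matrix ρ α A) (Z : Matrix ρ γ A) (hy : ∀ p, y (e p) = fromBlocks B Q P Z p.1 p.2)
    (hdet : IsUnit B.det) (x : ι → A) (hx : ∀ p, x (e p) = stepM B Q P Z p.1 p.2)
    (hx' : ∀ i, i ∉ Set.range e → x i = y i) :
    Fr x (Λ ∘ₗ LinearMap.mulLeft ℂ (B.det ^ (Fintype.card ρ + Fintype.card γ))) := by
  classical
  let y1 : ι → A := Function.extend e (fun p => fromBlocks B Q P (Z + P * B * Q) p.1 p.2) y
  let y2 : ι → A := Function.extend e (fun p => fromBlocks B Q (P * B) (Z + P * B * Q) p.1 p.2) y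
  have a1 : ∀ p, y1 (e p) = fromBlocks B Q P (Z + P * B * Q) p.1 p.2 := fun p => he.extend_apply _ _ p
  have a2 : ∀ p, y2 (e p) = fromBlocks B Q (P * B) (Z + P * B * Q) p.1 p.2 :=
    fun p => he.extend_apply _ _ p
  have b1 : ∀ i, i ∉ Set.range e → y1 i = y i := fun i hi => Function.extend_apply' _ _ _ hi
  have b2 : ∀ i, i ∉ Set.range e → y2 i = y i := fun i hi => Function.extend_apply' _ _ _ hi
  have s1 := h.affine' e he (fun q : ρ × γ => (Sum.inr q.1, Sum.inr q.2))
    (fun _ _ h => by simpa [Prod.ext_iff] using h) 1 (fun q => (P * B * Q) q.1 q.2)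
    (fun a b => by rw [one_apply]; split_ifs; exacts [one_mem _, zero_mem _])
    (fun q => by
      simp only [mul_apply]
      refine sum_mem fun b _ => mul_mem (sum_mem fun a _ => mul_mem ?_ ?_) ?_
      · exact Algebra.subset_adjoin ⟨(Sum.inr q.1, Sum.inl a), by simp, by simp [hy]⟩
      · exact Algebra.subset_adjoin ⟨(Sum.inl a, Sum.inl b), by simp, by simp [hy]⟩
      · exact Algebra.subset_adjoin ⟨(Sum.inl b, Sum.inr q.2), by simp, by simp [hy]⟩)
    (by simp) y1 (fun q => by simp [a1, hy, one_apply])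
    (by rintro ⟨a | a, b | b⟩ hp <;> simp_all) b1
  have s2 := s1.affine' e he (fun q : α × ρ => (Sum.inr q.2, Sum.inl q.1))
    (fun _ _ h => by simpa [Prod.ext_iff, and_comm] using h) (blockDiagonal fun _ : ρ => Bᵀ)
    (fun _ => 0)
    (fun a b => by
      rw [blockDiagonal_apply]
      split_ifs
      · exact Algebra.subset_adjoin ⟨(Sum.inl b.1, Sum.inl a.1), by simp, by simp [a1]⟩
      · exact zero_mem _)
    (fun _ => zero_mem _)
    (by rw [det_blockDiagonal]; exact IsUnit.prod_univ_iff.2 fun _ => by rwa [det_transpose])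
    y2 (fun q => by
      simp [a1, a2, blockDiagonal_apply, Fintype.sum_prod_type, mul_apply, mul_comm])
    (by rintro ⟨a | a, b | b⟩ hp <;> simp_all) (fun i hi => (b2 i hi).trans (b1 i hi).symm)
  have s3 := s2.affine' e he (fun q : α × γ => (Sum.inl q.1, Sum.inr q.2))
    (fun _ _ h => by simpa [Prod.ext_iff] using h) (blockDiagonal fun _ : γ => B)
    (fun _ => 0)
    (fun a b => by
      rw [blockDiagonal_apply]
      split_ifs
      · exact Algebra.subset_adjoin ⟨(Sum.inl a.1, Sum.inl b.1), by simp, by simp [a2]⟩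
      · exact zero_mem _)
    (fun _ => zero_mem _)
    (by rw [det_blockDiagonal]; exact IsUnit.prod_univ_iff.2 fun _ => hdet)
    x (fun q => by
      simp [hx, stepM, a2, blockDiagonal_apply, Fintype.sum_prod_type, mul_apply])
    (by rintro ⟨a | a, b | b⟩ hp <;> simp_all [stepM]) (fun i hi => (hx' i hi).trans (b2 i hi).symm)
  have : ((Λ ∘ₗ LinearMap.mulLeft ℂ (1 : Matrix (ρ × γ) (ρ × γ) A).det) ∘ₗ
      LinearMap.mulLeft ℂ (blockDiagonal fun _ : ρ => Bᵀ).det) ∘ₗ
      LinearMap.mulLeft ℂ (blockDiagonal fun _ : γ => B).det =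
      Λ ∘ₗ LinearMap.mulLeft ℂ (B.det ^ (Fintype.card ρ + Fintype.card γ)) := by
    ext g
    simp [det_blockDiagonal, pow_add]
  rwa [this] at s3

end Pool.Agent.MP_ee8c61_ag.H10
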