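import Mathlib
import Pool.Agent.MP_ee8c61_ag.H10.Frame

/-! The invariant functional on a product of general linear groups, from the positivity of the
Fischer pairing. -/

namespace Pool.Agent.MP_ee8c61_ag.H10

open MvPolynomial Matrix

section loc

variable {R A : Type} [CommRing R] [CommRing A] [Algebra ℂ R] [Algebra ℂ A] [Algebra R A]
  [IsScalarTower ℂ R A]

theorem exists_der_loc (S : Submonoid R) [IsLocalization S A] (D : Derivation ℂ R R) :
    ∃ D' : Derivation ℂ A A, ∀ r, D' (algebraMap R A r) = algebraMap R A (D r) := by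
  let g : R →+* TrivSqZeroExt A A :=
    { toFun := fun r => TrivSqZeroExt.inl (algebraMap R A r) + TrivSqZeroExt.inr (algebraMap R A (D r))
      map_one' := by simp
      map_mul' := fun a b => by
        ext
        · simp
        · simp only [map_mul, Derivation.leibniz, smul_eq_mul, map_add, TrivSqZeroExt.snd_add,
            TrivSqZeroExt.snd_inl, TrivSqZeroExt.snd_inr, TrivSqZeroExt.snd_mul,
            TrivSqZeroExt.fst_add, TrivSqZeroExt.fst_inl, TrivSqZeroExt.fst_inr, zero_add, add_zero,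
            op_smul_eq_smul]
      map_zero' := by simp
      map_add' := fun a b => by
        ext <;> simp [Algebra.smul_def] }
  have hg : ∀ s : S, IsUnit (g s) := fun s => by
    rw [TrivSqZeroExt.isUnit_iff_isUnit_fst]
    simpa [g] using IsLocalization.map_units A s
  let G : A →+* TrivSqZeroExt A A := IsLocalization.lift hg
  have hG : ∀ r, G (algebraMap R A r) = g r := IsLocalization.lift_eq hg
  have h1 : ∀ a, (G a).fst = a := by
    have : (TrivSqZeroExt.fstHom ℂ A A).toRingHom.comp G = RingHom.id A := by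
      apply IsLocalization.ringHom_ext S
      ext r
      simp [hG, g]
    exact fun a => congrArg (fun f : A →+* A => f a) this
  have h2 : ∀ a b, (G (a * b)).snd = a * (G b).snd + b * (G a).snd := by
    intro a b
    rw [map_mul, TrivSqZeroExt.snd_mul, h1, h1]
    simp [mul_comm]
  have h3 : ∀ c : ℂ, (G (algebraMap ℂ A c)).snd = 0 := by
    intro c
    rw [IsScalarTower.algebraMap_apply ℂ R A, hG]
    simp [g]
  refine ⟨Derivation.mk'
    { toFun := fun a => (G a).snd
      map_add' := fun a b => by simp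
      map_smul' := fun c a => by
        rw [Algebra.smul_def, h2, h3]
        simp [Algebra.smul_def] } fun a b => by simpa using h2 a b, fun r => ?_⟩
  change (G (algebraMap R A r)).snd = _
  rw [hG]
  change (TrivSqZeroExt.inl (algebraMap R A r) + TrivSqZeroExt.inr (algebraMap R A (D r)) :
    TrivSqZeroExt A A).snd = _
  rw [TrivSqZeroExt.snd_add, TrivSqZeroExt.snd_inl, TrivSqZeroExt.snd_inr, zero_add]

end loc

section fischer

variable {ι : Type}

/-- The weight of a monomial. -/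
noncomputable def fw (α : ι →₀ ℕ) : ℕ := α.prod fun _ n => n.factorial

/-- The Fischer pairing with `G`. -/
noncomputable def fp (G : MvPolynomial ι ℂ) : MvPolynomial ι ℂ →ₗ[ℂ] ℂ :=
  (basisMonomials ι ℂ).constr ℂ fun α => (fw α : ℂ) * (starRingEnd ℂ) (coeff α G)

lemma fp_monomial (G : MvPolynomial ι ℂ) (α : ι →₀ ℕ) (c : ℂ) :
    fp G (monomial α c) = c * ((fw α : ℂ) * (starRingEnd ℂ) (coeff α G)) := by
  have : monomial α c = c • basisMonomials ι ℂ α := by simp [smul_monomial]
  rw [this, map_smul, fp, Module.Basis.constr_basis, smul_eq_mul]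

lemma fw_add (α : ι →₀ ℕ) (i : ι) : fw (α + Finsupp.single i 1) = fw α * (α i + 1) := by
  classical
  have h : ∀ β : ι →₀ ℕ, fw β = (β i).factorial * fw (β.erase i) := by
    intro β
    rw [fw, fw, Finsupp.mul_prod_erase' β i (fun _ n => n.factorial) (by simp)]
  rw [h, h α, Finsupp.erase_add, Finsupp.erase_single, add_zero]
  simp [Nat.factorial_succ]
  ring

lemma fw_pos (α : ι →₀ ℕ) : 0 < fw α := Finset.prod_pos fun _ _ => Nat.factorial_pos _

lemma fp_X_mul (G F : MvPolynomial ι ℂ) (i : ι) : fp G (X i * F) = fp (pderiv i G) F := by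
  induction F using MvPolynomial.induction_on' with
  | add p q hp hq => simp [mul_add, hp, hq]
  | monomial α c =>
    rw [X, monomial_mul, fp_monomial, fp_monomial, coeff_pderiv, add_comm, fw_add]
    simp only [one_mul, map_mul, map_add, map_natCast, map_one]
    push_cast
    ring

lemma fp_pderiv (G F : MvPolynomial ι ℂ) (i : ι) : fp G (pderiv i F) = fp (X i * G) F := by
  classical
  induction F using MvPolynomial.induction_on' with
  | add p q hp hq => simp [hp, hq]
  | monomial α c =>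
    rw [pderiv_monomial, fp_monomial, fp_monomial, coeff_X_mul']
    by_cases h : α i = 0
    · simp [h]
    · have h1 : α = (α - Finsupp.single i 1) + Finsupp.single i 1 := by
        rw [tsub_add_cancel_of_le]
        rw [Finsupp.single_le_iff]; omega
      have h2 := fw_add (α - Finsupp.single i 1) i
      rw [← h1] at h2
      have h3 : (α - Finsupp.single i 1 : ι →₀ ℕ) i + 1 = α i := by simp; omega
      rw [if_pos (Finsupp.mem_support_iff.2 h), h2, h3]
      push_cast
      ring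

lemma fp_sum {L : Type} (s : Finset L) (G : L → MvPolynomial ι ℂ) (F : MvPolynomial ι ℂ) :
    fp (∑ l ∈ s, G l) F = ∑ l ∈ s, fp (G l) F := by
  induction F using MvPolynomial.induction_on' with
  | add p q hp hq => simp [hp, hq, Finset.sum_add_distrib]
  | monomial α c => simp [fp_monomial, coeff_sum, Finset.mul_sum]

lemma fp_nsmul (n : ℕ) (G F : MvPolynomial ι ℂ) : fp ((n : ℂ) • G) F = n * fp G F := by
  induction F using MvPolynomial.induction_on' with
  | add p q hp hq => simp only [map_add, hp, hq, mul_add]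
  | monomial α c => simp [fp_monomial]; ring

lemma fp_self {G : MvPolynomial ι ℂ} (hG : G ≠ 0) : fp G G ≠ 0 := by
  have h1 : fp G G = ((∑ α ∈ G.support, (fw α : ℝ) * Complex.normSq (coeff α G) : ℝ) : ℂ) := by
    conv_lhs => enter [2]; rw [G.as_sum]
    rw [map_sum]
    push_cast
    refine Finset.sum_congr rfl fun α _ => ?_
    rw [fp_monomial, ← Complex.mul_conj]
    ring
  rw [h1, Complex.ofReal_ne_zero]
  refine (Finset.sum_pos (fun α hα => ?_) (support_nonempty.2 hG)).ne'
  exact mul_pos (by exact_mod_cast fw_pos α) (Complex.normSq_pos.2 (mem_support_iff.1 hα))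

end fischer

section block

variable {ι κ A : Type} [DecidableEq ι] [Fintype κ] [DecidableEq κ] [CommRing A] [Algebra ℂ A]

/-- The matrix of coordinates of a block. -/
def blk (y : ι → A) (e : κ × κ → ι) : Matrix κ κ A := Matrix.of fun a b => y (e (a, b))

/-- The vector field that replaces row `b` of a block by row `a`. -/
def rowE (y : ι → A) (ξ : ι → Derivation ℂ A A) (e : κ × κ → ι) (a b : κ) : Derivation ℂ A A :=
  ∑ c, y (e (a, c)) • ξ (e (b, c))

omit [DecidableEq ι] [DecidableEq κ] in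
lemma rowE_apply (y : ι → A) (ξ : ι → Derivation ℂ A A) (e : κ × κ → ι) (a b : κ) (g : A) :
    rowE y ξ e a b g = ∑ c, y (e (a, c)) * ξ (e (b, c)) g := by
  simp [rowE, der_sum_apply]

lemma rowE_det {y : ι → A} {ξ : ι → Derivation ℂ A A}
    (hξ : ∀ i j, ξ i (y j) = if i = j then 1 else 0) {e : κ × κ → ι} (he : Function.Injective e)
    (a b : κ) : rowE y ξ e a b (blk y e).det = if a = b then (blk y e).det else 0 := by
  have h1 : ∀ r s, rowE y ξ e a b (blk y e r s) = if r = b then blk y e a s else 0 := by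
    intro r s
    rw [rowE_apply, Finset.sum_eq_single s]
    · simp [blk, hξ, he.eq_iff, eq_comm]
    · intro c _ hc; simp [blk, hξ, he.eq_iff, hc]
    · simp
  have h2 := congrFun (congrFun (mul_adjugate (blk y e)) a) b
  rw [mul_apply] at h2
  rw [der_det]
  simp only [h1, mul_ite, mul_zero, Finset.sum_ite_eq', Finset.mem_univ, if_true]
  simp only [mul_comm (adjugate _ _ _), h2, Matrix.smul_apply, one_apply, smul_eq_mul, mul_ite,
    mul_one, mul_zero]

lemma rowE_eig {y : ι → A} {ξ : ι → Derivation ℂ A A}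
    (hξ : ∀ i j, ξ i (y j) = if i = j then 1 else 0) {e : κ × κ → ι} (he : Function.Injective e)
    (g : A) (hg : ∀ q, ξ (e q) g = 0) (n : ℕ) (a b : κ) :
    rowE y ξ e a b ((blk y e).det ^ n * g) =
      ((if a = b then n else 0 : ℕ) : ℂ) • ((blk y e).det ^ n * g) := by
  have : rowE y ξ e a b g = 0 := by simp [rowE_apply, hg]
  rw [Derivation.leibniz, this, Derivation.leibniz_pow, rowE_det hξ he]
  split_ifs
  · rcases n with _ | n
    · simp
    · simp [Algebra.smul_def]; ring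
  · simp

lemma block_kill {y : ι → A} {ξ : ι → Derivation ℂ A A}
    (hξ : ∀ i j, ξ i (y j) = if i = j then 1 else 0) {e : κ × κ → ι} (he : Function.Injective e)
    (hu : IsUnit (blk y e).det) (g : A) (hg : ∀ q, ξ (e q) g = 0) (Λ : A →ₗ[ℂ] ℂ)
    (hΛ : ∀ a b x, Λ (rowE y ξ e a b x) = 0) (p : κ × κ) (x : A) :
    Λ ((blk y e).det ^ Fintype.card κ * g * ξ (e p) x) = 0 := by
  obtain ⟨b, c⟩ := p
  set W := (blk y e).det ^ Fintype.card κ * g with hW
  set Y := blk y e with hY
  have h1 : ∀ a, rowE y ξ e a b W = ((if a = b then Fintype.card κ else 0 : ℕ) : ℂ) • W :=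
    fun a => rowE_eig hξ he g hg _ a b
  have h2 : ∀ d, ∑ a, Y⁻¹ c a * Y a d = if c = d then 1 else 0 := fun d => by
    have := congrFun (congrFun (nonsing_inv_mul Y hu) c) d
    rwa [mul_apply, one_apply] at this
  have h3 : ∀ a d, ξ (e (b, d)) (Y a d) = if a = b then 1 else 0 := fun a d => by
    simp [hY, blk, hξ, he.eq_iff, eq_comm]
  have h4 : ∀ d, ∑ a, (Y a d * ξ (e (b, d)) (Y⁻¹ c a) + Y⁻¹ c a * if a = b then 1 else 0) = 0 := by
    intro d
    have := congrArg (ξ (e (b, d))) (h2 d)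
    rw [map_sum] at this
    simp only [Derivation.leibniz, h3, smul_eq_mul] at this
    simp only [add_comm (Y _ d * _)]
    rw [this]
    split_ifs <;> simp
  have key : W * ξ (e (b, c)) x = ∑ a, rowE y ξ e a b (W * (Y⁻¹ c a * x)) := by
    simp only [Derivation.leibniz, h1, smul_eq_mul]
    have t1 : ∑ a, Y⁻¹ c a * rowE y ξ e a b x = ξ (e (b, c)) x := by
      simp only [rowE_apply, Finset.mul_sum]
      rw [Finset.sum_comm]
      have : ∀ d, ∑ a, Y⁻¹ c a * (y (e (a, d)) * ξ (e (b, d)) x) =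
          (if c = d then 1 else 0) * ξ (e (b, d)) x := fun d => by
        rw [← h2, Finset.sum_mul]
        exact Finset.sum_congr rfl fun a _ => by simp [hY, blk, mul_assoc]
      simp [this]
    have t2 : ∑ a, rowE y ξ e a b (Y⁻¹ c a) = -((Fintype.card κ : A) * Y⁻¹ c b) := by
      simp only [rowE_apply]
      rw [Finset.sum_comm]
      have : ∀ d, ∑ a, y (e (a, d)) * ξ (e (b, d)) (Y⁻¹ c a) = -Y⁻¹ c b := fun d => by
        have := h4 d
        rw [Finset.sum_add_distrib] at this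
        simp only [mul_ite, mul_one, mul_zero, Finset.sum_ite_eq', Finset.mem_univ, if_true] at this
        exact eq_neg_of_add_eq_zero_left this
      simp [this]
    have t3 : ∑ a, Y⁻¹ c a * x * ((if a = b then Fintype.card κ else 0 : ℕ) : ℂ) • W =
        Y⁻¹ c b * x * ((Fintype.card κ : A) * W) := by
      rw [Finset.sum_eq_single b]
      · simp [Algebra.smul_def]
      · intro a _ ha; simp [ha]
      · simp
    rw [Finset.sum_add_distrib, t3, ← Finset.mul_sum, Finset.sum_add_distrib, t1, ← Finset.mul_sum,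
      t2]
    ring
  rw [key, map_sum]
  exact Finset.sum_eq_zero fun a _ => hΛ _ _ _

end block

section base

variable {ι : Type} [DecidableEq ι]

theorem base_fr (d W : MvPolynomial ι ℂ) (hd : d ≠ 0)
    (hcov : ∀ i, ∃ (κ : Type) (_ : Fintype κ) (_ : DecidableEq κ) (e : κ × κ → ι) (p : κ × κ),
      Function.Injective e ∧ e p = i ∧
      (∃ g, d = (blk X e).det * g ∧ ∀ q, pderiv (e q) g = 0) ∧
      (∃ g, W = (blk X e).det ^ Fintype.card κ * g ∧ ∀ q, pderiv (e q) g = 0)) :
    ∃ Λ : Localization.Away d →ₗ[ℂ] ℂ, Λ 1 ≠ 0 ∧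
      Fr (fun i => algebraMap (MvPolynomial ι ℂ) (Localization.Away d) (X i))
        (Λ ∘ₗ LinearMap.mulLeft ℂ (algebraMap (MvPolynomial ι ℂ) _ W)) := by
  set A := Localization.Away d
  set m := algebraMap (MvPolynomial ι ℂ) A with hm
  have hinj : Function.Injective m :=
    IsLocalization.injective A (powers_le_nonZeroDivisors_of_noZeroDivisors hd)
  choose ξ hξ using fun i => exists_der_loc (A := A) (Submonoid.powers d) (pderiv (R := ℂ) i)
  have hX : ∀ i j, pderiv i (X j : MvPolynomial ι ℂ) = if i = j then 1 else 0 := fun i j => by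
    rw [pderiv_X, Pi.single_apply]; simp [eq_comm]
  have hdual : ∀ i j, ξ i (m (X j)) = if i = j then 1 else 0 := fun i j => by
    rw [hξ, hX]; split_ifs <;> simp
  let V : Submodule ℂ A :=
    { carrier := {a | ∃ M₀ : ℕ, ∀ M, M₀ ≤ M → ∃ G, a * m (d ^ M) = m G ∧ fp (d ^ M) G = 0}
      add_mem' := by
        rintro a b ⟨M, h⟩ ⟨M', h'⟩
        refine ⟨max M M', fun N hN => ?_⟩
        obtain ⟨G, h1, h2⟩ := h N (le_of_max_le_left hN)
        obtain ⟨G', h1', h2'⟩ := h' N (le_of_max_le_right hN)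
        exact ⟨G + G', by rw [add_mul, h1, h1', map_add], by rw [map_add, h2, h2', add_zero]⟩
      zero_mem' := ⟨0, fun _ _ => ⟨0, by simp, by simp⟩⟩
      smul_mem' := by
        rintro c a ⟨M, h⟩
        refine ⟨M, fun N hN => ?_⟩
        obtain ⟨G, h1, h2⟩ := h N hN
        refine ⟨c • G, ?_, by rw [map_smul, h2, smul_zero]⟩
        rw [smul_mul_assoc, h1, Algebra.smul_def, Algebra.smul_def, map_mul,
          ← IsScalarTower.algebraMap_apply] }
  have hV : (1 : A) ∉ V := by
    rintro ⟨M, h⟩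
    obtain ⟨G, h1, h2⟩ := h M le_rfl
    rw [one_mul] at h1
    rw [← hinj h1] at h2
    exact fp_self (pow_ne_zero M hd) h2
  obtain ⟨Λ, hΛ1, hΛ⟩ := V.exists_dual_map_eq_bot_of_notMem hV inferInstance
  have hΛ' : ∀ a ∈ V, Λ a = 0 := fun a ha => by
    have := Submodule.mem_map_of_mem (f := Λ) ha
    rwa [hΛ, Submodule.mem_bot] at this
  refine ⟨Λ, hΛ1, ξ, hdual, fun i x => ?_⟩
  obtain ⟨κ, _, _, e, p, he, rfl, ⟨g, hg, hg'⟩, ⟨g', hW, hW'⟩⟩ := hcov i
  have hblk : m (blk X e).det = (blk (fun i => m (X i)) e).det := by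
    rw [RingHom.map_det]; rfl
  have hrow : ∀ a b G, rowE (fun i => m (X i)) ξ e a b (m G) =
      m (rowE X (fun i => pderiv i) e a b G) := by
    intro a b G
    simp only [rowE_apply, map_sum, map_mul]
    exact Finset.sum_congr rfl fun c _ => by rw [hξ]
  rw [LinearMap.comp_apply, LinearMap.mulLeft_apply, hW, map_mul m, map_pow, hblk]
  refine block_kill hdual he ?_ _ (fun q => by rw [hξ, hW', map_zero]) Λ ?_ p x
  · rw [← hblk]
    have h1 : IsUnit (m d) := IsLocalization.Away.algebraMap_isUnit d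
    have h2 : m d = m (blk X e).det * m g := by rw [← map_mul, ← hg]
    rw [h2] at h1
    exact isUnit_of_mul_isUnit_left h1
  · intro a b x
    apply hΛ'
    obtain ⟨M₀, G₀, h0⟩ := IsLocalization.Away.surj (S := A) d x
    refine ⟨M₀, fun M hM => ?_⟩
    obtain ⟨k, rfl⟩ := Nat.exists_eq_add_of_le hM
    set M := M₀ + k
    have hG : x * m (d ^ M) = m (G₀ * d ^ k) := by
      rw [pow_add, map_mul, map_mul, ← mul_assoc, map_pow, h0]
    have heig : ∀ a b, rowE X (fun i => pderiv i) e a b (d ^ M) =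
        ((if a = b then M else 0 : ℕ) : ℂ) • d ^ M := by
      intro a b
      rw [hg, mul_pow]
      exact rowE_eig hX he _ (fun q => by simp [Derivation.leibniz_pow, hg']) M a b
    refine ⟨rowE X (fun i => pderiv i) e a b (G₀ * d ^ k) -
      ((if a = b then M else 0 : ℕ) : ℂ) • (G₀ * d ^ k), ?_, ?_⟩
    · have := congrArg (rowE (fun i => m (X i)) ξ e a b) hG
      rw [Derivation.leibniz, hrow, hrow, heig] at this
      rw [map_sub, ← this]
      simp only [Algebra.smul_def, map_mul, ← IsScalarTower.algebraMap_apply, smul_eq_mul,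
        Algebra.algebraMap_self, RingHom.id_apply] at hG ⊢
      rw [← hG]
      ring
    · rw [map_sub, map_smul, rowE_apply, map_sum]
      simp only [fp_X_mul, fp_pderiv]
      rw [← fp_sum, ← rowE_apply X (fun i => pderiv i), heig, fp_nsmul]
      simp [eq_comm]

theorem base3 [Fintype ι] {α β γ : Type} [Fintype α] [DecidableEq α] [Fintype β] [DecidableEq β]
    [Fintype γ] [DecidableEq γ] (e₀ : α × α → ι) (e₁ : β × β → ι) (e₂ : γ × γ → ι)
    (h₀ : Function.Injective e₀) (h₁ : Function.Injective e₁) (h₂ : Function.Injective e₂)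
    (h01 : ∀ p q, e₀ p ≠ e₁ q) (h02 : ∀ p q, e₀ p ≠ e₂ q) (h12 : ∀ p q, e₁ p ≠ e₂ q)
    (U : Finset ι) (hU : ∀ i, i ∈ U ↔ i ∉ Set.range e₀ ∧ i ∉ Set.range e₁ ∧ i ∉ Set.range e₂) :
    ∃ (A : Type) (_ : CommRing A) (_ : Algebra ℂ A) (y : ι → A) (Λ : A →ₗ[ℂ] ℂ), Λ 1 ≠ 0 ∧
      IsUnit (blk y e₀).det ∧ IsUnit (blk y e₁).det ∧ IsUnit (blk y e₂).det ∧
      (∀ i ∈ U, IsUnit (y i)) ∧
      Fr y (Λ ∘ₗ LinearMap.mulLeft ℂ ((blk y e₀).det ^ Fintype.card α *
        (blk y e₁).det ^ Fintype.card β * (blk y e₂).det ^ Fintype.card γ * ∏ i ∈ U, y i)) := by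
  have hz : ∀ {κ : Type} [Fintype κ] [DecidableEq κ] (e : κ × κ → ι) (i : ι), (∀ p, e p ≠ i) →
      pderiv i (blk (X : ι → MvPolynomial ι ℂ) e).det = 0 := by
    intro κ _ _ e i hi
    rw [der_det]
    simp [blk, hi]
  have hP : ∀ (s : Finset ι) (i : ι), i ∉ s →
      pderiv i (∏ j ∈ s, X j : MvPolynomial ι ℂ) = 0 := fun s i hi =>
    der_prod_zero _ _ _ fun j hj => pderiv_X_of_ne (by rintro rfl; exact hi hj)
  have hne : ∀ {κ : Type} [Fintype κ] [DecidableEq κ] (e : κ × κ → ι), Function.Injective e →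
      (blk (X : ι → MvPolynomial ι ℂ) e).det ≠ 0 := by
    intro κ _ _ e he h
    have := congrArg (eval (Function.extend e (fun p => if p.1 = p.2 then (1 : ℂ) else 0) 0)) h
    rw [RingHom.map_det, map_zero] at this
    have h1 : (eval (Function.extend e (fun p => if p.1 = p.2 then (1 : ℂ) else 0) 0)).mapMatrix
        (blk X e) = 1 := by
      ext a b
      simp [blk, he.extend_apply, one_apply]
    rw [h1, det_one] at this
    exact one_ne_zero this
  set D₀ := (blk (X : ι → MvPolynomial ι ℂ) e₀).det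
  set D₁ := (blk (X : ι → MvPolynomial ι ℂ) e₁).det
  set D₂ := (blk (X : ι → MvPolynomial ι ℂ) e₂).det
  have hd : D₀ * D₁ * D₂ * ∏ i ∈ U, X i ≠ 0 :=
    mul_ne_zero (mul_ne_zero (mul_ne_zero (hne _ h₀) (hne _ h₁)) (hne _ h₂))
      (Finset.prod_ne_zero_iff.2 fun i _ => X_ne_zero i)
  have u₀ : ∀ q, e₀ q ∉ U := fun q h => ((hU _).1 h).1 ⟨q, rfl⟩
  have u₁ : ∀ q, e₁ q ∉ U := fun q h => ((hU _).1 h).2.1 ⟨q, rfl⟩
  have u₂ : ∀ q, e₂ q ∉ U := fun q h => ((hU _).1 h).2.2 ⟨q, rfl⟩
  obtain ⟨Λ, hΛ, hF⟩ := base_fr (D₀ * D₁ * D₂ * ∏ i ∈ U, X i)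
    (D₀ ^ Fintype.card α * D₁ ^ Fintype.card β * D₂ ^ Fintype.card γ * ∏ i ∈ U, X i) hd (by
    intro i
    by_cases c₀ : i ∈ Set.range e₀
    · obtain ⟨p, rfl⟩ := c₀
      have z1 := fun q => hz e₁ (e₀ q) fun p => (h01 q p).symm
      have z2 := fun q => hz e₂ (e₀ q) fun p => (h02 q p).symm
      refine ⟨α, _, _, e₀, p, h₀, rfl, ⟨D₁ * D₂ * ∏ i ∈ U, X i, by ring, fun q => ?_⟩,
        ⟨D₁ ^ Fintype.card β * D₂ ^ Fintype.card γ * ∏ i ∈ U, X i, by ring, fun q => ?_⟩⟩ <;>
      simp [Derivation.leibniz_pow, D₁, D₂, z1, z2, hP _ _ (u₀ q)]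
    by_cases c₁ : i ∈ Set.range e₁
    · obtain ⟨p, rfl⟩ := c₁
      have z1 := fun q => hz e₀ (e₁ q) fun p => h01 p q
      have z2 := fun q => hz e₂ (e₁ q) fun p => (h12 q p).symm
      refine ⟨β, _, _, e₁, p, h₁, rfl, ⟨D₀ * D₂ * ∏ i ∈ U, X i, by ring, fun q => ?_⟩,
        ⟨D₀ ^ Fintype.card α * D₂ ^ Fintype.card γ * ∏ i ∈ U, X i, by ring, fun q => ?_⟩⟩ <;>
      simp [Derivation.leibniz_pow, D₀, D₂, z1, z2, hP _ _ (u₁ q)]
    by_cases c₂ : i ∈ Set.range e₂
    · obtain ⟨p, rfl⟩ := c₂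
      have z1 := fun q => hz e₀ (e₂ q) fun p => h02 p q
      have z2 := fun q => hz e₁ (e₂ q) fun p => h12 p q
      refine ⟨γ, _, _, e₂, p, h₂, rfl, ⟨D₀ * D₁ * ∏ i ∈ U, X i, by ring, fun q => ?_⟩,
        ⟨D₀ ^ Fintype.card α * D₁ ^ Fintype.card β * ∏ i ∈ U, X i, by ring, fun q => ?_⟩⟩ <;>
      simp [Derivation.leibniz_pow, D₀, D₁, z1, z2, hP _ _ (u₂ q)]
    have hi : i ∈ U := (hU i).2 ⟨c₀, c₁, c₂⟩
    have z0 := hz e₀ i fun p h => c₀ ⟨p, h⟩
    have z1 := hz e₁ i fun p h => c₁ ⟨p, h⟩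
    have z2 := hz e₂ i fun p h => c₂ ⟨p, h⟩
    have hb : (blk (X : ι → MvPolynomial ι ℂ) (fun _ : Unit × Unit => i)).det = X i := by
      simp [blk]
    refine ⟨Unit, inferInstance, inferInstance, fun _ => i, ((), ()), fun _ _ _ => Subsingleton.elim _ _, rfl,
      ⟨D₀ * D₁ * D₂ * ∏ j ∈ U.erase i, X j, ?_, fun q => ?_⟩,
      ⟨D₀ ^ Fintype.card α * D₁ ^ Fintype.card β * D₂ ^ Fintype.card γ * ∏ j ∈ U.erase i, X j, ?_,
        fun q => ?_⟩⟩
    · rw [hb, ← Finset.mul_prod_erase _ _ hi]; ring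
    · simp [D₀, D₁, D₂, z0, z1, z2, hP _ _ (Finset.notMem_erase i U)]
    · rw [hb, ← Finset.mul_prod_erase _ _ hi]; simp; ring
    · simp [Derivation.leibniz_pow, D₀, D₁, D₂, z0, z1, z2, hP _ _ (Finset.notMem_erase i U)])
  set A := Localization.Away (D₀ * D₁ * D₂ * ∏ i ∈ U, X i)
  set m := algebraMap (MvPolynomial ι ℂ) A with hm
  have hblk : ∀ {κ : Type} [Fintype κ] [DecidableEq κ] (e : κ × κ → ι),
      m (blk X e).det = (blk (fun i => m (X i)) e).det := by
    intro κ _ _ e
    rw [RingHom.map_det]; rfl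
  have hu : IsUnit (m (D₀ * D₁ * D₂ * ∏ i ∈ U, X i)) := IsLocalization.Away.algebraMap_isUnit _
  simp only [map_mul, map_prod, IsUnit.mul_iff, D₀, D₁, D₂, hblk] at hu
  refine ⟨A, inferInstance, inferInstance, fun i => m (X i), Λ, hΛ, hu.1.1.1, hu.1.1.2, hu.1.2,
    IsUnit.prod_iff.1 hu.2, ?_⟩
  simpa only [map_mul, map_pow, map_prod, D₀, D₁, D₂, hblk] using hF

end base

end Pool.Agent.MP_ee8c61_ag.H10
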