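import Mathlib
import Pool.Agent.MP_ee8c61_ag.H10.Fischer

/-! Closure properties used in the chart of the space of matrices. -/

namespace Pool.Agent.MP_ee8c61_ag.H10

open MvPolynomial Matrix

section ing

variable {σ A : Type} [CommRing A] [Algebra ℂ A] {φ : MvPolynomial σ ℂ →ₐ[ℂ] A}
  {I : Ideal (MvPolynomial σ ℂ)} {h : A} {M₀ : ℕ}

lemma InG.of {n : ℕ} {g : MvPolynomial σ ℂ} (hg : g ∈ I ^ n) : InG φ I h M₀ n (φ g) :=
  ⟨0, n, by simp, g, hg, by simp⟩

lemma InG.poly (g : MvPolynomial σ ℂ) : InG φ I h M₀ 0 (φ g) :=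
  InG.of (n := 0) (by simp)

lemma InG.mul {M M' : ℤ} {w w' : A} (a : InG φ I h M₀ M w) (b : InG φ I h M₀ M' w') :
    InG φ I h M₀ (M + M') (w * w') := by
  obtain ⟨j, n, hn, g, hg, e⟩ := a
  obtain ⟨j', n', hn', g', hg', e'⟩ := b
  refine ⟨j + j', n + n', by push_cast; rw [hn, hn']; ring, g * g', ?_, ?_⟩
  · rw [pow_add]; exact Ideal.mul_mem_mul hg hg'
  · rw [map_mul, e, e']; ring

lemma InG.neg {M : ℤ} {w : A} (a : InG φ I h M₀ M w) : InG φ I h M₀ M (-w) := by
  obtain ⟨j, n, hn, g, hg, e⟩ := a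
  exact ⟨j, n, hn, -g, neg_mem hg, by rw [map_neg, e]; ring⟩

lemma InG.cast {M M' : ℤ} {w w' : A} (a : InG φ I h M₀ M w) (h1 : M = M') (h2 : w = w') :
    InG φ I h M₀ M' w' := h1 ▸ h2 ▸ a

variable {g₀ : MvPolynomial σ ℂ} (hg₀ : g₀ ∈ I ^ M₀) (hh : φ g₀ = h)

include hg₀ hh

lemma InG.add {M : ℤ} {w w' : A} (a : InG φ I h M₀ M w) (b : InG φ I h M₀ M w') :
    InG φ I h M₀ M (w + w') := by
  obtain ⟨j, n, hn, g, hg, e⟩ := a
  obtain ⟨j', n', hn', g', hg', e'⟩ := b
  have k1 : n + M₀ * j' = n' + M₀ * j := by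
    have : (n : ℤ) + M₀ * j' = n' + M₀ * j := by rw [hn, hn']; ring
    exact_mod_cast this
  refine ⟨j + j', n + M₀ * j', by push_cast; rw [hn]; ring, g * g₀ ^ j' + g' * g₀ ^ j,
    add_mem ?_ ?_, ?_⟩
  · rw [pow_add, pow_mul]; exact Ideal.mul_mem_mul hg (Ideal.pow_mem_pow hg₀ _)
  · rw [k1, pow_add, pow_mul]; exact Ideal.mul_mem_mul hg' (Ideal.pow_mem_pow hg₀ _)
  · simp only [map_add, map_mul, map_pow, e, e', hh]; ring

lemma InG.sum {L : Type} (s : Finset L) (hs : s.Nonempty) {M : ℤ} (w : L → A)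
    (a : ∀ l ∈ s, InG φ I h M₀ M (w l)) : InG φ I h M₀ M (∑ l ∈ s, w l) := by
  induction hs using Finset.Nonempty.cons_induction with
  | singleton l => simpa using a l (by simp)
  | cons l s hl _ ih =>
    rw [Finset.sum_cons]
    exact InG.add hg₀ hh (a l (by simp)) (ih fun l' hl' => a l' (by simp [hl']))

lemma InG.der (D : Derivation ℂ (MvPolynomial σ ℂ) (MvPolynomial σ ℂ)) (D' : Derivation ℂ A A)
    (hD : ∀ p, D' (φ p) = φ (D p)) (hI : ∀ p ∈ I, D p ∈ I) {M : ℤ} {w : A}
    (a : InG φ I h M₀ M w) : InG φ I h M₀ M (D' w) := by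
  have hpow : ∀ n, ∀ p ∈ I ^ n, D p ∈ I ^ n := by
    intro n
    induction n with
    | zero => simp
    | succ n ih =>
      intro p hp
      rw [pow_succ] at hp ⊢
      refine Submodule.mul_induction_on hp (fun a ha b hb => ?_) fun a b ha hb => ?_
      · rw [Derivation.leibniz, smul_eq_mul, smul_eq_mul, mul_comm b]
        exact add_mem (Ideal.mul_mem_mul ha (hI b hb)) (Ideal.mul_mem_mul (ih a ha) hb)
      · rw [map_add]; exact add_mem ha hb
  obtain ⟨j, n, hn, g, hg, e⟩ := a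
  refine ⟨j + 1, n + M₀, by push_cast; rw [hn]; ring, D g * g₀ - j * (g * D g₀), sub_mem ?_ ?_, ?_⟩
  · rw [pow_add]; exact Ideal.mul_mem_mul (hpow n g hg) hg₀
  · rw [pow_add]; exact Ideal.mul_mem_left _ _ (Ideal.mul_mem_mul hg (hpow _ _ hg₀))
  · simp only [map_sub, map_mul, map_natCast, ← hD, e, hh, Derivation.leibniz,
      Derivation.leibniz_pow, smul_eq_mul, nsmul_eq_mul]
    rcases j with _ | j
    · simp
    · simp only [Nat.add_sub_cancel]; push_cast; ring

lemma InG.det {n : Type} [Fintype n] [DecidableEq n] (N : Matrix n n A)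
    (hN : ∀ a b, InG φ I h M₀ 1 (N a b)) : InG φ I h M₀ (Fintype.card n) N.det := by
  rw [det_apply']
  refine InG.sum hg₀ hh _ Finset.univ_nonempty _ fun s _ => ?_
  have h1 : ∀ u : Finset n, InG φ I h M₀ u.card (∏ i ∈ u, N (s i) i) := by
    intro u
    induction u using Finset.induction_on with
    | empty => simpa using InG.poly (φ := φ) (I := I) (h := h) (M₀ := M₀) 1
    | insert a u ha ih =>
      rw [Finset.prod_insert ha, Finset.card_insert_of_notMem ha]
      exact ((hN _ _).mul ih).cast (by push_cast; ring) rfl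
  exact ((InG.poly ((Equiv.Perm.sign s : ℤ) : MvPolynomial σ ℂ)).mul (h1 Finset.univ)).cast
    (by simp) (by rw [map_intCast])

end ing

section minors

variable {R : Type} [CommRing R]

lemma det_mem_pow {n : Type} [Fintype n] [DecidableEq n] (I : Ideal R) (N : Matrix n n R)
    (d : n → ℕ) (hN : ∀ a b, N a b ∈ I ^ d a) : N.det ∈ I ^ ∑ a, d a := by
  rw [det_apply']
  refine Submodule.sum_mem _ fun s _ => Ideal.mul_mem_left _ _ ?_
  rw [← Equiv.sum_comp s, ← Finset.prod_pow_eq_pow_sum]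
  exact Ideal.prod_mem_prod fun i _ => hN _ _

lemma adj_mem_pow {n : Type} [Fintype n] [DecidableEq n] (I : Ideal R) (N : Matrix n n R)
    (hN : ∀ a b, N a b ∈ I) (a b : n) : N.adjugate a b ∈ I ^ (Fintype.card n - 1) := by
  rw [adjugate_apply]
  have := det_mem_pow I (N.updateRow b (Pi.single a 1)) (fun r => if r = b then 0 else 1)
    (fun r c => by
      by_cases hr : r = b
      · simp [hr]
      · simpa [hr, updateRow_ne hr] using hN r c)
  have e : ∑ r : n, (if r = b then 0 else 1) = Fintype.card n - 1 := by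
    rw [← Finset.add_sum_erase _ _ (Finset.mem_univ b), if_pos rfl, zero_add,
      Finset.sum_congr rfl fun r hr => if_neg (Finset.ne_of_mem_erase hr)]
    simp
  rwa [e] at this

lemma adj_mem_minor {r c T : Type} [Fintype T] [DecidableEq T] (I : Ideal R) (G : Matrix r c R)
    (k : ℕ) (hI : ∀ (p : Fin k → r) (q : Fin k → c), (G.submatrix p q).det ∈ I)
    (hT : Fintype.card T = k + 1) (p : T → r) (q : T → c) (a b : T) :
    (G.submatrix p q).adjugate a b ∈ I := by
  let η : Fin (k + 1) ≃ T := (Fintype.equivFinOfCardEq hT).symm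
  obtain ⟨a, rfl⟩ := η.surjective a
  obtain ⟨b, rfl⟩ := η.surjective b
  have := congrFun (congrFun (adjugate_submatrix_equiv_self η (G.submatrix p q)) a) b
  rw [submatrix_apply] at this
  rw [← this, adjugate_fin_succ_eq_det_submatrix]
  exact Ideal.mul_mem_left _ _ (hI _ _)

variable [Algebra ℂ R]

lemma der_det_row {n : Type} [Fintype n] [DecidableEq n] (D : Derivation ℂ R R) (N : Matrix n n R) :
    D N.det = ∑ r, (N.updateRow r fun i => D (N r i)).det := by
  rw [der_det, Finset.sum_comm]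
  refine Finset.sum_congr rfl fun r _ => ?_
  rw [← cramer_transpose_apply, cramer_eq_adjugate_mulVec, ← adjugate_transpose]
  rfl

lemma der_minor {r c : Type} [DecidableEq r] (I : Ideal R) (G : Matrix r c R) (k : ℕ)
    (hI : ∀ (p : Fin k → r) (q : Fin k → c), (G.submatrix p q).det ∈ I) (D : Derivation ℂ R R)
    (a b : r) (hD : ∀ i j, D (G i j) = if i = a then G b j else 0) (p : Fin k → r) (q : Fin k → c) :
    D (G.submatrix p q).det ∈ I := by
  rw [der_det_row]
  refine Submodule.sum_mem _ fun i _ => ?_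
  by_cases h : p i = a
  · have : (G.submatrix p q).updateRow i (fun j => D (G.submatrix p q i j)) =
        G.submatrix (Function.update p i b) q := by
      ext i' j
      by_cases hi : i' = i
      · subst hi; simp [hD, h]
      · simp [hi]
    rw [this]; exact hI _ _
  · rw [det_eq_zero_of_row_eq_zero i]
    · exact zero_mem _
    · intro j; simp [hD, h]

lemma der_adj {T : Type} [Fintype T] [DecidableEq T] (D : Derivation ℂ R R) (Y : Matrix T T R)
    (hY : IsUnit Y.det) (a : T) (v : T → R)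
    (hD : ∀ r s, D (Y r s) = if r = a then ∑ t, v t * Y t s else 0) (f e : T) :
    D (Y.adjugate f e) = v a * Y.adjugate f e - Y.adjugate f a * v e := by
  have h0 : ∀ r s, ∑ t, Y r t * Y.adjugate t s = if r = s then Y.det else 0 := fun r s => by
    have := congrFun (congrFun (mul_adjugate Y) r) s
    simpa [mul_apply, one_apply] using this
  have h1 : D Y.det = v a * Y.det := by
    rw [der_det]
    simp only [hD, mul_ite, mul_zero, Finset.sum_ite_eq', Finset.mem_univ, if_true, Finset.mul_sum]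
    rw [Finset.sum_comm]
    have : ∀ t, ∑ i, Y.adjugate i a * (v t * Y t i) = v t * if t = a then Y.det else 0 := fun t => by
      rw [← h0, Finset.mul_sum]
      exact Finset.sum_congr rfl fun i _ => by ring
    simp [this]
  let M₁ : Matrix T T R := Matrix.of fun f e => D (Y.adjugate f e)
  let M₂ : Matrix T T R := Matrix.of fun f e => v a * Y.adjugate f e - Y.adjugate f a * v e
  have h2 : M₁ * Y = M₂ * Y := by
    ext f s
    have h3 := congrFun (congrFun (adjugate_mul Y) f) s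
    have h4 := congrArg D h3
    rw [mul_apply] at h3
    rw [mul_apply, map_sum] at h4
    simp only [Derivation.leibniz, hD, smul_eq_mul, mul_ite, mul_zero, Finset.sum_add_distrib,
      Finset.sum_ite_eq', Finset.mem_univ, if_true, Matrix.smul_apply, one_apply, mul_one] at h3 h4
    simp only [mul_apply, M₁, M₂, of_apply, sub_mul, Finset.sum_sub_distrib, mul_assoc,
      ← Finset.mul_sum, h3, mul_comm (D _)]
    rw [eq_sub_iff_add_eq', h4]
    split_ifs <;> simp [h1]
  have h5 : M₁ = M₂ := by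
    have := congrArg (· * Y⁻¹) h2
    simpa only [Matrix.mul_assoc, mul_nonsing_inv Y hY, Matrix.mul_one] using this
  exact congrFun (congrFun h5 f) e

end minors

section step

variable {A : Type} [CommRing A] {α ρ : Type} [Fintype α] [DecidableEq α] [Fintype ρ]
  [DecidableEq ρ]

lemma det_stepM (B : Matrix α α A) (Q : Matrix α ρ A) (P : Matrix ρ α A) (Z : Matrix ρ ρ A) :
    (stepM B Q P Z).det = B.det * Z.det := by
  have : stepM B Q P Z = fromBlocks 1 0 P 1 * fromBlocks B (B * Q) 0 Z := by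
    simp [stepM, fromBlocks_multiply, Matrix.mul_assoc, add_comm]
  rw [this, det_mul, det_fromBlocks_zero₁₂, det_fromBlocks_zero₂₁]
  simp

lemma inv_stepM (B : Matrix α α A) (Q : Matrix α ρ A) (P : Matrix ρ α A) (Z : Matrix ρ ρ A)
    (hB : IsUnit B.det) (hZ : IsUnit Z.det) :
    (stepM B Q P Z)⁻¹ = fromBlocks (B⁻¹ + Q * Z⁻¹ * P) (-(Q * Z⁻¹)) (-(Z⁻¹ * P)) Z⁻¹ := by
  apply inv_eq_right_inv
  rw [stepM, fromBlocks_multiply, ← fromBlocks_one]
  have h1 := mul_nonsing_inv B hB
  have h2 := mul_nonsing_inv Z hZ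
  have h3 : ∀ {n : Type} (W : Matrix ρ n A), Z * (Z⁻¹ * W) = W := fun W => by
    rw [← Matrix.mul_assoc, h2, Matrix.one_mul]
  congr 1 <;>
  simp [Matrix.mul_add, Matrix.add_mul, Matrix.mul_assoc, h1, h2, h3]

lemma adj_eq_smul_inv {n : Type} [Fintype n] [DecidableEq n] (Y : Matrix n n A) (hY : IsUnit Y.det) :
    Y.adjugate = Y.det • Y⁻¹ := by
  rw [inv_def, smul_smul, Ring.mul_inverse_cancel _ hY, one_smul]

end step

section lowrank

variable {A : Type} [CommRing A] [Algebra ℂ A] {E : Derivation ℂ A A}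

/-- All entries have degree at least `d`. -/
def Ent (E : Derivation ℂ A A) (d : ℤ) {r c : Type} (M : Matrix r c A) : Prop :=
  ∀ i j, M i j ∈ Nn E d

lemma Ent.mul {d d' : ℤ} {r c n : Type} [Fintype n] {M : Matrix r n A} {N : Matrix n c A}
    (h : Ent E d M) (h' : Ent E d' N) : Ent E (d + d') (M * N) := fun i j => by
  rw [mul_apply]; exact Submodule.sum_mem _ fun t _ => Nn.mul (h i t) (h' t j)

lemma Ent.mul0 {d : ℤ} {r c n : Type} [Fintype n] {M : Matrix r n A} {N : Matrix n c A}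
    (h : Ent E 0 M) (h' : Ent E d N) : Ent E d (M * N) := by simpa using h.mul h'

lemma Ent.mul0' {d : ℤ} {r c n : Type} [Fintype n] {M : Matrix r n A} {N : Matrix n c A}
    (h : Ent E d M) (h' : Ent E 0 N) : Ent E d (M * N) := by simpa using h.mul h'

lemma Ent.add {d : ℤ} {r c : Type} {M N : Matrix r c A} (h : Ent E d M) (h' : Ent E d N) :
    Ent E d (M + N) := fun i j => add_mem (h i j) (h' i j)

lemma Ent.zero {d : ℤ} {r c : Type} : Ent E d (0 : Matrix r c A) := fun _ _ => zero_mem _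

lemma Ent.one {r : Type} [DecidableEq r] : Ent E 0 (1 : Matrix r r A) := fun i j => by
  rw [one_apply]; split_ifs; exacts [Nn.one, zero_mem _]

lemma Ent.mono {d d' : ℤ} (hd : d ≤ d') {r c : Type} {M : Matrix r c A} (h : Ent E d' M) :
    Ent E d M := fun i j => Nn.mono hd (h i j)

lemma Ent.blocks {d : ℤ} {r c r' c' : Type} {M : Matrix r c A} {N : Matrix r c' A}
    {M' : Matrix r' c A} {N' : Matrix r' c' A} (h1 : Ent E d M) (h2 : Ent E d N) (h3 : Ent E d M')
    (h4 : Ent E d N') : Ent E d (fromBlocks M N M' N') := by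
  rintro (i | i) (j | j)
  exacts [h1 i j, h2 i j, h3 i j, h4 i j]

lemma Ent.step {d : ℤ} {α ρ γ : Type} [Fintype α] {B : Matrix α α A} {Q : Matrix α γ A}
    {P : Matrix ρ α A} {Z : Matrix ρ γ A} (hB : Ent E d B) (hQ : Ent E 0 Q) (hP : Ent E 0 P)
    (hZ : Ent E d Z) : Ent E d (stepM B Q P Z) :=
  Ent.blocks hB (hB.mul0' hQ) (hP.mul0 hB) (hZ.add ((hP.mul0 hB).mul0' hQ))

/-- A matrix of rank at most `n` up to terms of positive degree. -/
def LR (E : Derivation ℂ A A) (n : ℕ) {r c : Type} (M : Matrix r c A) : Prop :=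
  ∃ (κ : Type) (_ : Fintype κ) (_ : DecidableEq κ) (U : Matrix r κ A) (V : Matrix κ c A)
    (Z : Matrix r c A), Fintype.card κ = n ∧ Ent E 0 U ∧ Ent E 0 V ∧ Ent E 1 Z ∧ M = U * V + Z

lemma LR.zero {r c : Type} {M : Matrix r c A} (h : Ent E 1 M) : LR E 0 M :=
  ⟨Empty, inferInstance, inferInstance, 0, 0, M, by simp, Ent.zero, Ent.zero, h, by simp⟩

lemma LR.step1 {n : ℕ} {α ρ γ : Type} [Fintype α] [DecidableEq α] {B : Matrix α α A}
    {Q : Matrix α γ A} {P : Matrix ρ α A} {Z : Matrix ρ γ A} (hB : Ent E 0 B) (hQ : Ent E 0 Q)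
    (hP : Ent E 0 P) (hZ : LR E n Z) : LR E (Fintype.card α + n) (stepM B Q P Z) := by
  obtain ⟨κ, _, _, U, V, W, hn, hU, hV, hW, rfl⟩ := hZ
  refine ⟨α ⊕ κ, inferInstance, inferInstance, fromBlocks 1 0 P U, fromBlocks B (B * Q) 0 V,
    fromBlocks 0 0 0 W, by simp [hn], Ent.blocks Ent.one Ent.zero hP hU,
    Ent.blocks hB (hB.mul0 hQ) Ent.zero hV, Ent.blocks Ent.zero Ent.zero Ent.zero hW, ?_⟩
  simp only [stepM, fromBlocks_multiply, fromBlocks_add, Matrix.mul_assoc, Matrix.one_mul,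
    Matrix.zero_mul, Matrix.mul_zero, add_zero]
  rw [add_comm (U * V + W), add_assoc]

lemma LR.step2 {n : ℕ} {α ρ γ : Type} [Fintype α] {B : Matrix α α A}
    {Q : Matrix α γ A} {P : Matrix ρ α A} {Z : Matrix ρ γ A} (hB : LR E n B) (hQ : Ent E 0 Q)
    (hP : Ent E 0 P) (hZ : Ent E 1 Z) : LR E n (stepM B Q P Z) := by
  obtain ⟨κ, _, _, U, V, W, hn, hU, hV, hW, rfl⟩ := hB
  refine ⟨κ, inferInstance, inferInstance, fromRows U (P * U), fromCols V (V * Q),
    stepM W Q P Z, hn, ?_, ?_, hW.step hQ hP hZ, ?_⟩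
  · rintro (i | i) j
    exacts [hU i j, (hP.mul0 hU) i j]
  · rintro i (j | j)
    exacts [hV i j, (hV.mul0 hQ) i j]
  · simp only [stepM, fromRows_mul_fromCols, fromBlocks_add, Matrix.mul_assoc, Matrix.mul_add,
      Matrix.add_mul]
    congr 1
    abel

lemma LR.det {n : ℕ} {r c : Type} {M : Matrix r c A} (h : LR E n M) {k : ℕ} (p : Fin k → r)
    (q : Fin k → c) : (M.submatrix p q).det ∈ Nn E (k - n) := by
  obtain ⟨κ, _, _, U, V, W, hn, hU, hV, hW, rfl⟩ := h
  have h1 : ((U * V + W).submatrix p q).det =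
      (fromBlocks 1 (-V.submatrix id q) (U.submatrix p id) (W.submatrix p q)).det := by
    rw [det_fromBlocks_one₁₁]
    congr 1
    ext i j
    simp [mul_apply, add_comm]
  rw [h1, det_apply']
  refine Submodule.sum_mem _ fun s _ => ?_
  have hs : ((Equiv.Perm.sign s : ℤ) : A) ∈ Nn E 0 := Nn.of le_rfl (by simp)
  refine Nn.mul0 hs (Nn.mono ?_ (Nn.prod Finset.univ
    (fun i => if (s i).isRight ∧ i.isRight then 1 else 0) _ fun i _ => ?_))
  · rw [Fintype.sum_sum_type]
    simp only [Sum.isRight_inl, Bool.false_eq_true, and_false, if_false, Finset.sum_const_zero,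
      zero_add, Sum.isRight_inr, and_true, Finset.sum_boole]
    have c1 := Finset.card_filter_add_card_filter_not (s := (Finset.univ : Finset (Fin k)))
      fun i => (s (Sum.inr i)).isRight
    have c2 : (Finset.univ.filter fun i : Fin k => ¬(s (Sum.inr i)).isRight).card ≤
        (Finset.univ.image (Sum.inl : κ → κ ⊕ Fin k)).card := by
      refine Finset.card_le_card_of_injOn (fun i => s (Sum.inr i)) (fun i hi => ?_) ?_
      · rcases hsi : s (Sum.inr i) with a | a
        · simp [hsi]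
        · simp [hsi] at hi
      · intro i _ j _ hij
        simpa using hij
    rw [Finset.card_image_of_injective _ Sum.inl_injective, Finset.card_univ, hn] at c2
    rw [Finset.card_univ, Fintype.card_fin] at c1
    omega
  · rcases i with i | i <;> rcases s _ with j | j
    · simpa using (Ent.one (E := E)) j i
    · simpa using hU _ _
    · simpa using hV _ _
    · simpa using hW _ _

end lowrank

section euler

variable {ι A : Type} [Fintype ι] [DecidableEq ι] [CommRing A] [Algebra ℂ A]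

lemma dl_det {κ : Type} [Fintype κ] [DecidableEq κ] (E : Derivation ℂ A A) (Y : Matrix κ κ A)
    (c : ℤ) (hY : ∀ a b, E (Y a b) = (c : ℂ) • Y a b) (u : Aˣ) (hu : (u : A) = Y.det) :
    dl E u = algebraMap ℂ A ((c * Fintype.card κ : ℤ) : ℂ) := by
  have h0 : ∀ i, ∑ r, Y.adjugate i r * Y r i = Y.det := fun i => by
    have := congrFun (congrFun (adjugate_mul Y) i) i
    simpa [mul_apply] using this
  rw [dl, hu, der_det]
  simp only [hY, mul_smul_comm, ← Finset.smul_sum, h0, Finset.sum_const, ← hu, Finset.card_univ,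
    nsmul_eq_mul]
  rw [mul_left_comm, u.inv_mul, Algebra.smul_def]
  simp

lemma exists_euler {y : ι → A} {Λ : A →ₗ[ℂ] ℂ} (W : Aˣ) (h : Fr y (Λ ∘ₗ LinearMap.mulLeft ℂ (W : A)))
    (w : ι → ℤ) : ∃ E : Derivation ℂ A A, (∀ i, E (y i) = (w i : ℂ) • y i) ∧
      (dl E W = algebraMap ℂ A ((∑ i, w i : ℤ) : ℂ) → ∀ g, Λ (E g) = 0) := by
  obtain ⟨ξ, hξ, hΛ⟩ := h
  have hE : ∀ g, (∑ i, ((w i : ℂ) • y i) • ξ i) g = ∑ i, (w i : ℂ) • (y i * ξ i g) := fun g => by
    simp [der_sum_apply]
  refine ⟨∑ i, ((w i : ℂ) • y i) • ξ i, fun i => ?_, fun hW g => ?_⟩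
  · rw [hE]; simp [hξ]
  · set E := ∑ i, ((w i : ℂ) • y i) • ξ i
    have h1 : ∀ g, Λ (W * E g) = -((∑ i, w i : ℤ) : ℂ) * Λ (W * g) := by
      intro g
      rw [hE, Finset.mul_sum, map_sum]
      push_cast
      rw [neg_mul, Finset.sum_mul, ← Finset.sum_neg_distrib]
      refine Finset.sum_congr rfl fun i _ => ?_
      have := ibp _ _ (hΛ i) (y i) g
      simp only [LinearMap.comp_apply, LinearMap.mulLeft_apply, hξ, if_true, one_mul] at this
      rw [mul_smul_comm, map_smul, this, smul_eq_mul, mul_neg]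
    have h2 := h1 (↑W⁻¹ * g)
    rw [Derivation.leibniz, der_unit, dl_inv, hW] at h2
    simp only [smul_eq_mul, mul_add, map_add, ← mul_assoc, Units.mul_inv, one_mul] at h2
    have h3 : W * g * ↑W⁻¹ * -algebraMap ℂ A ((∑ i, w i : ℤ) : ℂ) =
        (-((∑ i, w i : ℤ) : ℂ)) • g := by
      rw [Algebra.smul_def, map_neg]
      linear_combination (g * -algebraMap ℂ A ((∑ i, w i : ℤ) : ℂ)) * W.mul_inv
    rw [h3, map_smul, smul_eq_mul] at h2
    linear_combination h2

end euler

end Pool.Agent.MP_ee8c61_ag.H10
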