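import Mathlib
import Pool.Agent.MP_ee8c61_ag.H10.Alg

/-! The exponents for two exceptional divisors that meet. -/

namespace Pool.Agent.MP_ee8c61_ag.H10

open Polynomial

variable {σ κ U A : Type} [Fintype κ] [Fintype U] [CommRing A] [Algebra ℂ A]

theorem pair_abs (f : κ → MvPolynomial σ ℂ) (bf : ℂ[X]) (hb : IsBS f bf)
    (φ : MvPolynomial σ ℂ →ₐ[ℂ] A) (δ : σ → Derivation ℂ A A)
    (hδ : ∀ i p, δ i (φ p) = φ (MvPolynomial.pderiv i p)) (Λ : A →ₗ[ℂ] ℂ)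
    (hΛ : ∀ i a, Λ (δ i a) = 0) (u₀ u₁ u₂ : Aˣ) (v : U → Aˣ) (z : U → ℕ) (a b g r c : ℕ)
    (hb0 : 0 < b) (hg0 : 0 < g) (hz : ∑ i, z i = r * c) (h : Aˣ)
    (hh : h = u₀ ^ (g + 2) * u₁ ^ (g + 1) * u₂ ^ g)
    (g₀ : MvPolynomial σ ℂ) (hg₀ : g₀ ∈ Ideal.span (Set.range f) ^ (g + 1)) (hφ : φ g₀ = h)
    (m₀ : InG φ (Ideal.span (Set.range f)) h (g + 1) 0 u₀)
    (m₁ : InG φ (Ideal.span (Set.range f)) h (g + 1) 0 (u₀ * u₁ : Aˣ))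
    (m₂ : InG φ (Ideal.span (Set.range f)) h (g + 1) b ((u₀ * u₁ * u₂) ^ b * u₁⁻¹ : Aˣ))
    (m₃ : ∀ i, InG φ (Ideal.span (Set.range f)) h (g + 1) (-z i)
      (v i * (u₀ * u₁ * u₂)⁻¹ ^ z i : Aˣ))
    (Ψ : Aˣ) (hΨ : Ψ⁻¹ = (u₀ ^ a * u₁ ^ b * u₂ ^ (g + 1) * ∏ i, v i) * u₁ ^ (g + 1 + (g + 1)) *
      u₀ ^ (b + (g + 1) + (b + (g + 1))) * (u₀ * u₁ * u₂) ^ (r + c)) (hΨ0 : Λ Ψ ≠ 0)
    (E : Fin 2 → Derivation ℂ A A) (hE : ∀ t x, Λ (Ψ * E t x) = 0)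
    (hx : ∀ t i, φ (MvPolynomial.X i) ∈ Nn (E t) 0)
    (hf : ∀ t j, φ (f j) ∈ Nn (E t) (![(b : ℤ) + g, g] t))
    (e₀ : ∀ t, dl (E t) u₀ = 0) (e₁ : ∀ t, dl (E t) u₁ = algebraMap ℂ A (![(b : ℂ), 0] t))
    (e₂ : ∀ t, dl (E t) u₂ = algebraMap ℂ A (g + 1))
    (e₃ : ∀ t i, dl (E t) (v i) = algebraMap ℂ A (z i)) :
    (C ((b : ℂ) + g) * X + C (((b : ℂ) + g + 1 + r) * (b + g + 1 + c))) *
      (C (g : ℂ) * X + C (((g : ℂ) + 1 + r) * (g + 1 + c))) ∣ bf := by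
  have hb' : (b : ℂ) ≠ 0 := by exact_mod_cast hb0.ne'
  have hz' : ∑ i, (z i : ℂ) = r * c := by exact_mod_cast hz
  let p₂ : ℂ[X] := C (-(b : ℂ)⁻¹) * (C (g : ℂ) * X + C (((g : ℂ) + 1 + r) * (g + 1 + c)))
  let p₁ : ℂ[X] :=
    C (-(b : ℂ)⁻¹) * (C ((b : ℂ) + g) * X + C (((b : ℂ) + g + 1 + r) * (b + g + 1 + c)))
  let ph : ℂ[X] := X + C ((g : ℂ) + 1 + r + c)
  let p₀ : ℂ[X] := C (-((a : ℂ) + 2 * b + 2 * (g + 1) + r + c) - r * c) - p₁ - C (b : ℂ) * p₂ -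
    C ((g : ℂ) + 2) * ph
  have key := crit2 f bf hb φ δ hδ Λ hΛ h (g + 1) g₀ hg₀ hφ
    (Sum.elim ![u₀, u₀ * u₁, (u₀ * u₁ * u₂) ^ b * u₁⁻¹] fun i => v i * (u₀ * u₁ * u₂)⁻¹ ^ z i)
    (Sum.elim ![0, 0, (b : ℤ)] fun i => -z i) ?_ Ψ hΨ0 (Sum.elim ![p₀, p₁, p₂] fun _ => -1) ph ?_ ?_
    E ![(b : ℤ) + g, g] ?_ ![Sum.inl 1, Sum.inl 2] ?_ hE hx hf ?_ ?_
  · rw [Fin.prod_univ_two] at key
    refine Dvd.dvd.trans ⟨C (-(b : ℂ)⁻¹) * C (-(b : ℂ)⁻¹), ?_⟩ key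
    simp only [p₁, p₂, Matrix.cons_val_zero, Matrix.cons_val_one, Sum.elim_inl, Matrix.cons_val]
    ring
  · rintro (l | i)
    · fin_cases l
      exacts [m₀, m₁, m₂]
    · exact m₃ i
  · apply Polynomial.funext
    intro s
    simp [Fintype.sum_sum_type, Fin.sum_univ_three, p₂, ph, eval_finsetSum, hz']
    field_simp
    ring
  · intro i s
    rw [der_unit]
    congr 1
    have h1 : dl (δ i) Ψ = -dl (δ i) Ψ⁻¹ := by rw [dl_inv, neg_neg]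
    have h2 : ∑ j, (z j : ℂ) • -(dl (δ i) u₀ + dl (δ i) u₁ + dl (δ i) u₂) =
        ((r : ℂ) * c) • -(dl (δ i) u₀ + dl (δ i) u₁ + dl (δ i) u₂) := by
      rw [← Finset.sum_smul, hz']
    rw [h1, hΨ, hh]
    simp only [Fintype.sum_sum_type, Fin.sum_univ_three, Sum.elim_inl, Sum.elim_inr,
      Matrix.cons_val_zero, Matrix.cons_val_one, Matrix.cons_val, dl_mul, dl_pow, dl_inv, dl_prod,
      eval_neg, eval_one, neg_smul, one_smul, Finset.sum_neg_distrib, Finset.sum_add_distrib, h2,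
      p₀, p₁, p₂, ph, eval_sub, eval_mul, eval_add, eval_C, eval_X]
    match_scalars <;> field_simp <;> ring
  · intro t
    fin_cases t <;> simp <;> omega
  · intro t t' h
    fin_cases t <;> fin_cases t' <;> simp_all
  · intro t
    simp only [hh, dl_mul, dl_pow, e₀, e₁, e₂, Algebra.smul_def, ← map_mul, ← map_add, mul_zero,
      zero_add]
    congr 1
    fin_cases t <;> simp <;> ring
  · rintro t (l | i) hl
    · fin_cases t <;> fin_cases l <;>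
      simp_all [dl_mul, dl_pow, dl_inv, Algebra.smul_def]
      ring
    · simp only [Sum.elim_inr, dl_mul, dl_pow, dl_inv, e₀, e₁, e₂, e₃, Algebra.smul_def, ← map_mul,
        ← map_add, ← map_neg, zero_add]
      congr 1
      fin_cases t <;> simp <;> ring

theorem single_abs (f : κ → MvPolynomial σ ℂ) (bf : ℂ[X]) (hb : IsBS f bf)
    (φ : MvPolynomial σ ℂ →ₐ[ℂ] A) (δ : σ → Derivation ℂ A A)
    (hδ : ∀ i p, δ i (φ p) = φ (MvPolynomial.pderiv i p)) (Λ : A →ₗ[ℂ] ℂ)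
    (hΛ : ∀ i a, Λ (δ i a) = 0) (u₀ u₁ u₂ : Aˣ) (v : U → Aˣ) (z : U → ℕ) (a b g r c : ℕ)
    (hg0 : 0 < g) (hz : ∑ i, z i = r * c) (h : Aˣ)
    (hh : h = u₀ ^ (g + 2) * u₁ ^ (g + 1) * u₂ ^ g)
    (g₀ : MvPolynomial σ ℂ) (hg₀ : g₀ ∈ Ideal.span (Set.range f) ^ (g + 1)) (hφ : φ g₀ = h)
    (m₀ : InG φ (Ideal.span (Set.range f)) h (g + 1) 0 u₀)
    (m₁ : InG φ (Ideal.span (Set.range f)) h (g + 1) 0 (u₀ * u₁ : Aˣ))
    (m₂ : InG φ (Ideal.span (Set.range f)) h (g + 1) 0 (u₀ * u₁ * u₂ : Aˣ))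
    (m₃ : ∀ i, InG φ (Ideal.span (Set.range f)) h (g + 1) (-z i)
      (v i * (u₀ * u₁ * u₂)⁻¹ ^ z i : Aˣ))
    (Ψ : Aˣ) (hΨ : Ψ⁻¹ = (u₀ ^ a * u₁ ^ b * u₂ ^ (g + 1) * ∏ i, v i) * u₁ ^ (g + 1 + (g + 1)) *
      u₀ ^ (b + (g + 1) + (b + (g + 1))) * (u₀ * u₁ * u₂) ^ (r + c)) (hΨ0 : Λ Ψ ≠ 0)
    (E : Derivation ℂ A A) (hE : ∀ x, Λ (Ψ * E x) = 0)
    (hx : ∀ i, φ (MvPolynomial.X i) ∈ Nn E 0) (hf : ∀ j, φ (f j) ∈ Nn E g)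
    (e₀ : dl E u₀ = 0) (e₁ : dl E u₁ = 0) (e₂ : dl E u₂ = algebraMap ℂ A (g + 1))
    (e₃ : ∀ i, dl E (v i) = algebraMap ℂ A (z i)) :
    C (g : ℂ) * X + C (((g : ℂ) + 1 + r) * (g + 1 + c)) ∣ bf := by
  have hg' : (g : ℂ) + 1 ≠ 0 := by exact_mod_cast g.succ_ne_zero
  have hz' : ∑ i, (z i : ℂ) = r * c := by exact_mod_cast hz
  let p₂ : ℂ[X] := C (-((g : ℂ) + 1)⁻¹) * (C (g : ℂ) * X + C (((g : ℂ) + 1 + r) * (g + 1 + c)))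
  let ph : ℂ[X] := C ((g : ℂ) + 1)⁻¹ * (X - C ((r : ℂ) * c))
  let p₁ : ℂ[X] := C (-((b : ℂ) + 2 * (g + 1) + r + c)) - p₂ - X
  let p₀ : ℂ[X] := C (-((a : ℂ) + b)) - ph
  have key := crit2 f bf hb φ δ hδ Λ hΛ h (g + 1) g₀ hg₀ hφ
    (Sum.elim ![u₀, u₀ * u₁, u₀ * u₁ * u₂] fun i => v i * (u₀ * u₁ * u₂)⁻¹ ^ z i)
    (Sum.elim ![0, 0, 0] fun i => -z i) ?_ Ψ hΨ0 (Sum.elim ![p₀, p₁, p₂] fun _ => -1) ph ?_ ?_
    (fun _ : Unit => E) (fun _ => g) (fun _ => by exact_mod_cast hg0) (fun _ => Sum.inl 2)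
    (fun _ _ _ => rfl) (fun _ => hE) (fun _ => hx) (fun _ => hf) ?_ ?_
  · rw [Fintype.prod_unique] at key
    exact Dvd.dvd.trans (Dvd.intro_left _ rfl) key
  · rintro (l | i)
    · fin_cases l
      exacts [m₀, m₁, m₂]
    · exact m₃ i
  · apply Polynomial.funext
    intro s
    simp [Fintype.sum_sum_type, Fin.sum_univ_three, ph, eval_finsetSum, hz']
    field_simp
    ring
  · intro i s
    rw [der_unit]
    congr 1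
    have h1 : dl (δ i) Ψ = -dl (δ i) Ψ⁻¹ := by rw [dl_inv, neg_neg]
    have h2 : ∑ j, (z j : ℂ) • -(dl (δ i) u₀ + dl (δ i) u₁ + dl (δ i) u₂) =
        ((r : ℂ) * c) • -(dl (δ i) u₀ + dl (δ i) u₁ + dl (δ i) u₂) := by
      rw [← Finset.sum_smul, hz']
    rw [h1, hΨ, hh]
    simp only [Fintype.sum_sum_type, Fin.sum_univ_three, Sum.elim_inl, Sum.elim_inr,
      Matrix.cons_val_zero, Matrix.cons_val_one, Matrix.cons_val, dl_mul, dl_pow, dl_inv, dl_prod,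
      eval_neg, eval_one, neg_smul, one_smul, Finset.sum_neg_distrib, Finset.sum_add_distrib, h2,
      p₀, p₁, p₂, ph, eval_sub, eval_mul, eval_add, eval_C, eval_X]
    match_scalars <;> field_simp <;> ring
  · intro t
    simp only [hh, dl_mul, dl_pow, e₀, e₁, e₂, Algebra.smul_def, ← map_mul, mul_zero, zero_add]
    congr 1
    push_cast
    ring
  · rintro t (l | i) hl
    · fin_cases l <;> simp_all [dl_mul]
    · simp only [Sum.elim_inr, dl_mul, dl_pow, dl_inv, e₀, e₁, e₂, e₃, Algebra.smul_def, ← map_mul,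
        ← map_add, ← map_neg, zero_add]
      congr 1
      push_cast
      ring

end Pool.Agent.MP_ee8c61_ag.H10
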