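import Mathlib
import Pool.Agent.MP_ee8c61_ag.H10.Pair

/-! The coordinates of the chart are quotients of elements of powers of the ideal. -/

namespace Pool.Agent.MP_ee8c61_ag.H10

open MvPolynomial Matrix

variable {σ κ A : Type} [CommRing A] [Algebra ℂ A] {φ : MvPolynomial σ ℂ →ₐ[ℂ] A}
  {I : Ideal (MvPolynomial σ ℂ)} {h : A} {M₀ : ℕ} {g₀ : MvPolynomial σ ℂ}

lemma exists_row (hg₀ : g₀ ∈ I ^ M₀) (hh : φ g₀ = h) [DecidableEq σ] (δ : σ → Derivation ℂ A A)
    (hδ : ∀ i p, δ i (φ p) = φ (pderiv i p)) {r c : Type} [DecidableEq r] [Fintype c]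
    (ε : r × c → σ) (hε : Function.Injective ε) (G : Matrix r c (MvPolynomial σ ℂ))
    (hG : ∀ i j, G i j = X (ε (i, j))) (k : ℕ)
    (hI : ∀ (p : Fin k → r) (q : Fin k → c), (G.submatrix p q).det ∈ I) (f : κ → MvPolynomial σ ℂ)
    (hIf : I = Ideal.span (Set.range f))
    (hf : ∀ j, ∃ (p : Fin k → r) (q : Fin k → c), f j = (G.submatrix p q).det) (a b : r) :
    ∃ D : Derivation ℂ A A, (∀ M w, InG φ I h M₀ M w → InG φ I h M₀ M (D w)) ∧
      ∀ i j, D (φ (G i j)) = if i = a then φ (G b j) else 0 := by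
  classical
  let D : Derivation ℂ (MvPolynomial σ ℂ) (MvPolynomial σ ℂ) := ∑ j, G b j • pderiv (ε (a, j))
  let D' : Derivation ℂ A A := ∑ j, φ (G b j) • δ (ε (a, j))
  have h1 : ∀ p, D' (φ p) = φ (D p) := fun p => by
    simp [D, D', der_sum_apply, hδ]
  have h2 : ∀ i j, D (G i j) = if i = a then G b j else 0 := fun i j => by
    simp only [D, der_sum_apply, Derivation.smul_apply, hG i j, pderiv_X, Pi.single_apply,
      hε.eq_iff, Prod.mk.injEq, smul_eq_mul, mul_ite, mul_one, mul_zero]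
    by_cases hi : i = a <;> simp [hi]
  refine ⟨D', fun M w hw => InG.der hg₀ hh D D' h1 (fun p hp => ?_) hw, fun i j => ?_⟩
  · rw [hIf] at hp
    induction hp using Submodule.span_induction with
    | mem x hx =>
      obtain ⟨j, rfl⟩ := hx
      obtain ⟨p, q, e⟩ := hf j
      rw [e]
      exact der_minor I G k hI D a b h2 p q
    | zero => simp
    | add x y _ _ hx hy => rw [map_add]; exact add_mem hx hy
    | smul s x hx' hx =>
      rw [smul_eq_mul, Derivation.leibniz, smul_eq_mul, smul_eq_mul]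
      exact add_mem (I.mul_mem_left _ hx) (I.mul_mem_right _ (hIf ▸ hx'))
  · rw [h1, h2]
    split_ifs <;> simp

lemma mem_vec (hg₀ : g₀ ∈ I ^ M₀) (hh : φ g₀ = h) {T γ : Type} [Fintype T] [DecidableEq T]
    [Fintype γ] [DecidableEq γ] [Nontrivial γ] (Y : Matrix T T A) (hY : IsUnit Y.det) (j : γ → T)
    (B' : Matrix γ γ A) (hB' : ∀ a b, InG φ I h M₀ (-1) (B' a b))
    (hBN : B' * Y.adjugate.submatrix j j = 1)
    (hadj : ∀ a b, InG φ I h M₀ 1 (Y.adjugate a b)) (v : T → A)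
    (hD : ∀ a, ∃ D : Derivation ℂ A A, (∀ M w, InG φ I h M₀ M w → InG φ I h M₀ M (D w)) ∧
      ∀ r s, D (Y r s) = if r = a then ∑ t, v t * Y t s else 0) (a : T) :
    InG φ I h M₀ 0 (v a) := by
  have h0 : ∀ e e', ∑ f, B' e f * Y.adjugate (j f) (j e') = if e = e' then 1 else 0 := fun e e' => by
    have := congrFun (congrFun hBN e) e'
    simpa [mul_apply, one_apply] using this
  have h1 : ∀ a e, InG φ I h M₀ 0 (v a - (∑ f, B' e f * Y.adjugate (j f) a) * v (j e)) := by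
    intro a e
    obtain ⟨D, hD1, hD2⟩ := hD a
    refine (InG.sum hg₀ hh (M := 0) Finset.univ Finset.univ_nonempty
      (fun f => B' e f * D (Y.adjugate (j f) (j e))) fun f _ =>
        ((hB' e f).mul (hD1 _ _ (hadj _ _))).cast (by simp) rfl).cast rfl ?_
    have := h0 e e
    rw [if_pos rfl] at this
    simp only [der_adj D Y hY a v hD2, mul_sub, Finset.sum_sub_distrib, Finset.sum_mul, mul_assoc,
      mul_left_comm (B' e _) (v a), ← Finset.mul_sum, this, mul_one]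
  have h2 : ∀ e, InG φ I h M₀ 0 (v (j e)) := fun e => by
    obtain ⟨e', he⟩ := exists_ne e
    have := h1 (j e) e'
    rwa [h0, if_neg he, zero_mul, sub_zero] at this
  obtain ⟨e⟩ : Nonempty γ := inferInstance
  have h3 : InG φ I h M₀ 0 ((∑ f, B' e f * Y.adjugate (j f) a) * v (j e)) :=
    ((InG.sum hg₀ hh (M := 0) Finset.univ Finset.univ_nonempty _ fun f _ =>
      ((hB' e f).mul (hadj _ _)).cast (by simp) rfl).mul (h2 e)).cast (by simp) rfl
  exact (InG.add hg₀ hh (h1 a e) h3).cast rfl (by ring)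

lemma InG.mmul (hg₀ : g₀ ∈ I ^ M₀) (hh : φ g₀ = h) {r c n : Type} [Fintype n] [Nonempty n]
    {M M' : ℤ} {P : Matrix r n A} {Q : Matrix n c A} (hP : ∀ a b, InG φ I h M₀ M (P a b))
    (hQ : ∀ a b, InG φ I h M₀ M' (Q a b)) (a : r) (b : c) :
    InG φ I h M₀ (M + M') ((P * Q) a b) :=
  InG.sum hg₀ hh Finset.univ Finset.univ_nonempty _ fun t _ => (hP a t).mul (hQ t b)

theorem mem_all [DecidableEq σ] {α β γ ρ τ : Type} [Fintype α] [DecidableEq α] [Fintype β]
    [DecidableEq β] [Fintype γ] [DecidableEq γ] [Nontrivial γ] [Fintype ρ] [DecidableEq ρ]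
    [Fintype τ] [DecidableEq τ] (δ : σ → Derivation ℂ A A)
    (hδ : ∀ i p, δ i (φ p) = φ (pderiv i p)) (ε : ((α ⊕ β ⊕ γ) ⊕ ρ) × ((α ⊕ β ⊕ γ) ⊕ τ) → σ)
    (hε : Function.Injective ε) (G : Matrix ((α ⊕ β ⊕ γ) ⊕ ρ) ((α ⊕ β ⊕ γ) ⊕ τ) (MvPolynomial σ ℂ))
    (hG : ∀ i j, G i j = X (ε (i, j))) (k : ℕ) (hk : Fintype.card (α ⊕ β ⊕ γ) = k + 1)
    (hI : ∀ (p : Fin k → _) (q : Fin k → _), (G.submatrix p q).det ∈ I) (f : κ → MvPolynomial σ ℂ)
    (hIf : I = Ideal.span (Set.range f))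
    (hf : ∀ j, ∃ (p : Fin k → _) (q : Fin k → _), f j = (G.submatrix p q).det)
    (A₀ : Matrix α α A) (Q₀ : Matrix α (β ⊕ γ) A) (P₀ : Matrix (β ⊕ γ) α A) (A₁ : Matrix β β A)
    (Q : Matrix β γ A) (P : Matrix γ β A) (B : Matrix γ γ A) (S : Matrix (α ⊕ β ⊕ γ) τ A)
    (R : Matrix ρ (α ⊕ β ⊕ γ) A) (Z : Matrix ρ τ A)
    (hφ : ∀ i j, φ (G i j) = stepM (stepM A₀ Q₀ P₀ (stepM A₁ Q P B)) S R Z i j)
    (u₀ u₁ u₂ : Aˣ) (h₀ : (u₀ : A) = A₀.det) (h₁ : (u₁ : A) = A₁.det) (h₂ : (u₂ : A) = B.det)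
    (g : ℕ) (hg : Fintype.card γ = g + 1) (h : Aˣ)
    (hh : h = u₀ ^ (g + 2) * u₁ ^ (g + 1) * u₂ ^ g) :
    ∃ g₀ ∈ I ^ (g + 1), φ g₀ = h ∧ InG φ I h (g + 1) 0 u₀ ∧ InG φ I h (g + 1) 0 (u₀ * u₁ : Aˣ) ∧
      InG φ I h (g + 1) (Fintype.card β) ((u₀ * u₁ * u₂) ^ Fintype.card β * u₁⁻¹ : Aˣ) ∧
      (∀ a b, InG φ I h (g + 1) 0 (Q₀ a b)) ∧ (∀ a b, InG φ I h (g + 1) 0 (P₀ a b)) ∧
      (∀ a b, InG φ I h (g + 1) 0 (Q a b)) ∧ (∀ a b, InG φ I h (g + 1) 0 (P a b)) ∧
      (∀ a b, InG φ I h (g + 1) 0 (S a b)) ∧ (∀ a b, InG φ I h (g + 1) 0 (R a b)) ∧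
      ∀ a b, InG φ I h (g + 1) (-1) (Z a b * ↑(u₀ * u₁ * u₂)⁻¹) := by
  set Y' := stepM A₁ Q P B with hY'
  set Y := stepM A₀ Q₀ P₀ Y' with hY
  set D := u₀ * u₁ * u₂ with hD
  have i₀ : IsUnit A₀.det := h₀ ▸ u₀.isUnit
  have i₁ : IsUnit A₁.det := h₁ ▸ u₁.isUnit
  have i₂ : IsUnit B.det := h₂ ▸ u₂.isUnit
  have d' : Y'.det = (u₁ * u₂ : Aˣ) := by rw [hY', det_stepM, Units.val_mul, h₁, h₂]
  have dY : Y.det = D := by
    rw [hY, det_stepM, d', hD, ← h₀, mul_assoc, Units.val_mul u₀]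
  have i' : IsUnit Y'.det := d' ▸ (u₁ * u₂).isUnit
  have iY : IsUnit Y.det := dY ▸ D.isUnit
  let GT := G.submatrix Sum.inl Sum.inl
  have hGT : φ.mapMatrix GT = Y := by
    ext i j
    simp [GT, hφ, stepM]
  have hadj : ∀ a b, φ (GT.adjugate a b) = Y.adjugate a b := fun a b => by
    rw [← hGT, ← AlgHom.map_adjugate]; rfl
  have hadjI : ∀ a b, GT.adjugate a b ∈ I := adj_mem_minor I G k hI hk _ _
  have madj : ∀ a b, InG φ I h (g + 1) 1 (Y.adjugate a b) := fun a b =>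
    (InG.of (n := 1) (by simpa using hadjI a b)).cast (by simp) (hadj a b)
  have hinv : ∀ a b, Y.adjugate (Sum.inr a) (Sum.inr b) = D *
      fromBlocks (A₁⁻¹ + Q * B⁻¹ * P) (-(Q * B⁻¹)) (-(B⁻¹ * P)) B⁻¹ a b := fun a b => by
    rw [adj_eq_smul_inv Y iY, dY, hY, inv_stepM _ _ _ _ i₀ i', hY', inv_stepM _ _ _ _ i₁ i₂]
    simp
  let j : γ → α ⊕ β ⊕ γ := fun a => Sum.inr (Sum.inr a)
  let jb : β → α ⊕ β ⊕ γ := fun a => Sum.inr (Sum.inl a)
  set N := Y.adjugate.submatrix j j with hN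
  have eN : N = (D : A) • B⁻¹ := by ext a b; simp [hN, j, hinv]
  let GN := GT.adjugate.submatrix j j
  have hGN : φ.mapMatrix GN = N := by ext a b; exact hadj _ _
  let GA := GT.submatrix Sum.inl Sum.inl
  have hGA : φ.mapMatrix GA = A₀ := by
    ext a b
    simp [GA, GT, hφ, stepM, hY]
  have dB : B⁻¹.det = ↑u₂⁻¹ := by
    rw [det_nonsing_inv, ← h₂, Ring.inverse_unit]
  have dN : N.det = ↑(u₀⁻¹ * h) := by
    rw [eN, det_smul, hg, dB, ← Units.val_pow_eq_pow_val, ← Units.val_mul, hh, hD]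
    congr 1
    rw [eq_inv_mul_iff_mul_eq, ← mul_assoc, mul_inv_eq_iff_eq_mul]
    simp only [mul_pow, pow_succ]
    ac_rfl
  have pN : φ GN.det = N.det := by rw [← hGN, AlgHom.map_det]
  have pA : φ GA.det = u₀ := by rw [h₀, ← hGA, AlgHom.map_det]
  have dI : GN.det ∈ I ^ (g + 1) := by
    simpa [hg] using det_mem_pow I GN (fun _ => 1) fun a b => by rw [pow_one]; exact hadjI _ _
  have hg₀ : GN.det * GA.det ∈ I ^ (g + 1) := Ideal.mul_mem_right _ _ dI
  have hφ₀ : φ (GN.det * GA.det) = h := by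
    rw [map_mul, pN, pA, dN, ← Units.val_mul, mul_comm, mul_inv_cancel_left]
  let B' : Matrix γ γ A := (↑D⁻¹ : A) • B
  have BN : B' * N = 1 := by
    rw [eN, Matrix.smul_mul, Matrix.mul_smul, mul_nonsing_inv B i₂, smul_smul, D.inv_mul, one_smul]
  have NB : N * B' = 1 := mul_eq_one_comm.1 BN
  have mB : ∀ a b, InG φ I h (g + 1) (-1) (B' a b) := fun a b => by
    refine ⟨1, g, by push_cast; ring, GN.adjugate a b * GA.det, Ideal.mul_mem_right _ _ ?_, ?_⟩
    · simpa [hg] using adj_mem_pow I GN (fun a b => hadjI _ _) a b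
    · have e1 : φ (GN.adjugate a b) = N.adjugate a b := by
        rw [← hGN, ← AlgHom.map_adjugate]; rfl
      rw [map_mul, pA, e1, adj_eq_smul_inv N (dN ▸ Units.isUnit _), inv_eq_left_inv BN, dN,
        Matrix.smul_apply, smul_eq_mul, Units.val_mul]
      linear_combination (B' a b * h) * u₀.inv_mul
  have mu : InG φ I h (g + 1) 0 ↑u₀⁻¹ :=
    ⟨1, g + 1, by simp, GN.det, dI, by rw [pN, dN]; simp⟩
  have mP : ∀ a b, InG φ I h (g + 1) 0 (P a b) := fun a b => by
    have e1 : B' * Y.adjugate.submatrix j jb = -P := by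
      have : Y.adjugate.submatrix j jb = -(N * P) := by
        ext a b; simp [j, jb, hinv, eN]
      rw [this, Matrix.mul_neg, ← Matrix.mul_assoc, BN, Matrix.one_mul]
    have := (InG.mmul hg₀ hφ₀ (Q := Y.adjugate.submatrix j jb) mB (fun a b => madj _ _) a b).neg
    rw [e1] at this
    simpa using this
  have mQ : ∀ a b, InG φ I h (g + 1) 0 (Q a b) := fun a b => by
    have e1 : Y.adjugate.submatrix jb j * B' = -Q := by
      have : Y.adjugate.submatrix jb j = -(Q * N) := by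
        ext a b; simp [j, jb, hinv, eN]
      rw [this, Matrix.neg_mul, Matrix.mul_assoc, NB, Matrix.mul_one]
    have := (InG.mmul hg₀ hφ₀ (P := Y.adjugate.submatrix jb j) (fun a b => madj _ _) mB a b).neg
    rw [e1] at this
    simpa using this
  have hAadj : φ.mapMatrix GA.adjugate = (u₀ : A) • A₀⁻¹ := by
    rw [AlgHom.map_adjugate, hGA, adj_eq_smul_inv _ i₀, h₀]
  have mP₀ : ∀ a b, InG φ I h (g + 1) 0 (P₀ a b) := fun a b => by
    have e1 : (GT.submatrix Sum.inr Sum.inl).map φ = P₀ * A₀ := by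
      ext a b
      simp [GT, hφ, stepM, hY]
    have e2 : (GT.submatrix Sum.inr Sum.inl * GA.adjugate).map φ = (u₀ : A) • P₀ := by
      rw [Matrix.map_mul, e1, ← AlgHom.mapMatrix_apply, hAadj, Matrix.mul_smul, Matrix.mul_assoc,
        mul_nonsing_inv _ i₀, Matrix.mul_one]
    have e3 := congrFun (congrFun e2 a) b
    rw [map_apply, Matrix.smul_apply, smul_eq_mul] at e3
    refine (mu.mul (InG.poly ((GT.submatrix Sum.inr Sum.inl * GA.adjugate) a b))).cast rfl ?_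
    rw [e3, ← mul_assoc, u₀.inv_mul, one_mul]
  have mQ₀ : ∀ a b, InG φ I h (g + 1) 0 (Q₀ a b) := fun a b => by
    have e1 : (GT.submatrix Sum.inl Sum.inr).map φ = A₀ * Q₀ := by
      ext a b
      simp [GT, hφ, stepM, hY]
    have e2 : (GA.adjugate * GT.submatrix Sum.inl Sum.inr).map φ = (u₀ : A) • Q₀ := by
      rw [Matrix.map_mul, e1, ← AlgHom.mapMatrix_apply, hAadj, Matrix.smul_mul, ← Matrix.mul_assoc,
        nonsing_inv_mul _ i₀, Matrix.one_mul]
    have e3 := congrFun (congrFun e2 a) b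
    rw [map_apply, Matrix.smul_apply, smul_eq_mul] at e3
    refine (mu.mul (InG.poly ((GA.adjugate * GT.submatrix Sum.inl Sum.inr) a b))).cast rfl ?_
    rw [e3, ← mul_assoc, u₀.inv_mul, one_mul]
  have hrow := exists_row hg₀ hφ₀ δ hδ ε hε G hG k hI f hIf hf
  have hcol := exists_row hg₀ hφ₀ δ hδ (ε ∘ Prod.swap) (hε.comp Prod.swap_injective) Gᵀ
    (fun i j => hG j i) k (fun p q => by rw [← det_transpose]; exact hI q p) f hIf (fun j => by
      obtain ⟨p, q, e⟩ := hf j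
      exact ⟨q, p, by rw [e, ← det_transpose]; rfl⟩)
  have eY : ∀ a b, φ (G (Sum.inl a) (Sum.inl b)) = Y a b := fun a b => by rw [hφ]; rfl
  have eR : ∀ a b, φ (G (Sum.inr a) (Sum.inl b)) = (R * Y) a b := fun a b => by rw [hφ]; rfl
  have eS : ∀ a b, φ (G (Sum.inl a) (Sum.inr b)) = (Y * S) a b := fun a b => by rw [hφ]; rfl
  have eZ : ∀ a b, φ (G (Sum.inr a) (Sum.inr b)) = (Z + R * Y * S) a b := fun a b => by
    rw [hφ]; rfl
  have mR : ∀ a b, InG φ I h (g + 1) 0 (R a b) := fun c =>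
    mem_vec hg₀ hφ₀ Y iY j B' mB BN madj (R c) fun a => by
      obtain ⟨D, h1, h2⟩ := hrow (Sum.inl a) (Sum.inr c)
      refine ⟨D, h1, fun r s => ?_⟩
      rw [← eY, h2, eR, mul_apply]
      simp
  have mS : ∀ a b, InG φ I h (g + 1) 0 (S a b) := fun a d =>
    mem_vec hg₀ hφ₀ Yᵀ (by rwa [det_transpose]) j B'ᵀ (fun a b => mB b a)
      (by rw [← adjugate_transpose, ← transpose_submatrix, ← transpose_mul, NB, transpose_one])
      (fun a b => by rw [← adjugate_transpose]; exact madj b a) (fun t => S t d) (fun a => by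
        obtain ⟨D, h1, h2⟩ := hcol (Sum.inl a) (Sum.inr d)
        refine ⟨D, h1, fun r s => ?_⟩
        have := h2 (Sum.inl r) (Sum.inl s)
        rw [transpose_apply, transpose_apply, eY, eS, mul_apply] at this
        simpa [mul_comm] using this) a
  refine ⟨_, hg₀, hφ₀, (InG.poly GA.det).cast rfl pA, ?_, ?_, mQ₀, mP₀, mQ, mP, mS, mR, ?_⟩
  · let jj : α ⊕ β → α ⊕ β ⊕ γ := Sum.map id Sum.inl
    refine (InG.poly (GT.submatrix jj jj).det).cast rfl ?_
    have : φ.mapMatrix (GT.submatrix jj jj) =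
        stepM A₀ (Q₀.submatrix id Sum.inl) (P₀.submatrix Sum.inl id) A₁ := by
      ext (a | a) (b | b) <;> simp [GT, jj, hφ, stepM, hY, hY', mul_apply]
    rw [AlgHom.map_det, this, det_stepM, Units.val_mul, h₀, h₁]
  · have e1 : Y.adjugate.submatrix jb jb + -(Q * N * P) = (D : A) • A₁⁻¹ := by
      ext a b
      simp [jb, hinv, eN, mul_add]
    have := InG.det hg₀ hφ₀ (Y.adjugate.submatrix jb jb + -(Q * N * P)) fun a b =>
      InG.add hg₀ hφ₀ (madj _ _) ((InG.mmul hg₀ hφ₀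
        (InG.mmul hg₀ hφ₀ (Q := N) mQ fun a b => madj _ _) mP a b).neg.cast (by simp) rfl)
    refine this.cast rfl ?_
    rw [e1, det_smul, det_nonsing_inv, ← h₁, Ring.inverse_unit, Units.val_mul (D ^ _),
      Units.val_pow_eq_pow_val]
  · intro c d
    obtain ⟨b⟩ : Nonempty γ := inferInstance
    obtain ⟨E, h1, h2⟩ := hcol (Sum.inl (j b)) (Sum.inr d)
    have k1 : ∀ t s, E (Y t s) = if s = j b then (Y * S) t d else 0 := fun t s => by
      have := h2 (Sum.inl s) (Sum.inl t)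
      rw [transpose_apply, transpose_apply, eY, eS] at this
      simpa using this
    have k2 : ∀ s, ∑ t, E (R c t) * Y t s = if s = j b then Z c d else 0 := fun s => by
      have := h2 (Sum.inl s) (Sum.inr c)
      rw [transpose_apply, transpose_apply, eR, eZ, mul_apply, map_sum, Matrix.mul_assoc,
        Matrix.add_apply, mul_apply] at this
      simp only [Derivation.leibniz, k1, smul_eq_mul, Finset.sum_add_distrib, Sum.inl.injEq,
        mul_comm (Y _ s)] at this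
      split_ifs at this ⊢
      · linear_combination this
      · simpa using this
    have k3 : ∀ t, E (R c t) * D = Z c d * Y.adjugate (j b) t := fun t => by
      have e1 : ∀ t', ∑ s, Y t' s * Y.adjugate s t = if t' = t then (D : A) else 0 := fun t' => by
        have := congrFun (congrFun (mul_adjugate Y) t') t
        simpa [mul_apply, one_apply, dY] using this
      have : ∑ s, (∑ t', E (R c t') * Y t' s) * Y.adjugate s t = E (R c t) * D := by
        simp only [Finset.sum_mul]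
        rw [Finset.sum_comm]
        simp [mul_assoc, ← Finset.mul_sum, e1]
      rw [← this]
      simp [k2]
    have k4 := congrFun (congrFun NB b) b
    rw [mul_apply, one_apply_eq] at k4
    refine (InG.sum hg₀ hφ₀ (M := -1) Finset.univ Finset.univ_nonempty
      (fun t => E (R c (j t)) * B' t b) fun t _ =>
        ((h1 _ _ (mR _ _)).mul (mB t b)).cast (by simp) rfl).cast rfl ?_
    rw [eq_comm, Units.mul_inv_eq_iff_eq_mul, Finset.sum_mul, ← mul_one (Z c d), ← k4,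
      Finset.mul_sum]
    refine Finset.sum_congr rfl fun t _ => ?_
    rw [mul_right_comm, k3, mul_assoc]
    rfl

end Pool.Agent.MP_ee8c61_ag.H10
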