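import Mathlib
import Pool.Agent.MP_ee8c61_ag.H10.Mem

/-! The chart of the space of matrices around the intersection of two exceptional divisors. -/

namespace Pool.Agent.MP_ee8c61_ag.H10

open MvPolynomial Matrix

lemma hom_of_frame {ι σ A : Type} [DecidableEq ι] [CommRing A] [Algebra ℂ A] (ε : ι ≃ σ)
    (x : ι → A) (ξ : ι → Derivation ℂ A A) (hξ : ∀ i j, ξ i (x j) = if i = j then 1 else 0)
    (i : σ) (p : MvPolynomial σ ℂ) :
    ξ (ε.symm i) (aeval (x ∘ ε.symm) p) = aeval (x ∘ ε.symm) (pderiv i p) := by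
  classical
  induction p using MvPolynomial.induction_on with
  | C a => simp
  | add p q hp hq => simp only [map_add, hp, hq]
  | mul_X p n hp =>
    simp only [map_mul, aeval_X, Derivation.leibniz, hp, smul_eq_mul, map_add, Function.comp, hξ,
      pderiv_X, Pi.single_apply, ε.symm.injective.eq_iff]
    by_cases h : i = n
    · simp [h]
    · simp [h, Ne.symm h]

theorem chart_pair {σ κ α β γ ρ τ : Type} [DecidableEq σ] [Fintype κ] [Fintype α] [DecidableEq α]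
    [Fintype β] [DecidableEq β] [Fintype γ] [DecidableEq γ] [Fintype ρ] [DecidableEq ρ]
    [Fintype τ] [DecidableEq τ] (ε : ((α ⊕ β ⊕ γ) ⊕ ρ) × ((α ⊕ β ⊕ γ) ⊕ τ) ≃ σ)
    (G : Matrix ((α ⊕ β ⊕ γ) ⊕ ρ) ((α ⊕ β ⊕ γ) ⊕ τ) (MvPolynomial σ ℂ))
    (hG : ∀ i j, G i j = X (ε (i, j))) (k : ℕ) (hk : Fintype.card (α ⊕ β ⊕ γ) = k + 1)
    (f : κ → MvPolynomial σ ℂ)
    (hI : ∀ (p : Fin k → _) (q : Fin k → _), (G.submatrix p q).det ∈ Ideal.span (Set.range f))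
    (hf : ∀ j, ∃ (p : Fin k → _) (q : Fin k → _), f j = (G.submatrix p q).det)
    (bf : Polynomial ℂ) (hb : IsBS f bf) (b g r c : ℕ) (eb : Fintype.card β = b)
    (eg : Fintype.card γ = g + 1) (er : Fintype.card ρ = r) (ec : Fintype.card τ = c)
    (hg0 : 0 < g) :
    Polynomial.C (g : ℂ) * Polynomial.X + Polynomial.C (((g : ℂ) + 1 + r) * (g + 1 + c)) ∣ bf ∧
    (0 < b → (Polynomial.C ((b : ℂ) + g) * Polynomial.X +
      Polynomial.C (((b : ℂ) + g + 1 + r) * (b + g + 1 + c))) *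
      (Polynomial.C (g : ℂ) * Polynomial.X + Polynomial.C (((g : ℂ) + 1 + r) * (g + 1 + c))) ∣
        bf) := by
  classical
  have : Nontrivial γ := Fintype.one_lt_card_iff_nontrivial.1 (by omega)
  set a := Fintype.card α with ea
  have hk' : k = a + b + g := by
    simp only [Fintype.card_sum, eb, eg] at hk; omega
  let ι := ((α ⊕ β ⊕ γ) ⊕ ρ) × ((α ⊕ β ⊕ γ) ⊕ τ)
  let e₀ : α × α → ι := fun p => (.inl (.inl p.1), .inl (.inl p.2))
  let e₁ : β × β → ι := fun p => (.inl (.inr (.inl p.1)), .inl (.inr (.inl p.2)))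
  let e₂ : γ × γ → ι := fun p => (.inl (.inr (.inr p.1)), .inl (.inr (.inr p.2)))
  let U : Finset ι := Finset.univ.filter fun i =>
    i ∉ Set.range e₀ ∧ i ∉ Set.range e₁ ∧ i ∉ Set.range e₂
  have hU : ∀ i, i ∈ U ↔ i ∉ Set.range e₀ ∧ i ∉ Set.range e₁ ∧ i ∉ Set.range e₂ := fun i => by
    simp only [U, Finset.mem_filter, Finset.mem_univ, true_and]
  obtain ⟨A, _, _, y, Λ, hΛ1, i₀, i₁, i₂, iU, hF⟩ := base3 e₀ e₁ e₂
    (fun p q h => by simpa [e₀, ι, Prod.ext_iff] using h)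
    (fun p q h => by simpa [e₁, ι, Prod.ext_iff] using h)
    (fun p q h => by simpa [e₂, ι, Prod.ext_iff] using h)
    (fun p q => by simp [e₀, e₁, ι]) (fun p q => by simp [e₀, e₂, ι])
    (fun p q => by simp [e₁, e₂, ι]) U hU
  set A₀ := blk y e₀
  set A₁ := blk y e₁
  set B := blk y e₂
  let Q₀ : Matrix α (β ⊕ γ) A := of fun i j => y (.inl (.inl i), .inl (.inr j))
  let P₀ : Matrix (β ⊕ γ) α A := of fun i j => y (.inl (.inr i), .inl (.inl j))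
  let Q : Matrix β γ A := of fun i j => y (.inl (.inr (.inl i)), .inl (.inr (.inr j)))
  let P : Matrix γ β A := of fun i j => y (.inl (.inr (.inr i)), .inl (.inr (.inl j)))
  let S : Matrix (α ⊕ β ⊕ γ) τ A := of fun i j => y (.inl i, .inr j)
  let R : Matrix ρ (α ⊕ β ⊕ γ) A := of fun i j => y (.inr i, .inl j)
  let Z : Matrix ρ τ A := of fun i j => y (.inr i, .inr j)
  let Y' := stepM A₁ Q P B
  let Y := stepM A₀ Q₀ P₀ Y'
  obtain ⟨u₀, h₀⟩ := id i₀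
  obtain ⟨u₁, h₁⟩ := id i₁
  obtain ⟨u₂, h₂⟩ := id i₂
  choose v hv using fun i : U => iU i.1 i.2
  have dY : Y.det = (u₀ * u₁ * u₂ : Aˣ) := by
    simp only [Y, Y', det_stepM, Units.val_mul, h₀, h₁, h₂, mul_assoc]
  have s1 := hF.step (fun p : (β ⊕ γ) × (β ⊕ γ) => ((.inl (.inr p.1), .inl (.inr p.2)) : ι))
    (fun p q h => by simpa [ι, Prod.ext_iff] using h) A₁ Q P B
    (by rintro ⟨i | i, j | j⟩ <;> rfl) i₁
    (fun p => fromBlocks (fromBlocks A₀ Q₀ P₀ Y') S R Z p.1 p.2) (fun _ => rfl)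
    (by
      rintro ⟨(i | i) | i, (j | j) | j⟩ h <;>
      first | rfl | exact absurd ⟨(i, j), rfl⟩ h)
  have s2 := s1.step (fun p : (α ⊕ β ⊕ γ) × (α ⊕ β ⊕ γ) => ((.inl p.1, .inl p.2) : ι))
    (fun p q h => by simpa [ι, Prod.ext_iff] using h) A₀ Q₀ P₀ Y' (fun _ => rfl) i₀
    (fun p => fromBlocks Y S R Z p.1 p.2) (fun _ => rfl)
    (by
      rintro ⟨i | i, j | j⟩ h <;>
      first | rfl | exact absurd ⟨(i, j), rfl⟩ h)
  have s3 := s2.step id Function.injective_id Y S R Z (fun _ => rfl) (dY ▸ Units.isUnit _)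
    (fun p => stepM Y S R Z p.1 p.2) (fun _ => rfl) (fun i h => absurd ⟨i, rfl⟩ h)
  obtain ⟨ξ, hξ, hΛ⟩ := s3
  let φ : MvPolynomial σ ℂ →ₐ[ℂ] A := aeval ((fun p : ι => stepM Y S R Z p.1 p.2) ∘ ε.symm)
  have hδ := hom_of_frame ε _ ξ hξ
  have hφ : ∀ i j, φ (G i j) = stepM Y S R Z i j := fun i j => by simp [φ, hG]
  obtain ⟨g₀, hg₀, hφ₀, m₀, m₁, m₂, mQ₀, mP₀, mQ, mP, mS, mR, mZ⟩ :=
    mem_all (φ := φ) (fun i => ξ (ε.symm i)) hδ ε ε.injective G hG k hk hI f rfl hf A₀ Q₀ P₀ A₁ Q P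
      B S R Z hφ u₀ u₁ u₂ h₀ h₁ h₂ g eg _ rfl
  let z : ι → ℕ := fun i => if i.1.isRight ∧ i.2.isRight then 1 else 0
  have hz : ∑ i : U, z i = r * c := by
    rw [Finset.sum_coe_sort U z, Finset.sum_subset (Finset.subset_univ U)]
    · simp only [z, ι, Fintype.sum_prod_type, Fintype.sum_sum_type]
      simp [er, ec]
    · intro i _ hi
      rw [hU] at hi
      by_contra hne
      apply hi
      refine ⟨?_, ?_, ?_⟩ <;> rintro ⟨p, rfl⟩ <;> simp [z, e₀, e₁, e₂] at hne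
  let W : Aˣ := u₀ ^ a * u₁ ^ b * u₂ ^ (g + 1) * ∏ i, v i
  have hW : (W : A) = A₀.det ^ a * A₁.det ^ Fintype.card β * B.det ^ Fintype.card γ *
      ∏ i ∈ U, y i := by
    simp only [W, Units.val_mul, Units.val_pow_eq_pow_val, Units.coe_prod, h₀, h₁, h₂, hv, eb, eg,
      Finset.prod_coe_sort U y]
  let wt : ℤ → ι → ℤ := fun t p => fromBlocks (fromBlocks 0 0 0
    (fromBlocks (of fun _ _ => t) 0 0 (of fun _ _ => 1))) 0 0 (of fun _ _ => 1) p.1 p.2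
  have hwt : ∀ t, ∑ i, wt t i = t * b * b + (g + 1) * (g + 1) + r * c := fun t => by
    simp [wt, ι, Fintype.sum_prod_type, eb, eg, er, ec]
    ring
  have hwz : ∀ t, ∀ i ∈ U, wt t i = z i := by
    rintro t ⟨(i | i | i) | i, (j | j | j) | j⟩ h
    case inl.inr.inl.inl.inr.inl => exact absurd ⟨(i, j), rfl⟩ ((hU _).1 h).2.1
    case inl.inr.inr.inl.inr.inr => exact absurd ⟨(i, j), rfl⟩ ((hU _).1 h).2.2
    all_goals rfl
  have hF' : Fr y (Λ ∘ₗ LinearMap.mulLeft ℂ (W : A)) := by rw [hW]; exact hF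
  choose E hE1 hE2 using fun t => exists_euler W hF' (wt t)
  have d₀ : ∀ t, dl (E t) u₀ = 0 := fun t => by
    simpa using dl_det (E t) A₀ 0 (fun i j => hE1 t _) u₀ h₀
  have d₁ : ∀ t, dl (E t) u₁ = algebraMap ℂ A (t * b) := fun t => by
    simpa [eb] using dl_det (E t) A₁ t (fun i j => hE1 t _) u₁ h₁
  have d₂ : ∀ t, dl (E t) u₂ = algebraMap ℂ A (g + 1) := fun t => by
    simpa [eg] using dl_det (E t) B 1 (fun i j => hE1 t _) u₂ h₂
  have d₃ : ∀ t (i : U), dl (E t) (v i) = algebraMap ℂ A (z i) := fun t i => by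
    rw [dl, hv, hE1, hwz t i.1 i.2, ← hv, mul_smul_comm, Units.inv_mul, Algebra.smul_def]
    simp
  have hz' : ∑ i : U, (z i : ℂ) = r * c := by exact_mod_cast hz
  have hE3 : ∀ t x, Λ (E t x) = 0 := fun t => hE2 t (by
    simp only [W, dl_mul, dl_pow, dl_prod, d₀, d₁, d₂, d₃, hwt, ← map_sum, hz', Algebra.smul_def,
      ← map_mul, ← map_add, mul_zero, zero_add]
    congr 1
    push_cast
    ring)
  have n0 : ∀ t i, y i ∈ Nn (E t) (wt t i) := fun t i => Nn.of le_rfl (hE1 t i)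
  have nA₀ : ∀ t, Ent (E t) 0 A₀ := fun t i j => n0 t (e₀ (i, j))
  have nQ₀ : ∀ t, Ent (E t) 0 Q₀ := fun t i j => n0 t (.inl (.inl i), .inl (.inr j))
  have nP₀ : ∀ t, Ent (E t) 0 P₀ := fun t i j => n0 t (.inl (.inr i), .inl (.inl j))
  have nA₁ : ∀ t, Ent (E t) t A₁ := fun t i j => n0 t (e₁ (i, j))
  have nQ : ∀ t, Ent (E t) 0 Q := fun t i j => n0 t (.inl (.inr (.inl i)), .inl (.inr (.inr j)))
  have nP : ∀ t, Ent (E t) 0 P := fun t i j => n0 t (.inl (.inr (.inr i)), .inl (.inr (.inl j)))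
  have nB : ∀ t, Ent (E t) 1 B := fun t i j => n0 t (e₂ (i, j))
  have nS : ∀ t, Ent (E t) 0 S := fun t i j => n0 t (.inl i, .inr j)
  have nR : ∀ t, Ent (E t) 0 R := fun t i j => n0 t (.inr i, .inl j)
  have nZ : ∀ t, Ent (E t) 1 Z := fun t i j => n0 t (.inr i, .inr j)
  have nx : ∀ t, 0 ≤ t → Ent (E t) 0 (stepM Y S R Z) := fun t ht =>
    ((nA₀ t).step (nQ₀ t) (nP₀ t) (((nA₁ t).mono ht).step (nQ t) (nP t)
      ((nB t).mono zero_le_one))).step (nS t) (nR t) ((nZ t).mono zero_le_one)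
  have l1 : LR (E 1) (a + 0) (stepM Y S R Z) :=
    (LR.step1 (nA₀ 1) (nQ₀ 1) (nP₀ 1) (LR.zero ((nA₁ 1).step (nQ 1) (nP 1) (nB 1)))).step2
      (nS 1) (nR 1) (nZ 1)
  have l2 : LR (E 0) (a + (Fintype.card β + 0)) (stepM Y S R Z) :=
    (LR.step1 (nA₀ 0) (nQ₀ 0) (nP₀ 0) (LR.step1 (nA₁ 0) (nQ 0) (nP 0) (LR.zero (nB 0)))).step2
      (nS 0) (nR 0) (nZ 0)
  have hφf : ∀ (p : Fin k → _) (q : Fin k → _),
      φ (G.submatrix p q).det = ((stepM Y S R Z).submatrix p q).det := fun p q => by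
    rw [AlgHom.map_det]
    congr 1
    ext i j
    exact hφ _ _
  let J : Aˣ := W * u₁ ^ (g + 1 + (g + 1)) * u₀ ^ (b + (g + 1) + (b + (g + 1))) *
    (u₀ * u₁ * u₂) ^ (r + c)
  have hJ : ∀ x, ((((Λ ∘ₗ LinearMap.mulLeft ℂ (A₀.det ^ a * A₁.det ^ Fintype.card β *
      B.det ^ Fintype.card γ * ∏ i ∈ U, y i)) ∘ₗ
      LinearMap.mulLeft ℂ (A₁.det ^ (Fintype.card γ + Fintype.card γ))) ∘ₗ
      LinearMap.mulLeft ℂ (A₀.det ^ (Fintype.card (β ⊕ γ) + Fintype.card (β ⊕ γ)))) ∘ₗ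
      LinearMap.mulLeft ℂ (Y.det ^ (Fintype.card ρ + Fintype.card τ))) (↑J⁻¹ * x) = Λ x := by
    intro x
    rw [← hW]
    simp only [LinearMap.comp_apply, LinearMap.mulLeft_apply, dY, ← h₀, ← h₁, eb, eg, er, ec,
      Fintype.card_sum, ← mul_assoc, ← Units.val_pow_eq_pow_val, ← Units.val_mul]
    rw [show W * u₁ ^ (g + 1 + (g + 1)) * u₀ ^ (b + (g + 1) + (b + (g + 1))) *
      (u₀ * u₁ * u₂) ^ (r + c) = J from rfl, mul_inv_cancel, Units.val_one, one_mul]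
  have m₃ : ∀ i : U, InG φ (Ideal.span (Set.range f))
      (u₀ ^ (g + 2) * u₁ ^ (g + 1) * u₂ ^ g : Aˣ) (g + 1) (-z i)
      (v i * (u₀ * u₁ * u₂)⁻¹ ^ z i : Aˣ) := by
    rintro ⟨⟨(i | i | i) | i, (j | j | j) | j⟩, h⟩ <;>
    simp only [z, Sum.isRight_inl, Sum.isRight_inr, Bool.false_eq_true, and_false, false_and,
      and_self, if_false, if_true, pow_zero, pow_one, mul_one, Units.val_mul (v _), hv,
      Nat.cast_zero, neg_zero, Nat.cast_one]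
    · exact absurd ⟨(i, j), rfl⟩ ((hU _).1 h).1
    · exact mQ₀ i (.inl j)
    · exact mQ₀ i (.inr j)
    · exact mS (.inl i) j
    · exact mP₀ (.inl i) j
    · exact absurd ⟨(i, j), rfl⟩ ((hU _).1 h).2.1
    · exact mQ i j
    · exact mS (.inr (.inl i)) j
    · exact mP₀ (.inr i) j
    · exact mP i j
    · exact absurd ⟨(i, j), rfl⟩ ((hU _).1 h).2.2
    · exact mS (.inr (.inr i)) j
    · exact mR i (.inl j)
    · exact mR i (.inr (.inl j))
    · exact mR i (.inr (.inr j))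
    · exact mZ i j
  have hx : ∀ t, 0 ≤ t → ∀ i, φ (X i) ∈ Nn (E t) 0 := fun t ht i => by
    obtain ⟨⟨i, j⟩, rfl⟩ := ε.surjective i
    rw [← hG, hφ]
    exact nx t ht i j
  have f1 : ∀ j, φ (f j) ∈ Nn (E 1) (b + g) := fun j => by
    obtain ⟨p, q, e⟩ := hf j
    rw [e, hφf]
    exact Nn.mono (by simp [hk']; omega) (l1.det p q)
  have f0 : ∀ j, φ (f j) ∈ Nn (E 0) g := fun j => by
    obtain ⟨p, q, e⟩ := hf j
    rw [e, hφf]
    exact Nn.mono (by simp [hk', eb]) (l2.det p q)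
  have hJ1 := (hJ 1).trans_ne hΛ1
  rw [mul_one] at hJ1
  refine ⟨single_abs f bf hb φ (fun i => ξ (ε.symm i)) hδ _ (fun i => hΛ _) u₀ u₁ u₂ v
    (fun i => z i) a b g r c hg0 hz _ rfl g₀ hg₀ hφ₀ m₀ m₁ ?_ m₃ J⁻¹ (inv_inv _) hJ1 (E 0)
    (fun x => (hJ _).trans (hE3 _ _)) (hx 0 le_rfl) f0 (d₀ 0) (by simpa using d₁ 0) (d₂ 0) (d₃ 0),
    fun hb0 => pair_abs f bf hb φ (fun i => ξ (ε.symm i)) hδ _ (fun i => hΛ _) u₀ u₁ u₂ v
    (fun i => z i) a b g r c hb0 hg0 hz _ rfl g₀ hg₀ hφ₀ m₀ m₁ (eb ▸ m₂) m₃ J⁻¹ (inv_inv _) hJ1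
    ![E 1, E 0] ?_ ?_ ?_ ?_ ?_ ?_ ?_⟩
  · refine (InG.poly (G.submatrix Sum.inl Sum.inl).det).cast rfl ?_
    rw [AlgHom.map_det, ← dY]
    congr 1
    ext i j
    exact hφ _ _
  · intro t x
    rw [hJ]
    fin_cases t <;> exact hE3 _ _
  · intro t
    fin_cases t
    exacts [hx 1 zero_le_one, hx 0 le_rfl]
  · intro t
    fin_cases t
    exacts [f1, f0]
  · intro t
    fin_cases t <;> exact d₀ _
  · intro t
    fin_cases t
    · simpa using d₁ 1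
    · simpa using d₁ 0
  · intro t
    fin_cases t <;> exact d₂ _
  · intro t i
    fin_cases t <;> exact d₃ _ i

end Pool.Agent.MP_ee8c61_ag.H10
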