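import Mathlib

/-! Minors of the generic matrix, and the sum that defines the topological zeta function. -/

namespace Pool.Agent.MP_ee8c61_ag.H10

/-- The `k × k` minors of the generic `m × n` matrix `(x_{ab})`, indexed by increasing sequences of
rows and columns. -/
noncomputable def minor (m n k : ℕ) (j : (Fin k ↪o Fin m) × (Fin k ↪o Fin n)) :
    MvPolynomial (Fin m × Fin n) ℂ :=
  (Matrix.of fun a b => MvPolynomial.X (j.1 a, j.2 b)).det

/-- The sum `∑_I χ_I ∏_{i ∈ I} 1 / (a_i s + l_i)` over the subsets `I` of `{0, …, k - 1}`. -/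
noncomputable def zetaSum (k : ℕ) (a l : ℕ → ℕ) (χ : Finset ℕ → ℤ) : RatFunc ℂ :=
  ∑ I ∈ (Finset.range k).powerset,
    (χ I : RatFunc ℂ) * ∏ i ∈ I, 1 / ((a i : RatFunc ℂ) * RatFunc.X + (l i : RatFunc ℂ))

end Pool.Agent.MP_ee8c61_ag.H10
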