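import Mathlib
import Pool.Agent.MP_ee8c61_ag.H10.Chart
import Pool.Agent.MP_ee8c61_ag.H10.Minor

/-! The product of the linear forms of all exceptional divisors divides the polynomial. -/

namespace Pool.Agent.MP_ee8c61_ag.H10

open Polynomial

lemma det_mem_of_sorted {R r c : Type} [CommRing R] [LinearOrder r] [LinearOrder c] {k : ℕ}
    (G : Matrix r c R) (I : Ideal R)
    (h : ∀ (p : Fin k ↪o r) (q : Fin k ↪o c), (G.submatrix p q).det ∈ I)
    (p : Fin k → r) (q : Fin k → c) : (G.submatrix p q).det ∈ I := by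
  by_cases hp : Function.Injective p
  · by_cases hq : Function.Injective q
    · have h1 := h (OrderEmbedding.ofStrictMono (p ∘ Tuple.sort p)
        ((Tuple.monotone_sort p).strictMono_of_injective (hp.comp (Equiv.injective _))))
        (OrderEmbedding.ofStrictMono (q ∘ Tuple.sort q)
        ((Tuple.monotone_sort q).strictMono_of_injective (hq.comp (Equiv.injective _))))
      have h2 : G.submatrix p q = ((G.submatrix (p ∘ Tuple.sort p) (q ∘ Tuple.sort q)).submatrix
          (Tuple.sort p).symm id).submatrix id (Tuple.sort q).symm := by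
        ext a b; simp
      rw [h2, Matrix.det_permute', Matrix.det_permute]
      exact I.mul_mem_left _ (I.mul_mem_left _ h1)
    · obtain ⟨a, b, hab, hne⟩ := Function.not_injective_iff.1 hq
      rw [Matrix.det_zero_of_column_eq hne fun i => by simp [hab]]
      exact zero_mem _
  · obtain ⟨a, b, hab, hne⟩ := Function.not_injective_iff.1 hp
    rw [Matrix.det_zero_of_row_eq hne (by ext i; simp [hab])]
    exact zero_mem _

lemma prod_dvd_of_pairs (k : ℕ) (z : ℕ → ℂ) (bf : ℂ[X]) (h1 : ∀ i < k, X - C (z i) ∣ bf)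
    (h2 : ∀ i j, i < j → j < k → (X - C (z i)) * (X - C (z j)) ∣ bf)
    (h3 : ∀ i < k, ∀ j < k, ∀ l < k, z i = z j → z i = z l → i = j ∨ i = l ∨ j = l) :
    ∏ i ∈ Finset.range k, (X - C (z i)) ∣ bf := by
  classical
  rcases eq_or_ne bf 0 with rfl | h0
  · exact dvd_zero _
  have : ∏ i ∈ Finset.range k, (X - C (z i)) =
      (((Finset.range k).val.map z).map fun a => X - C a).prod := by
    rw [Multiset.map_map]; rfl
  rw [this, Multiset.prod_X_sub_C_dvd_iff_le_roots h0, Multiset.le_iff_count]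
  intro a
  rw [count_roots, le_rootMultiplicity_iff h0, Multiset.count_map]
  change (X - C a) ^ ((Finset.range k).filter fun i => a = z i).card ∣ bf
  set F := (Finset.range k).filter fun i => a = z i with hF
  have hm : ∀ i ∈ F, i < k ∧ a = z i := fun i hi => by simpa [hF] using hi
  have hc : F.card ≤ 2 := by
    by_contra hc
    obtain ⟨i, hi, j, hj, l, hl, e1, e2, e3⟩ := Finset.two_lt_card.1 (not_le.1 hc)
    have := h3 i (hm i hi).1 j (hm j hj).1 l (hm l hl).1 ((hm i hi).2.symm.trans (hm j hj).2)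
      ((hm i hi).2.symm.trans (hm l hl).2)
    tauto
  obtain h | h | h : F.card = 0 ∨ F.card = 1 ∨ F.card = 2 := by omega
  · simp [h]
  · obtain ⟨i, hi⟩ := Finset.card_eq_one.1 h
    have := hm i (by simp [hi])
    rw [h, pow_one, this.2]
    exact h1 i this.1
  · obtain ⟨i, j, hne, hi⟩ := Finset.card_eq_two.1 h
    have k1 := hm i (by simp [hi])
    have k2 := hm j (by simp [hi])
    rw [h, pow_two]
    rcases lt_or_gt_of_ne hne with h' | h'
    · have := h2 i j h' k2.1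
      rwa [← k1.2, ← k2.2] at this
    · have := h2 j i h' k1.1
      rwa [← k1.2, ← k2.2] at this

lemma lin_eq (a l : ℂ) (ha : a ≠ 0) : C a * X + C l = C a * (X - C (-l / a)) := by
  rw [mul_sub, ← C_mul, mul_div_cancel₀ _ ha, C_neg, sub_neg_eq_add]

lemma zeta_poly (k : ℕ) (a l : ℕ → ℕ) (ha : ∀ i < k, a i ≠ 0) (bf : ℂ[X])
    (h : ∏ i ∈ Finset.range k, (X - C (-(l i : ℂ) / a i)) ∣ bf) (χ : Finset ℕ → ℤ) :
    ∃ Q : ℂ[X], algebraMap ℂ[X] (RatFunc ℂ) bf * zetaSum k a l χ = algebraMap ℂ[X] (RatFunc ℂ) Q := by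
  have key : ∀ I ∈ (Finset.range k).powerset, ∃ Q : ℂ[X], algebraMap ℂ[X] (RatFunc ℂ) bf *
      ((χ I : RatFunc ℂ) * ∏ i ∈ I, 1 / ((a i : RatFunc ℂ) * RatFunc.X + (l i : RatFunc ℂ))) =
      algebraMap ℂ[X] (RatFunc ℂ) Q := by
    intro I hI
    rw [Finset.mem_powerset] at hI
    have ha' : ∀ i ∈ I, (a i : ℂ) ≠ 0 := fun i hi => by
      exact_mod_cast ha i (Finset.mem_range.1 (hI hi))
    obtain ⟨q, hq⟩ := (Finset.prod_dvd_prod_of_subset _ _ _ hI).trans h
    refine ⟨C (χ I : ℂ) * (∏ i ∈ I, C (a i : ℂ)⁻¹) * q, ?_⟩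
    have e : ∀ i ∈ I, algebraMap ℂ[X] (RatFunc ℂ) (X - C (-(l i : ℂ) / a i)) *
        (1 / ((a i : RatFunc ℂ) * RatFunc.X + (l i : RatFunc ℂ))) = algebraMap ℂ[X] (RatFunc ℂ) (C (a i : ℂ)⁻¹) := by
      intro i hi
      have e1 : (a i : RatFunc ℂ) * RatFunc.X + (l i : RatFunc ℂ) =
          algebraMap ℂ[X] (RatFunc ℂ) (C (a i : ℂ) * X + C (l i : ℂ)) := by simp
      have e2 : C (a i : ℂ) * X + C (l i : ℂ) ≠ 0 := by
        rw [lin_eq _ _ (ha' i hi)]
        exact mul_ne_zero (C_ne_zero.2 (ha' i hi)) (X_sub_C_ne_zero _)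
      rw [e1, mul_one_div, div_eq_iff (RatFunc.algebraMap_ne_zero e2), ← map_mul,
        lin_eq _ _ (ha' i hi), ← mul_assoc, ← C_mul, inv_mul_cancel₀ (ha' i hi), C_1, one_mul]
    rw [hq, map_mul, map_mul, map_mul, map_prod, map_prod, ← Finset.prod_congr rfl e,
      Finset.prod_mul_distrib]
    simp only [map_intCast]
    ring
  choose! Q hQ using key
  refine ⟨∑ I ∈ (Finset.range k).powerset, Q I, ?_⟩
  rw [zetaSum, Finset.mul_sum, map_sum]
  exact Finset.sum_congr rfl hQ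

lemma minor_pair (a b g r c m n k : ℕ) (hk : k = a + b + g) (hm : m = k + 1 + r)
    (hn : n = k + 1 + c) (hg : 0 < g) (bf : ℂ[X]) (hb : IsBS (minor m n k) bf) :
    C (g : ℂ) * X + C (((g : ℂ) + 1 + r) * (g + 1 + c)) ∣ bf ∧
    (0 < b → (C ((b : ℂ) + g) * X + C (((b : ℂ) + g + 1 + r) * (b + g + 1 + c))) *
      (C (g : ℂ) * X + C (((g : ℂ) + 1 + r) * (g + 1 + c))) ∣ bf) := by
  let er : (Fin a ⊕ Fin b ⊕ Fin (g + 1)) ⊕ Fin r ≃ Fin m :=
    Fintype.equivFinOfCardEq (by simp; omega)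
  let ec : (Fin a ⊕ Fin b ⊕ Fin (g + 1)) ⊕ Fin c ≃ Fin n :=
    Fintype.equivFinOfCardEq (by simp; omega)
  let G₀ : Matrix (Fin m) (Fin n) (MvPolynomial (Fin m × Fin n) ℂ) :=
    Matrix.of fun i j => MvPolynomial.X (i, j)
  refine chart_pair (er.prodCongr ec) (G₀.submatrix er ec) (fun i j => rfl) k (by simp; omega)
    (minor m n k) (fun p q => ?_) (fun j => ⟨er.symm ∘ j.1, ec.symm ∘ j.2, ?_⟩) bf hb b g r c
    (by simp) (by simp) (by simp) (by simp) hg
  · exact det_mem_of_sorted G₀ (Ideal.span (Set.range (minor m n k)))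
      (fun p q => Ideal.subset_span (Set.mem_range_self (f := minor m n k) (p, q))) (er ∘ p) (ec ∘ q)
  · rw [minor]
    congr 1
    ext i i'
    simp [G₀]

theorem minor_dvd (m n k : ℕ) (hm : k < m) (hn : k < n) (bf : ℂ[X]) (hb : IsBS (minor m n k) bf) :
    ∏ i ∈ Finset.range k, (X - C (-(((m - i) * (n - i) : ℕ) : ℂ) / ((k - i : ℕ) : ℂ))) ∣ bf := by
  obtain ⟨r, hr⟩ : ∃ r, m = k + 1 + r := ⟨m - (k + 1), by omega⟩
  obtain ⟨c, hc⟩ : ∃ c, n = k + 1 + c := ⟨n - (k + 1), by omega⟩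
  have key : ∀ i g : ℕ, k = i + g → 0 < g → ∃ u : ℂ, u ≠ 0 ∧
      C (g : ℂ) * X + C (((g : ℂ) + 1 + r) * (g + 1 + c)) =
      C u * (X - C (-(((m - i) * (n - i) : ℕ) : ℂ) / ((k - i : ℕ) : ℂ))) := by
    intro i g h1 h2
    have hg : (g : ℂ) ≠ 0 := by exact_mod_cast h2.ne'
    refine ⟨g, hg, ?_⟩
    rw [lin_eq _ _ hg, show m - i = g + 1 + r by omega, show n - i = g + 1 + c by omega,
      show k - i = g by omega]
    push_cast
    rfl
  refine prod_dvd_of_pairs k _ bf (fun i hi => ?_) (fun i j hij hj => ?_) ?_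
  · obtain ⟨u, _, e⟩ := key i (k - i) (by omega) (by omega)
    have := (minor_pair i 0 (k - i) r c m n k (by omega) hr hc (by omega) bf hb).1
    rw [e] at this
    exact (Dvd.intro_left _ rfl).trans this
  · obtain ⟨u, _, e⟩ := key j (k - j) (by omega) (by omega)
    obtain ⟨u', _, e'⟩ := key i (j - i + (k - j)) (by omega) (by omega)
    have := (minor_pair i (j - i) (k - j) r c m n k (by omega) hr hc (by omega) bf hb).2 (by omega)
    rw [e, ← Nat.cast_add, e'] at this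
    exact (mul_dvd_mul (Dvd.intro_left _ rfl) (Dvd.intro_left _ rfl)).trans this
  · intro i hi j hj l hl e1 e2
    by_contra hne
    push Not at hne
    obtain ⟨n1, n2, n3⟩ := hne
    have cast : ∀ t < k, (((m - t) * (n - t) : ℕ) : ℂ) = ((m : ℂ) - t) * (n - t) ∧
        ((k - t : ℕ) : ℂ) = k - t ∧ (k : ℂ) - t ≠ 0 := fun t ht => by
      refine ⟨by rw [Nat.cast_mul, Nat.cast_sub (by omega), Nat.cast_sub (by omega)],
        Nat.cast_sub ht.le, ?_⟩
      rw [sub_ne_zero]
      exact_mod_cast ht.ne'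
    simp only [(cast i hi).1, (cast i hi).2.1, (cast j hj).1, (cast j hj).2.1, (cast l hl).1,
      (cast l hl).2.1] at e1 e2
    set w := -(((m : ℂ) - i) * (n - i)) / (k - i) with hw
    have q1 : w * (k - i) = -(((m : ℂ) - i) * (n - i)) := div_mul_cancel₀ _ (cast i hi).2.2
    have q2 : w * (k - j) = -(((m : ℂ) - j) * (n - j)) := by
      rw [e1]; exact div_mul_cancel₀ _ (cast j hj).2.2
    have q3 : w * (k - l) = -(((m : ℂ) - l) * (n - l)) := by
      rw [e2]; exact div_mul_cancel₀ _ (cast l hl).2.2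
    have d1 : (i : ℂ) - j ≠ 0 := by rw [sub_ne_zero]; exact_mod_cast n1
    have d2 : (i : ℂ) - l ≠ 0 := by rw [sub_ne_zero]; exact_mod_cast n2
    have d3 : (j : ℂ) - l ≠ 0 := by rw [sub_ne_zero]; exact_mod_cast n3
    have r1 : (i : ℂ) + j - (m + n + w) = 0 := by
      apply mul_left_cancel₀ d1
      linear_combination q1 - q2
    have r2 : (i : ℂ) + l - (m + n + w) = 0 := by
      apply mul_left_cancel₀ d2
      linear_combination q1 - q3
    exact d3 (by linear_combination r1 - r2)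

end Pool.Agent.MP_ee8c61_ag.H10
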