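import Mathlib

/-! Log resolutions (and resolutions with quotient singularities) of an ideal, described by
holomorphic charts. -/

namespace Pool.Agent.MP_ee8c61_ag.H10

open Set Filter Topology

/-- `π : Y → ℂ^σ` is a proper map, injective off the divisors `E i`, and every point `y` has a
local uniformising chart `ψ` in which the `E i` through `y` are coordinate hyperplanes, the
Jacobian of `π ∘ ψ` is `∏ τ_i ^ k_i` times a unit and `f ∘ π ∘ ψ = (∏ τ_i ^ a_i) u` with `u ≠ 0`;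
`β = [u]` is the induced map to projective space, so that `(π, β)` maps `Y` to the blow-up. -/
def IsRes {σ κ D Y : Type} [Fintype σ] [Fintype κ] [TopologicalSpace Y]
    (f : κ → MvPolynomial σ ℂ) (π : Y → σ → ℂ) (β : Y → Projectivization ℂ (κ → ℂ))
    (E : D → Set Y) (a k : D → ℕ) : Prop :=
  IsProperMap π ∧ InjOn π (⋃ i, E i)ᶜ ∧ (∀ i, 0 < a i) ∧
    ∀ y, ∃ (ψ : (σ → ℂ) → Y) (I : Finset D) (e : D → σ) (u : (σ → ℂ) → κ → ℂ) (v : (σ → ℂ) → ℂ),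
      ψ 0 = y ∧ map ψ (𝓝 0) = 𝓝 y ∧ (∃ U ∈ 𝓝 0, ∃ M : ℕ, ∀ z, (U ∩ ψ ⁻¹' {z}).encard ≤ M) ∧
      InjOn e I ∧ AnalyticAt ℂ (π ∘ ψ) 0 ∧ AnalyticAt ℂ u 0 ∧ AnalyticAt ℂ v 0 ∧ v 0 ≠ 0 ∧
      ∀ᶠ τ in 𝓝 0, (∀ i, ψ τ ∈ E i ↔ i ∈ I ∧ τ (e i) = 0) ∧
        (fderiv ℂ (π ∘ ψ) τ).det = (∏ i ∈ I, τ (e i) ^ k i) * v τ ∧
        (∀ j, MvPolynomial.eval (π (ψ τ)) (f j) = (∏ i ∈ I, τ (e i) ^ a i) * u τ j) ∧
        ∃ h : u τ ≠ 0, β (ψ τ) = Projectivization.mk ℂ (u τ) h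

/-- The connected component of `x` in its fibre for the map `(π, β)` to the blow-up. -/
def fibre {σ P Y : Type} [TopologicalSpace Y] (π : Y → σ → ℂ) (β : Y → P) (x : Y) : Set Y :=
  connectedComponentIn {y | π y = π x ∧ β y = β x} x

/-- The linear form `a s + k + 1`. -/
noncomputable def lin (a k : ℕ) : RatFunc ℂ := (a : RatFunc ℂ) * RatFunc.X + (k : RatFunc ℂ) + 1

/-- The sum `∑_I χ_I ∏_{i ∈ I} 1 / (a_i s + k_i + 1)`. -/
noncomputable def zeta {D : Type} [Fintype D] (a k : D → ℕ) (χ : Finset D → ℤ) : RatFunc ℂ :=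
  ∑ I : Finset D, (χ I : RatFunc ℂ) * ∏ i ∈ I, 1 / lin (a i) (k i)

end Pool.Agent.MP_ee8c61_ag.H10
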