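import Mathlib
import Pool.Agent.MP_ee8c61_ag.H10.Core

/-! The functional equation for products of powers, with extra parameters. -/

namespace Pool.Agent.MP_ee8c61_ag.H10

open MvPolynomial

variable {σ κ L : Type} [Fintype κ] [Fintype L]

/-- The functional equation for a product of powers of elements of powers of the ideal. -/
theorem core_par {σ₀ : Type} (f₀ : κ → MvPolynomial σ₀ ℂ) (b : Polynomial ℂ) (hb : IsBS f₀ b)
    (ε : σ₀ → σ) (hε : Function.Injective ε) (f : κ → MvPolynomial σ ℂ)
    (hf : ∀ j, f j = rename ε (f₀ j))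
    (g : L → MvPolynomial σ ℂ) (M : L → ℕ) (hg : ∀ l, g l ∈ Ideal.span (Set.range f) ^ M l)
    (Z : Submodule ℂ ((L → ℕ) → MvPolynomial σ ℂ))
    (h1 : ∀ j p, p ∈ Ideal.span (Set.range f) ^ (1 + ∑ l, j l * M l) →
      (fun e => p * wf g j e) ∈ Z)
    (h2 : ∀ i j p, (fun e => pderiv (ε i) (p * wf g j e)) ∈ Z) :
    (fun e => C (b.eval ((∑ l, e l * M l : ℕ) : ℂ)) * wf g 0 e) ∈ Z := by
  classical
  choose v hv hvg using fun l => exists_ev f (M l) (hg l)
  have hw : ∀ j e, ev f (wf v j e) = wf g j e := by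
    intro j e; simp [wf, hvg]
  have k1 : ∀ F ∈ FamS v M 1, (fun e => (ev f).toLinearMap (F e)) ∈ Z := by
    apply span_map
    rintro _ ⟨j, p, hp, rfl⟩
    simp only [AlgHom.toLinearMap_apply, map_mul, hw]
    exact h1 j _ (ev_mem f _ (by exact_mod_cast hp))
  have k2 : ∀ i, ∀ F ∈ FamA v,
      (fun e => ((pderiv (ε i)).toLinearMap ∘ₗ (ev f).toLinearMap) (F e)) ∈ Z := by
    intro i
    apply span_map
    rintro _ ⟨j, p, rfl⟩
    simp only [LinearMap.comp_apply, AlgHom.toLinearMap_apply, map_mul, hw, Derivation.coeFn_coe]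
    exact h2 i j _
  have exA : ∀ Ls : List σ₀, ∃ T, PresA v T ∧
      (∀ a s, ev f (T (ix κ a * tm σ s)) =
        a * rename ε (Ls.foldr (fun i h => pderiv i h) (∏ j, f₀ j ^ s j))) ∧
      ∀ F ∈ FamS v M 1, (fun e => ev f (T (F e))) ∈ Z := by
    intro Ls
    induction Ls with
    | nil => exact ⟨1, fun F hF => hF, fun a s => (ev_gen f a s).trans (by simp [hf]), k1⟩
    | cons i₀ Ls ih =>
      obtain ⟨T, hT, h, h'⟩ := ih
      set i := ε i₀ with hi
      let D : Module.End ℂ (MvPolynomial (σ ⊕ κ) ℂ) := (pderiv (Sum.inl i)).toLinearMap +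
        ∑ j, LinearMap.mulLeft ℂ (ix κ (pderiv i (f j))) * (pderiv (Sum.inr j)).toLinearMap
      have hD : ∀ P, ev f (D P) = pderiv i (ev f P) := by
        intro P
        rw [← ev_chain]
        simp [D, LinearMap.sum_apply]
      have hDA : PresA v D := by
        intro F hF
        have : (fun e => D (F e)) = (fun e => (pderiv (Sum.inl i)).toLinearMap (F e)) +
            ∑ j, fun e => (LinearMap.mulLeft ℂ (ix κ (pderiv i (f j))) *
              (pderiv (Sum.inr j)).toLinearMap : Module.End ℂ (MvPolynomial (σ ⊕ κ) ℂ)) (F e) := by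
          funext e; simp [D, LinearMap.sum_apply]
        rw [this]
        exact add_mem (PresA.der _ F hF)
          (Submodule.sum_mem _ fun j _ => ((PresA.mul _).comp (PresA.der _)) F hF)
      refine ⟨D * T - T * (pderiv (Sum.inl i)).toLinearMap, fun F hF => ?_, fun a s => ?_,
        fun F hF => ?_⟩
      · exact Submodule.sub_mem _ (hDA.comp hT F hF) (hT.comp (PresA.der _) F hF)
      · simp only [LinearMap.sub_apply, Module.End.mul_apply, map_sub, hD, h, Derivation.coeFn_coe,
          dx_gen, List.foldr_cons]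
        rw [pderiv_mul, hi, pderiv_rename hε]
        ring
      · have a1 := k2 i₀ _ (hT F (FamS_le v M 1 hF))
        have a2 := h' _ (by
          simpa using PresH.der hv (d := 0) (pderiv (Sum.inl i))
            (fun d₀ p hp => by simpa using dx_mem i hp) 1 F hF)
        have := Z.sub_mem a1 a2
        refine (congrArg (· ∈ Z) ?_).mp this
        funext e
        simp [hD, hi]
  choose A hA1 hA2 hA3 using exA
  choose T hT1 hT2 using exDiag hv
  choose U hU1 hU2 using exShift hv
  obtain ⟨S, P, hS, hP⟩ := hb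
  have key : ∀ (n : ℕ), ∀ Φ ∈ Hom σ κ n, C (b.eval (n : ℂ)) * ev f Φ =
      ∑ c ∈ S, ∑ Ls ∈ (P c).support, ev f (A Ls (U c (T (rename ε (P c Ls)) Φ))) := by
    intro n Φ hΦ
    induction hΦ using Submodule.span_induction with
    | zero => simp
    | add x y _ _ hx hy => simp only [map_add, mul_add, hx, hy, Finset.sum_add_distrib]
    | smul c x _ hx =>
      simp only [map_smul, mul_smul_comm, hx, Finset.smul_sum]
    | mem x hx =>
      obtain ⟨a, s, hs, rfl⟩ := hx
      have hn : (n : ℂ) = ∑ j, (s j : ℂ) := by exact_mod_cast hs.symm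
      have hP' := congrArg (rename ε) (hP s)
      rw [map_mul, map_prod, rename_C] at hP'
      simp only [map_pow, ← hf] at hP'
      rw [ev_gen, mul_left_comm, hn, hP', map_sum, Finset.mul_sum]
      refine Finset.sum_congr rfl fun c _ => ?_
      rw [act, Finsupp.sum, map_sum, Finset.mul_sum]
      refine Finset.sum_congr rfl fun Ls _ => ?_
      rw [hT2, hU2, map_smul, map_smul, hA2, foldr_C, smul_eq_C_mul, map_rename, map_mul, map_mul,
        rename_C]
      ring
  have h0 : (fun e => wf v 0 e) ∈ FamS v M 0 :=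
    Submodule.subset_span ⟨0, 1, by simpa using ix_mem (κ := κ) (1 : MvPolynomial σ ℂ), by simp⟩
  have hfin : (fun e => C (b.eval ((∑ l, e l * M l : ℕ) : ℂ)) * wf g 0 e) =
      ∑ c ∈ S, ∑ Ls ∈ (P c).support, fun e => ev f (A Ls (U c (T (rename ε (P c Ls)) (wf v 0 e)))) := by
    funext e
    simp only [Finset.sum_apply]
    rw [← key (∑ l, e l * M l), hw]
    rw [wf_zero]
    have := prod_mem_Hom Finset.univ (fun l => (e l : ℤ) * M l) (fun l => v l ^ e l)
      fun l _ => pow_mem_Hom (hv l) (e l)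
    simpa using this
  rw [hfin]
  refine Submodule.sum_mem _ fun c hc => Submodule.sum_mem _ fun Ls _ => hA3 Ls _ ?_
  have := hU1 c _ _ (hT1 (rename ε (P c Ls)) _ _ h0)
  simpa [hS c hc] using this

end Pool.Agent.MP_ee8c61_ag.H10
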