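import Mathlib

/-! Wirtinger derivatives, integration by parts and some integrals. -/

namespace Pool.Agent.MP_ee8c61_ag.H10

open MeasureTheory Set Filter Topology Complex

variable {σ : Type} [Fintype σ] [DecidableEq σ]

/-- The Wirtinger derivative in the direction `l`. -/
noncomputable def W (l : σ) (a : (σ → ℂ) → ℂ) (τ : σ → ℂ) : ℂ :=
  (fderiv ℝ a τ (Pi.single l 1) - I * fderiv ℝ a τ (Pi.single l I)) / 2

variable {l : σ} {a a' : (σ → ℂ) → ℂ} {τ : σ → ℂ}

lemma W_mul (h : DifferentiableAt ℝ a τ) (h' : DifferentiableAt ℝ a' τ) :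
    W l (fun x => a x * a' x) τ = a τ * W l a' τ + a' τ * W l a τ := by
  simp only [W, fderiv_fun_mul h h', ContinuousLinearMap.add_apply, ContinuousLinearMap.smul_apply,
    smul_eq_mul]
  ring

lemma W_add (h : DifferentiableAt ℝ a τ) (h' : DifferentiableAt ℝ a' τ) :
    W l (fun x => a x + a' x) τ = W l a τ + W l a' τ := by
  simp only [W, fderiv_fun_add h h', ContinuousLinearMap.add_apply]
  ring

lemma W_const (c : ℂ) : W l (fun _ => c) τ = 0 := by simp [W]

lemma W_congr (h : a =ᶠ[𝓝 τ] a') : W l a τ = W l a' τ := by simp only [W, h.fderiv_eq]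

lemma single_I (l : σ) : (Pi.single l I : σ → ℂ) = I • Pi.single l 1 := by
  rw [← Pi.single_smul, smul_eq_mul, mul_one]

lemma W_holo (h : DifferentiableAt ℂ a τ) : W l a τ = fderiv ℂ a τ (Pi.single l 1) := by
  rw [W, (h.hasFDerivAt.restrictScalars ℝ).fderiv, single_I]
  simp only [ContinuousLinearMap.coe_restrictScalars', map_smul, smul_eq_mul]
  linear_combination (-(fderiv ℂ a τ (Pi.single l 1)) / 2) * I_mul_I

lemma W_conj (h : DifferentiableAt ℂ a τ) : W l (fun x => (starRingEnd ℂ) (a x)) τ = 0 := by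
  have := (conjCLE.hasFDerivAt.comp τ (h.hasFDerivAt.restrictScalars ℝ)).fderiv
  rw [W, show (fun x => (starRingEnd ℂ) (a x)) = conjCLE ∘ a from rfl, this, single_I]
  simp only [ContinuousLinearMap.comp_apply, ContinuousLinearMap.coe_restrictScalars', map_smul,
    smul_eq_mul, ContinuousLinearEquiv.coe_coe, conjCLE_apply, map_mul, conj_I]
  linear_combination ((starRingEnd ℂ) (fderiv ℂ a τ (Pi.single l 1)) / 2) * I_mul_I

lemma W_pow (h : DifferentiableAt ℝ a τ) (n : ℕ) :
    a τ * W l (fun x => a x ^ n) τ = n * a τ ^ n * W l a τ := by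
  induction n with
  | zero => simp [W_const]
  | succ n ih =>
    simp only [pow_succ]
    rw [W_mul (h.fun_pow n) h]
    push_cast
    linear_combination a τ * ih

lemma W_norm (h : DifferentiableAt ℂ a τ) {p : ℝ} (hp : 1 < p) :
    a τ * W l (fun x => ((‖a x‖ ^ p : ℝ) : ℂ)) τ = p / 2 * ((‖a τ‖ ^ p : ℝ) : ℂ) * W l a τ := by
  have h1 := (ofRealCLM.hasFDerivAt.comp τ ((hasFDerivAt_norm_rpow (a τ) hp).comp τ
    (h.hasFDerivAt.restrictScalars ℝ))).fderiv
  rw [W_holo h, W, show (fun x => ((‖a x‖ ^ p : ℝ) : ℂ)) =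
    ofRealCLM ∘ (fun x : ℂ => ‖x‖ ^ p) ∘ a from rfl, h1, single_I]
  simp only [ContinuousLinearMap.comp_apply, ContinuousLinearMap.coe_restrictScalars', map_smul,
    smul_eq_mul, ContinuousLinearMap.smul_apply, innerSL_apply_apply, ofRealCLM_apply,
    Complex.inner]
  generalize fderiv ℂ a τ (Pi.single l 1) = z
  have h2 : ‖a τ‖ ^ p = ‖a τ‖ ^ (p - 2) * normSq (a τ) := by
    rw [normSq_eq_norm_sq, ← Real.rpow_natCast, ← Real.rpow_add' (norm_nonneg _) (by simp; linarith)]
    simp
  have h3 := re_add_im (z * (starRingEnd ℂ) (a τ))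
  have h4 : (I * z * (starRingEnd ℂ) (a τ)).re = -(z * (starRingEnd ℂ) (a τ)).im := by
    rw [mul_assoc, I_mul_re]
  rw [h2, h4]
  simp only [ofReal_mul, ofReal_neg, ← mul_conj]
  linear_combination (a τ * p * ((‖a τ‖ ^ (p - 2) : ℝ) : ℂ) / 2) * h3

lemma W_eval {ν : Type} [Fintype ν] (y : (σ → ℂ) → ν → ℂ)
    (hy : ∀ v, DifferentiableAt ℝ (fun x => y x v) τ) (G : MvPolynomial ν ℂ) :
    DifferentiableAt ℝ (fun x => MvPolynomial.eval (y x) G) τ ∧
      W l (fun x => MvPolynomial.eval (y x) G) τ =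
        ∑ v, MvPolynomial.eval (y τ) (MvPolynomial.pderiv v G) * W l (fun x => y x v) τ := by
  classical
  induction G using MvPolynomial.induction_on with
  | C c => simp [W_const]
  | add p q hp hq =>
    simp only [map_add]
    exact ⟨hp.1.fun_add hq.1, by
      rw [W_add hp.1 hq.1, hp.2, hq.2]; simp [add_mul, Finset.sum_add_distrib]⟩
  | mul_X p n hp =>
    simp only [map_mul, MvPolynomial.eval_X]
    refine ⟨hp.1.fun_mul (hy n), ?_⟩
    rw [W_mul hp.1 (hy n), hp.2]
    simp only [Derivation.leibniz, smul_eq_mul, map_add, map_mul, MvPolynomial.eval_X, add_mul,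
      Finset.sum_add_distrib, MvPolynomial.pderiv_X, Pi.single_apply, apply_ite (MvPolynomial.eval _),
      map_one, map_zero, mul_ite, mul_one, mul_zero, ite_mul, zero_mul, Finset.sum_ite_eq,
      Finset.mem_univ, if_true, Finset.mul_sum, mul_assoc]

omit [DecidableEq σ] in
lemma contDiffAt_eval {ν : Type} (y : (σ → ℂ) → ν → ℂ)
    (hy : ∀ v, ContDiffAt ℝ 1 (fun x => y x v) τ) (G : MvPolynomial ν ℂ) :
    ContDiffAt ℝ 1 (fun x => MvPolynomial.eval (y x) G) τ := by
  induction G using MvPolynomial.induction_on with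
  | C c => simpa using contDiffAt_const
  | add p q hp hq => simpa using hp.add hq
  | mul_X p n hp => simpa using hp.mul (hy n)

theorem ibp_set {K B : Set (σ → ℂ)} (hK : IsCompact K) (hB : IsOpen B) (hBK : B ⊆ K)
    {g m : (σ → ℂ) → ℂ} (hg : ∀ x ∈ K, ContDiffAt ℝ 1 g x) (hm : ∀ x ∈ K, ContDiffAt ℝ 1 m x)
    (h0 : ∀ x ∈ closure B, x ∉ B → m x = 0) (l : σ) :
    IntegrableOn (W l fun x => g x * m x ^ 2) B ∧ ∫ x in B, W l (fun x => g x * m x ^ 2) x = 0 := by
  set G : (σ → ℂ) → ℂ := fun x => g x * m x ^ 2 with hG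
  have hG1 : ∀ x ∈ K, ContDiffAt ℝ 1 G x := fun x hx => (hg x hx).mul ((hm x hx).pow 2)
  have hcl : closure B ⊆ K := closure_minimal hBK hK.isClosed
  have hd : ∀ x, HasFDerivAt (B.indicator G) (B.indicator (fderiv ℝ G) x) x := by
    intro x
    by_cases hx : x ∈ B
    · rw [indicator_of_mem hx]
      refine ((hG1 x (hBK hx)).differentiableAt one_ne_zero).hasFDerivAt.congr_of_eventuallyEq ?_
      filter_upwards [hB.mem_nhds hx] with y hy using indicator_of_mem hy _
    rw [indicator_of_notMem hx]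
    by_cases hx' : x ∈ closure B
    · have h1 : HasFDerivAt G (0 : (σ → ℂ) →L[ℝ] ℂ) x := by
        have := ((hg x (hcl hx')).differentiableAt one_ne_zero).hasFDerivAt.fun_mul
          (((hm x (hcl hx')).differentiableAt one_ne_zero).hasFDerivAt.pow 2)
        refine this.congr_fderiv ?_
        ext v
        simp [h0 x hx' hx]
      rw [hasFDerivAt_iff_isLittleO_nhds_zero] at h1 ⊢
      refine Asymptotics.IsBigO.trans_isLittleO (Asymptotics.IsBigO.of_bound' ?_) h1
      filter_upwards with y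
      have : G x = 0 := by simp [hG, h0 x hx' hx]
      simpa [indicator_of_notMem hx, this] using norm_indicator_le_norm_self G (x + y)
    · refine (hasFDerivAt_const (0 : ℂ) x).congr_of_eventuallyEq ?_
      filter_upwards [isClosed_closure.isOpen_compl.mem_nhds hx'] with y hy using
        indicator_of_notMem (fun h => hy (subset_closure h)) _
  have hi : ∀ v, IntegrableOn (fun x => fderiv ℝ G x v) B := fun v =>
    (ContinuousOn.integrableOn_compact hK fun x hx =>
      (((hG1 x hx).continuousAt_fderiv one_ne_zero).clm_apply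
        continuousAt_const).continuousWithinAt).mono_set hBK
  have hz : ∀ v, ∫ x in B, fderiv ℝ G x v = 0 := fun v => by
    have e : (fun x => B.indicator (fderiv ℝ G) x v) = B.indicator fun x => fderiv ℝ G x v := by
      ext x; by_cases hx : x ∈ B <;> simp [hx]
    have := integral_bilinear_hasFDerivAt_right_eq_neg_left_of_integrable (μ := volume)
      (f := fun _ => (1 : ℂ)) (f' := fun _ => 0) (g := B.indicator G)
      (g' := B.indicator (fderiv ℝ G)) (v := v) (B := ContinuousLinearMap.mul ℝ ℂ) (by simp)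
      (by simpa [e] using (integrable_indicator_iff hB.measurableSet).2 (hi v))
      (by simpa using (integrable_indicator_iff hB.measurableSet).2
            ((ContinuousOn.integrableOn_compact hK fun x hx =>
              (hG1 x hx).continuousAt.continuousWithinAt).mono_set hBK))
      (fun x _ => hasFDerivAt_const _ _) (fun x _ => hd x)
    simpa [e, integral_indicator hB.measurableSet] using this
  refine ⟨((hi _).sub ((hi _).const_mul I)).div_const 2, ?_⟩
  simp only [W]
  rw [integral_div, integral_sub (hi _) ((hi _).const_mul I), integral_const_mul, hz, hz]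
  simp

omit [Fintype σ] [DecidableEq σ] in
theorem anal_int {Ω : Type} [MeasurableSpace Ω] (μ : Measure Ω) (L : Ω → ℝ) (u : Ω → ℂ)
    (hL : AEMeasurable L μ) (hu : AEMeasurable u μ) (s₀ : ℝ)
    (h : ∀ s, s₀ < s → Integrable (fun x => Real.exp (s * L x) * ‖u x‖) μ) :
    AnalyticOnNhd ℝ (fun s : ℝ => ∫ x, (Real.exp (s * L x) : ℂ) * u x ∂μ) (Ioi s₀) := by
  have key : ∀ v : Ω → ℝ, AEMeasurable v μ → (∀ x, |v x| ≤ ‖u x‖) →
      (∀ s, s₀ < s → Integrable (fun x => (v x).toNNReal • Real.exp (s * L x)) μ) ∧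
      AnalyticOnNhd ℝ (fun s : ℝ => ∫ x, (v x).toNNReal • Real.exp (s * L x) ∂μ) (Ioi s₀) := by
    intro v hv hle
    have k1 : ∀ s, s₀ < s → Integrable (fun x => (v x).toNNReal • Real.exp (s * L x)) μ := by
      intro s hs
      refine (h s hs).mono' (by
        simp only [NNReal.smul_def, smul_eq_mul]
        exact AEMeasurable.aestronglyMeasurable (by fun_prop)) (ae_of_all _ fun x => ?_)
      rw [NNReal.smul_def, smul_eq_mul, Real.norm_of_nonneg (by positivity), mul_comm]
      gcongr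
      exact (max_le (le_abs_self _) (abs_nonneg _)).trans (hle x)
    refine ⟨k1, ?_⟩
    have k2 : Ioi s₀ ⊆ ProbabilityTheory.integrableExpSet L
        (μ.withDensity fun x => (v x).toNNReal) := fun s hs =>
      (integrable_withDensity_iff_integrable_smul₀ hv.real_toNNReal).2 (k1 s hs)
    have := ProbabilityTheory.analyticOnNhd_mgf.mono (interior_maximal k2 isOpen_Ioi)
    refine this.congr isOpen_Ioi fun s _ => ?_
    exact integral_withDensity_eq_integral_smul₀ hv.real_toNNReal _
  obtain ⟨a1, b1⟩ := key (fun x => (u x).re) (by fun_prop) fun x => abs_re_le_norm _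
  obtain ⟨a2, b2⟩ := key (fun x => -(u x).re) (by fun_prop) fun x => by
    rw [abs_neg]; exact abs_re_le_norm _
  obtain ⟨a3, b3⟩ := key (fun x => (u x).im) (by fun_prop) fun x => abs_im_le_norm _
  obtain ⟨a4, b4⟩ := key (fun x => -(u x).im) (by fun_prop) fun x => by
    rw [abs_neg]; exact abs_im_le_norm _
  refine (((ofRealCLM.analyticOnNhd univ).comp (b1.sub b2) (mapsTo_univ _ _)).add
    (((ofRealCLM.analyticOnNhd univ).comp (b3.sub b4) (mapsTo_univ _ _)).mul
      (analyticOnNhd_const (v := I)))).congr isOpen_Ioi fun s hs => ?_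
  simp only [Pi.add_apply, Function.comp, Pi.sub_apply, ofRealCLM_apply]
  rw [← integral_sub (a1 s hs) (a2 s hs), ← integral_sub (a3 s hs) (a4 s hs),
    ← integral_complex_ofReal, ← integral_complex_ofReal, ← integral_mul_const]
  refine (integral_add ((a1 s hs).sub (a2 s hs)).ofReal
    (((a3 s hs).sub (a4 s hs)).ofReal.mul_const I)).symm.trans
    (integral_congr_ae (ae_of_all _ fun x => ?_))
  simp only [Pi.sub_apply, NNReal.smul_def, smul_eq_mul, ← sub_mul, Real.coe_toNNReal',
    max_zero_sub_max_neg_zero_eq_self]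
  change (((u x).re * Real.exp (s * L x) : ℝ) : ℂ) + (((u x).im * Real.exp (s * L x) : ℝ) : ℂ) * I = _
  simp only [ofReal_mul]
  linear_combination (Real.exp (s * L x) : ℂ) * re_add_im (u x)

lemma int_disc {t δ : ℝ} (ht : -2 < t) (hδ : 0 < δ) :
    IntegrableOn (fun z : ℂ => ‖z‖ ^ t) (Metric.ball 0 δ) ∧
      ∫ z : ℂ in Metric.ball 0 δ, ‖z‖ ^ t = 2 * Real.pi * δ ^ (t + 2) / (t + 2) := by
  refine ⟨integrableOn_ball_of_norm_le_rpow (C := 1) (α := -t) (by simp) (by simp; linarith)
    (ae_of_all _ fun z => by simp [abs_of_nonneg (Real.rpow_nonneg (norm_nonneg z) t)])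
    (Measurable.aestronglyMeasurable (by fun_prop)), ?_⟩
  have h1 := integral_fun_norm_addHaar (volume : Measure ℂ) ((Iio δ).indicator fun y : ℝ => y ^ t)
  have h2 : (fun z : ℂ => (Iio δ).indicator (fun y : ℝ => y ^ t) ‖z‖) =
      (Metric.ball 0 δ).indicator fun z : ℂ => ‖z‖ ^ t := by
    ext z; simp [indicator]
  have h3 : ∫ y in Ioi (0 : ℝ), y ^ (2 - 1) • (Iio δ).indicator (fun y : ℝ => y ^ t) y =
      ∫ y in (0 : ℝ)..δ, y ^ (t + 1) := by
    rw [intervalIntegral.integral_of_le hδ.le, integral_Ioc_eq_integral_Ioo, ← Ioi_inter_Iio,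
      ← setIntegral_indicator measurableSet_Iio]
    refine setIntegral_congr_fun measurableSet_Ioi fun y hy => ?_
    by_cases h : y < δ <;> simp [h, Real.rpow_add_one (ne_of_gt hy), mul_comm]
  rw [h2, integral_indicator measurableSet_ball, finrank_real_complex, h3,
    integral_rpow (Or.inl (by linarith)), Real.zero_rpow (by linarith)] at h1
  rw [h1, measureReal_def, Complex.volume_ball]
  simp [add_assoc, one_add_one_eq_two]
  ring

omit [DecidableEq σ] in
lemma int_poly {t : σ → ℝ} {δ : ℝ} (ht : ∀ l, -2 < t l) (hδ : 0 < δ) :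
    IntegrableOn (fun x : σ → ℂ => ∏ l, ‖x l‖ ^ t l) (Metric.ball 0 δ) ∧
      ∫ x : σ → ℂ in Metric.ball 0 δ, ∏ l, ‖x l‖ ^ t l =
        ∏ l, 2 * Real.pi * δ ^ (t l + 2) / (t l + 2) := by
  rw [IntegrableOn, ball_pi _ hδ, volume_pi, Measure.restrict_pi_pi]
  exact ⟨Integrable.fintype_prod (f := fun l (z : ℂ) => ‖z‖ ^ t l) fun l => (int_disc (ht l) hδ).1,
    (integral_fintype_prod_eq_prod fun l (z : ℂ) => ‖z‖ ^ t l).trans
      (Finset.prod_congr rfl fun l _ => (int_disc (ht l) hδ).2)⟩

end Pool.Agent.MP_ee8c61_ag.H10
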