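import Mathlib
import Pool.Agent.MP_ee8c61_ag.H10.Core2
import Pool.Agent.MP_ee8c61_ag.H10.Wirt

/-! The functional equation for archimedean zeta functions localised on the blow-up. -/

namespace Pool.Agent.MP_ee8c61_ag.H10

open MeasureTheory Set Filter Topology Complex ComplexConjugate

variable {σ κ ν : Type} [Fintype σ] [DecidableEq σ] [Fintype κ] [Fintype ν]

omit [DecidableEq σ] in
lemma cd_conj {a : (σ → ℂ) → ℂ} {τ : σ → ℂ} (h : ContDiffAt ℝ 1 a τ) :
    ContDiffAt ℝ 1 (fun x => conj (a x)) τ := conjCLE.contDiff.contDiffAt.comp τ h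

omit [DecidableEq σ] in
lemma an_eval (p : MvPolynomial σ ℂ) (x : σ → ℂ) :
    AnalyticAt ℂ (fun x : σ → ℂ => MvPolynomial.eval x p) x :=
  AnalyticOnNhd.eval_mvPolynomial p x trivial

omit [DecidableEq σ] in
lemma cd_eval (p : MvPolynomial σ ℂ) (x : σ → ℂ) :
    ContDiffAt ℝ 1 (fun x : σ → ℂ => MvPolynomial.eval x p) x :=
  (an_eval p x).contDiffAt.restrict_scalars ℝ

/-- Bounded continuous functions on a set. -/
def Bd (B : Set (σ → ℂ)) : Subring ((σ → ℂ) → ℂ) where
  carrier := {a | ContinuousOn a B ∧ ∃ C, ∀ x ∈ B, ‖a x‖ ≤ C}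
  zero_mem' := ⟨continuousOn_const, 0, by simp⟩
  one_mem' := ⟨continuousOn_const, 1, by simp⟩
  neg_mem' := fun ⟨h, C, hC⟩ => ⟨h.neg, C, by simpa using hC⟩
  add_mem' := fun ⟨h, C, hC⟩ ⟨h', C', hC'⟩ =>
    ⟨h.add h', C + C', fun x hx => norm_add_le_of_le (hC x hx) (hC' x hx)⟩
  mul_mem' := fun ⟨h, C, hC⟩ ⟨h', C', hC'⟩ =>
    ⟨h.mul h', C * C', fun x hx => norm_mul_le_of_le (hC x hx) (hC' x hx)⟩

theorem arch (f : κ → MvPolynomial σ ℂ) (b : Polynomial ℂ) (hb : IsBS f b) {K B : Set (σ → ℂ)}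
    (hK : IsCompact K) (hB : IsOpen B) (hBK : B ⊆ K) (g₀ : MvPolynomial σ ℂ)
    (hg₀ : g₀ ∈ Ideal.span (range f)) (F : (σ → ℂ) → ℂ) (hF : F = fun x => MvPolynomial.eval x g₀)
    (hF0 : ∀ x ∈ B, F x ≠ 0) (ht : ∀ j, ∃ C, ∀ x ∈ B, ‖MvPolynomial.eval x (f j) / F x‖ ≤ C)
    (g : ν → MvPolynomial σ ℂ) (hg : ∀ v, g v ∈ Ideal.span (range f)) (ε : ℂ) (q : (σ → ℂ) → ℂ)
    (hq : q = fun x => ε - ∑ v, MvPolynomial.eval x (g v) / F x *
      conj (MvPolynomial.eval x (g v) / F x)) (h0 : ∀ x ∈ closure B, x ∉ B → F x ≠ 0 → q x = 0)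
    (c : ℝ) (hint : ∀ s, -c < s → IntegrableOn (fun x => ‖F x‖ ^ (2 * s)) B) :
    ∃ (n : ℕ) (T : ℝ → ℂ), ContinuousAt T (-c) ∧ ∀ s, -c < s → b.eval (s : ℂ) *
      ∫ x in B, ((‖F x‖ ^ (2 * s) : ℝ) : ℂ) * q x ^ n = T s := by
  classical
  set L : (σ → ℂ) → ℝ := fun x => 2 * Real.log ‖F x‖ with hL
  set h : ν → (σ → ℂ) → ℂ := fun v x => MvPolynomial.eval x (g v) / F x with hh
  have aF : ∀ x, AnalyticAt ℂ F x := fun x => hF ▸ an_eval g₀ x
  have dF : ∀ x, ContDiffAt ℝ 1 F x := fun x => hF ▸ cd_eval g₀ x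
  have ah : ∀ v, ∀ x ∈ B, AnalyticAt ℂ (h v) x := fun v x hx =>
    (an_eval _ x).fun_div (aF x) (hF0 x hx)
  have dh : ∀ v, ∀ x ∈ B, ContDiffAt ℝ 1 (h v) x := fun v x hx =>
    (ah v x hx).contDiffAt.restrict_scalars ℝ
  have dq : ∀ x ∈ B, ContDiffAt ℝ 1 q x := fun x hx => hq ▸ contDiffAt_const.sub
    (ContDiffAt.sum fun v _ => (dh v x hx).mul (cd_conj (dh v x hx)))
  have bK : ∀ {a : (σ → ℂ) → ℂ}, (∀ x, ContDiffAt ℝ 1 a x) → a ∈ Bd B := fun ha => by
    have : ContinuousOn _ K := fun x _ => (ha x).continuousAt.continuousWithinAt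
    obtain ⟨C, hC⟩ := hK.exists_bound_of_continuousOn this
    exact ⟨this.mono hBK, C, fun x hx => hC x (hBK hx)⟩
  have bt : ∀ j, (fun x => MvPolynomial.eval x (f j) / F x) ∈ Bd B := fun j =>
    ⟨fun x hx => ((an_eval _ x).fun_div (aF x) (hF0 x hx)).continuousAt.continuousWithinAt, ht j⟩
  have bh : ∀ v, h v ∈ Bd B := fun v => by
    obtain ⟨r, hr⟩ := Ideal.mem_span_range_iff_exists_fun.1 (hg v)
    have : h v = ∑ j, (fun x => MvPolynomial.eval x (r j)) *
        fun x => MvPolynomial.eval x (f j) / F x := by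
      funext x; simp [hh, ← hr, Finset.sum_div, mul_div_assoc]
    exact this ▸ sum_mem fun j _ => mul_mem (bK (cd_eval _)) (bt j)
  have bc : ∀ v, (fun x => conj (h v x)) ∈ Bd B := fun v =>
    ⟨continuous_conj.comp_continuousOn (bh v).1, by simpa only [Complex.norm_conj] using (bh v).2⟩
  have bq : q ∈ Bd B := by
    have : q = (fun _ => ε) - ∑ v, h v * fun x => conj (h v x) := by
      funext x; simp only [hq, Pi.sub_apply, Finset.sum_apply, Pi.mul_apply, hh]
    exact this ▸ sub_mem (bK fun _ => contDiffAt_const) (sum_mem fun v _ => mul_mem (bh v) (bc v))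
  have cF := (bK dF).1
  have mL : AEMeasurable L (volume.restrict B) :=
    (cF.aemeasurable hB.measurableSet).norm.log.const_mul 2
  have eL : ∀ s, ∀ x ∈ B, Real.exp (s * L x) = ‖F x‖ ^ (2 * s) := fun s x hx => by
    rw [Real.rpow_def_of_pos (norm_pos_iff.2 (hF0 x hx))]
    congr 1; simp only [hL]; ring
  have an : ∀ (a : (σ → ℂ) → ℂ) (k : ℕ), a ∈ Bd B →
      (∀ s, -c - k / 2 < s → IntegrableOn
        (fun x => (Real.exp (s * L x) : ℂ) * (F x ^ k * a x)) B) ∧
      AnalyticOnNhd ℝ (fun s : ℝ => ∫ x in B, (Real.exp (s * L x) : ℂ) * (F x ^ k * a x))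
        (Ioi (-c - k / 2)) := by
    rintro a k ⟨ha, C, hC⟩
    have mu : AEMeasurable (fun x => F x ^ k * a x) (volume.restrict B) :=
      ((cF.pow k).mul ha).aemeasurable hB.measurableSet
    have k1 : ∀ s, -c - k / 2 < s → IntegrableOn
        (fun x => Real.exp (s * L x) * ‖F x ^ k * a x‖) B := by
      intro s hs
      refine ((hint (s + k / 2) (by linarith)).mul_const C).mono'
        (AEMeasurable.aestronglyMeasurable (by fun_prop))
        ((ae_restrict_iff' hB.measurableSet).2 (ae_of_all _ fun x hx => ?_))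
      rw [Real.norm_of_nonneg (by positivity), eL _ x hx, mul_add,
        Real.rpow_add (norm_pos_iff.2 (hF0 x hx)), show 2 * ((k : ℝ) / 2) = k by ring,
        Real.rpow_natCast, norm_mul, norm_pow, mul_assoc]
      gcongr
      exact hC x hx
    refine ⟨fun s hs => (k1 s hs).mono' (AEMeasurable.aestronglyMeasurable (by fun_prop))
      (ae_of_all _ fun x => by
        rw [norm_mul, Complex.norm_real, Real.norm_of_nonneg (Real.exp_pos _).le]),
      anal_int _ L _ mL mu _ k1⟩
  let y : (σ → ℂ) → σ ⊕ ν → ℂ := fun x => Sum.elim x fun v => conj (h v x)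
  have dx : ∀ i x, ContDiffAt ℝ 1 (fun x : σ → ℂ => x i) x := fun i x => contDiffAt_apply ℝ ℂ i x
  have dy : ∀ x ∈ B, ∀ v, ContDiffAt ℝ 1 (fun x => y x v) x := by
    rintro x hx (i | v)
    exacts [dx i x, cd_conj (dh v x hx)]
  have by' : ∀ p, (fun x => MvPolynomial.eval (y x) p) ∈ Bd B := by
    intro p
    induction p using MvPolynomial.induction_on with
    | C c => simpa using bK fun _ => contDiffAt_const
    | add p q hp hq => simp only [map_add]; exact add_mem hp hq
    | mul_X p n hp =>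
      have : (fun x => y x n) ∈ Bd B := by
        rcases n with i | v
        exacts [bK (dx i), bc v]
      simp only [map_mul, MvPolynomial.eval_X]
      exact mul_mem hp this
  have cy : ∀ p, ∃ (M : ℕ) (a : (σ → ℂ) → ℂ), (∀ x, ContDiffAt ℝ 1 a x) ∧
      ∀ x ∈ B, MvPolynomial.eval (y x) p * conj (F x) ^ M = a x := by
    intro p
    induction p using MvPolynomial.induction_on with
    | C c => exact ⟨0, fun _ => c, fun _ => contDiffAt_const, by simp⟩
    | add p q hp hq =>
      obtain ⟨M, a, h1, h2⟩ := hp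
      obtain ⟨M', a', h3, h4⟩ := hq
      refine ⟨M + M', fun x => a x * conj (F x) ^ M' + a' x * conj (F x) ^ M, fun x =>
        ((h1 x).mul ((cd_conj (dF x)).pow _)).add ((h3 x).mul ((cd_conj (dF x)).pow _)),
        fun x hx => ?_⟩
      simp only [map_add, ← h2 x hx, ← h4 x hx]
      ring
    | mul_X p n hp =>
      obtain ⟨M, a, h1, h2⟩ := hp
      rcases n with i | v
      · refine ⟨M, fun x => a x * x i, fun x => (h1 x).mul (dx i x), fun x hx => ?_⟩
        simp only [map_mul, MvPolynomial.eval_X, ← h2 x hx, y, Sum.elim_inl]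
        ring
      · refine ⟨M + 1, fun x => a x * conj (MvPolynomial.eval x (g v)), fun x =>
          (h1 x).mul (cd_conj (cd_eval _ x)), fun x hx => ?_⟩
        have : conj (F x) ≠ 0 := by simpa using hF0 x hx
        simp only [map_mul, MvPolynomial.eval_X, ← h2 x hx, y, Sum.elim_inr, hh, map_div₀]
        field_simp
        ring
  have ey : ∀ x p, MvPolynomial.eval (y x) (MvPolynomial.rename Sum.inl p) =
      MvPolynomial.eval x p := fun x p => MvPolynomial.eval_rename _ _ _
  let f' : κ → MvPolynomial (σ ⊕ ν) ℂ := fun j => MvPolynomial.rename Sum.inl (f j)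
  have hI : ∀ p ∈ Ideal.span (range f), MvPolynomial.rename Sum.inl p ∈ Ideal.span (range f') := by
    intro p hp
    obtain ⟨a, rfl⟩ := Ideal.mem_span_range_iff_exists_fun.1 hp
    rw [map_sum]
    exact Ideal.sum_mem _ fun j _ => by
      rw [map_mul]; exact Ideal.mul_mem_left _ _ (Ideal.subset_span ⟨j, rfl⟩)
  let g' : Fin 2 → MvPolynomial (σ ⊕ ν) ℂ := ![MvPolynomial.rename Sum.inl g₀,
    MvPolynomial.C ε * MvPolynomial.rename Sum.inl g₀ -
      ∑ v, MvPolynomial.rename Sum.inl (g v) * MvPolynomial.X (Sum.inr v)]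
  have hgF : ∀ x, MvPolynomial.eval x g₀ = F x := fun x => by rw [hF]
  have ew : ∀ x ∈ B, ∀ (j : Fin 2 → ℕ) (m n : ℕ), MvPolynomial.eval (y x) (wf g' j ![m, n]) =
      (m.descFactorial (j 0) * n.descFactorial (j 1) : ℂ) *
        (q x ^ (n - j 1) * F x ^ (m - j 0 + (n - j 1))) := by
    intro x hx j m n
    have : MvPolynomial.eval (y x) (g' 1) = F x * q x := by
      simp only [g', Matrix.cons_val_one, Matrix.cons_val_zero, map_sub, map_mul, map_sum, ey,
        MvPolynomial.eval_C, MvPolynomial.eval_X, hgF, hq, mul_sub, Finset.mul_sum, mul_comm ε,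
        ← mul_assoc, mul_div_cancel₀ _ (hF0 x hx)]
      rfl
    simp only [wf, Fin.prod_univ_two, map_mul, map_pow, map_natCast, this, Matrix.cons_val_zero,
      Matrix.cons_val_one]
    simp only [g', Matrix.cons_val_zero, ey, hgF]
    ring
  have ep : ∀ (n : ℕ), ∀ p ∈ Ideal.span (range f') ^ n, ∃ a ∈ Bd B,
      ∀ x ∈ B, MvPolynomial.eval (y x) p = F x ^ n * a x := by
    intro n
    induction n with
    | zero => exact fun p _ => ⟨_, by' p, by simp⟩
    | succ n ih =>
      intro p hp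
      rw [pow_succ] at hp
      refine Submodule.mul_induction_on hp (fun a ha b hb => ?_) ?_
      · obtain ⟨a', h1, h2⟩ := ih a ha
        obtain ⟨r, rfl⟩ := Ideal.mem_span_range_iff_exists_fun.1 hb
        refine ⟨_, mul_mem h1 (sum_mem (t := Finset.univ) fun j _ => mul_mem (by' (r j)) (bt j)),
          fun x hx => ?_⟩
        simp only [map_mul, map_sum, h2 x hx, f', ey, Finset.mul_sum, Pi.mul_apply,
          Finset.sum_apply]
        have := hF0 x hx
        exact Finset.sum_congr rfl fun j _ => by field_simp; ring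
      · rintro a b ⟨a', h1, h2⟩ ⟨b', h3, h4⟩
        exact ⟨a' + b', add_mem h1 h3, fun x hx => by
          rw [map_add, h2 x hx, h4 x hx, Pi.add_apply, mul_add]⟩
  let Z : Submodule ℂ ((Fin 2 → ℕ) → MvPolynomial (σ ⊕ ν) ℂ) :=
    { carrier := {Φ | ∃ n₀ : ℕ, ∀ n, n₀ ≤ n → ∃ G : (σ → ℂ) → Polynomial ℂ,
        (∀ m, n₀ ≤ m → ∀ x ∈ B, MvPolynomial.eval (y x) (Φ ![m, n]) =
          F x ^ (m + n) * (G x).eval ((m : ℂ) + n)) ∧
        ∃ T, AnalyticOnNhd ℝ T (Ioi (-c - 1 / 2)) ∧ ∀ᶠ s : ℝ in atTop,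
          IntegrableOn (fun x => (Real.exp (s * L x) : ℂ) * (G x).eval (s : ℂ)) B ∧
          ∫ x in B, (Real.exp (s * L x) : ℂ) * (G x).eval (s : ℂ) = T s}
      zero_mem' := ⟨0, fun n _ => ⟨0, by simp, 0, analyticOnNhd_const, by simp⟩⟩
      add_mem' := by
        rintro Φ Φ' ⟨n₀, h1⟩ ⟨n₁, h2⟩
        refine ⟨max n₀ n₁, fun n hn => ?_⟩
        obtain ⟨G, a1, T, a2, a3⟩ := h1 n (le_of_max_le_left hn)
        obtain ⟨G', b1, T', b2, b3⟩ := h2 n (le_of_max_le_right hn)
        refine ⟨G + G', fun m hm x hx => ?_, T + T', a2.add b2, ?_⟩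
        · simp only [Pi.add_apply, map_add, mul_add, a1 m (le_of_max_le_left hm) x hx,
            b1 m (le_of_max_le_right hm) x hx, Polynomial.eval_add]
        · filter_upwards [a3, b3] with s a3 b3
          simp only [Pi.add_apply, Polynomial.eval_add, mul_add]
          exact ⟨a3.1.add b3.1, by rw [integral_add a3.1 b3.1, a3.2, b3.2]⟩
      smul_mem' := by
        rintro r Φ ⟨n₀, h1⟩
        refine ⟨n₀, fun n hn => ?_⟩
        obtain ⟨G, a1, T, a2, a3⟩ := h1 n hn
        refine ⟨r • G, fun m hm x hx => ?_, fun s => r * T s, analyticOnNhd_const.mul a2, ?_⟩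
        · simp only [Pi.smul_apply, MvPolynomial.smul_eval, Polynomial.eval_smul, smul_eq_mul,
            mul_left_comm _ r, a1 m hm x hx]
        · filter_upwards [a3] with s a3
          simp only [Pi.smul_apply, Polynomial.eval_smul, smul_eq_mul, mul_left_comm _ r]
          exact ⟨a3.1.const_mul r, by rw [integral_const_mul, a3.2]⟩ }
  have pa : ∀ P : Polynomial ℂ, ∀ U, AnalyticOnNhd ℝ (fun s : ℝ => P.eval (s : ℂ)) U := fun P U =>
    ((AnalyticOnNhd.eval_polynomial (𝕜 := ℝ) P).comp (ofRealCLM.analyticOnNhd U) (mapsTo_univ _ _) :)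
  have ed : ∀ (j m n : ℕ), ((descPochhammer ℂ j).comp (Polynomial.X - Polynomial.C (n : ℂ))).eval
      ((m : ℂ) + n) = m.descFactorial j := fun j m n => by
    simp [Polynomial.eval_comp, descPochhammer_eval_eq_descFactorial]
  have main := core_par f b hb Sum.inl Sum.inl_injective f' (fun _ => rfl) g' (fun _ => 1) ?_ Z ?_ ?_
  · obtain ⟨n, h1⟩ := main
    obtain ⟨G, a1, T, a2, a3⟩ := h1 n le_rfl
    have e1 : ∀ x ∈ B, G x = b * Polynomial.C (F x ^ 0 * (q ^ n) x) := fun x hx => by
      refine Polynomial.eq_of_infinite_eval_eq _ _ (infinite_of_injective_forall_mem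
        (f := fun m : ℕ => ((n + m : ℕ) : ℂ) + n) (fun _ _ h => by simpa using h) fun m => ?_)
      have := a1 (n + m) (by omega) x hx
      rw [map_mul, ew x hx] at this
      apply mul_left_cancel₀ (pow_ne_zero (n + m + n) (hF0 x hx))
      rw [← this]
      simp [Fin.sum_univ_two]
      ring
    obtain ⟨b1, b2⟩ := an (q ^ n) 0 (pow_mem bq n)
    simp only [Nat.cast_zero, zero_div, sub_zero] at b1 b2
    obtain ⟨s₁, a3⟩ := eventually_atTop.1 a3
    have := ((pa b _).mul b2).eqOn_of_preconnected_of_eventuallyEq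
      (a2.mono (Ioi_subset_Ioi (by linarith))) isPreconnected_Ioi (z₀ := max s₁ (-c) + 1)
      (mem_Ioi.2 (by linarith [le_max_right s₁ (-c)])) (by
        filter_upwards [Ioi_mem_nhds (show s₁ < max s₁ (-c) + 1 by linarith [le_max_left s₁ (-c)])]
          with s hs
        rw [← (a3 s (le_of_lt hs)).2, ← integral_const_mul]
        refine setIntegral_congr_fun hB.measurableSet fun x hx => ?_
        simp only [e1 x hx, Polynomial.eval_mul, Polynomial.eval_C]
        ring)
    refine ⟨n, T, (a2 _ (by simp)).continuousAt, fun s hs => ?_⟩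
    rw [← this hs]
    refine congrArg _ (setIntegral_congr_fun hB.measurableSet fun x hx => ?_)
    simp only [eL s x hx, pow_zero, one_mul, Pi.pow_apply]
  · intro l
    rw [pow_one]
    fin_cases l
    · exact hI _ hg₀
    · exact sub_mem (Ideal.mul_mem_left _ _ (hI _ hg₀))
        (Ideal.sum_mem _ fun v _ => Ideal.mul_mem_right _ _ (hI _ (hg v)))
  · intro j p hp
    obtain ⟨a, a1, a2⟩ := ep _ p hp
    refine ⟨j 0 + j 1, fun n hn => ?_⟩
    obtain ⟨b1, b2⟩ := an (n.descFactorial (j 1) * a * q ^ (n - j 1)) 1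
      (mul_mem (mul_mem (natCast_mem _ _) a1) (pow_mem bq _))
    refine ⟨fun x => (descPochhammer ℂ (j 0)).comp (Polynomial.X - Polynomial.C (n : ℂ)) *
      Polynomial.C (F x ^ 1 * (n.descFactorial (j 1) * a * q ^ (n - j 1)) x),
      fun m hm x hx => ?_, _, (pa ((descPochhammer ℂ (j 0)).comp
        (Polynomial.X - Polynomial.C (n : ℂ))) _).mul (by simpa only [Nat.cast_one] using b2), ?_⟩
    · obtain ⟨m, rfl⟩ : ∃ m', m = j 0 + m' := ⟨m - j 0, by omega⟩
      obtain ⟨n, rfl⟩ : ∃ n', n = j 1 + n' := ⟨n - j 1, by omega⟩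
      rw [map_mul, ew x hx, a2 x hx, Polynomial.eval_mul, ed, Polynomial.eval_C]
      simp only [Fin.sum_univ_two, Nat.add_sub_cancel_left, Pi.mul_apply, Pi.pow_apply,
        Pi.natCast_apply]
      ring
    · filter_upwards [eventually_gt_atTop (-c - (1 : ℕ) / 2)] with s hs
      simp only [Polynomial.eval_mul, Polynomial.eval_C, mul_left_comm _ (Polynomial.eval _ _)]
      exact ⟨(b1 s hs).const_mul _, integral_const_mul _ _⟩
  · intro i j p
    refine ⟨j 0 + j 1 + 2, fun n hn => ?_⟩
    obtain ⟨n, rfl⟩ : ∃ n', n = j 1 + (n' + 2) := ⟨n - j 1 - 2, by omega⟩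
    set d := j 0 + j 1 with hd
    let a : (σ → ℂ) → ℂ := fun x => MvPolynomial.eval (y x) p * q x ^ (n + 2)
    have da : ∀ x ∈ B, ContDiffAt ℝ 1 a x := fun x hx =>
      (contDiffAt_eval y (dy x hx) p).mul ((dq x hx).pow _)
    have df : ∀ {a : (σ → ℂ) → ℂ} {x}, ContDiffAt ℝ 1 a x → DifferentiableAt ℝ a x :=
      fun h => h.differentiableAt one_ne_zero
    refine ⟨fun x => (descPochhammer ℂ (j 0)).comp (Polynomial.X -
      Polynomial.C ((j 1 + (n + 2) : ℕ) : ℂ)) * Polynomial.C ((j 1 + (n + 2)).descFactorial (j 1) : ℂ) *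
      (Polynomial.C ((F x ^ d)⁻¹ * W i a x) +
        (Polynomial.X - Polynomial.C (d : ℂ)) * Polynomial.C ((F x ^ d)⁻¹ * (F x)⁻¹ * a x *
          W i F x)), fun m hm x hx => ?_, 0, analyticOnNhd_const, ?_⟩
    · obtain ⟨m, rfl⟩ : ∃ m', m = j 0 + m' := ⟨m - j 0, by omega⟩
      have k1 : ∀ G : MvPolynomial (σ ⊕ ν) ℂ, MvPolynomial.eval (y x)
          (MvPolynomial.pderiv (Sum.inl i) G) = W i (fun x => MvPolynomial.eval (y x) G) x := by
        intro G
        have k2 : ∀ i', W i (fun x => y x (Sum.inl i')) x = (Pi.single i 1 : σ → ℂ) i' := fun i' => by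
          refine (W_holo (differentiableAt_apply i' x)).trans ?_
          rw [(hasFDerivAt_apply i' x).fderiv]
          rfl
        have k3 : ∀ v, W i (fun x => y x (Sum.inr v)) x = 0 := fun v =>
          W_conj (ah v x hx).differentiableAt
        simp [(W_eval y (fun v => df (dy x hx v)) G).2, k2, k3, Pi.single_apply]
      have k5 : F x * W i (fun x => MvPolynomial.eval (y x)
          (p * wf g' j ![j 0 + m, j 1 + (n + 2)])) x =
          ((j 0 + m).descFactorial (j 0) * (j 1 + (n + 2)).descFactorial (j 1) : ℂ) *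
            F x ^ (m + (n + 2)) * (F x * W i a x + (m + (n + 2) : ℕ) * a x * W i F x) := by
        rw [W_congr (a' := fun x => ((j 0 + m).descFactorial (j 0) *
            (j 1 + (n + 2)).descFactorial (j 1) : ℂ) * (a x * F x ^ (m + (n + 2)))) (by
          filter_upwards [hB.mem_nhds hx] with z hz
          rw [map_mul, ew z hz]
          simp only [Nat.add_sub_cancel_left, a]
          ring), W_mul (differentiableAt_const _) ((df (da x hx)).fun_mul
            ((df (dF x)).fun_pow _)), W_const, W_mul (df (da x hx)) ((df (dF x)).fun_pow _)]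
        linear_combination ((j 0 + m).descFactorial (j 0) *
          (j 1 + (n + 2)).descFactorial (j 1) : ℂ) * a x * W_pow (l := i) (df (dF x)) (m + (n + 2))
      have := hF0 x hx
      apply mul_left_cancel₀ this
      rw [k1, k5]
      simp only [Polynomial.eval_mul, ed, Polynomial.eval_C,
        Polynomial.eval_add, Polynomial.eval_sub, Polynomial.eval_X, hd]
      push_cast
      field_simp
      ring
    · obtain ⟨M, A, A1, A2⟩ := cy p
      filter_upwards [eventually_gt_atTop ((d + M + n + 4 : ℕ) + 1 : ℝ)] with s hs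
      have hp : 1 < 2 * (s - (d + M + n + 4 : ℕ)) := by linarith
      obtain ⟨N, hN⟩ : ∃ N : (σ → ℂ) → ℂ,
        N = fun x => ((‖F x‖ ^ (2 * (s - (d + M + n + 4 : ℕ))) : ℝ) : ℂ) := ⟨_, rfl⟩
      have dN : ∀ x, ContDiffAt ℝ 1 N x := fun x => hN ▸ ofRealCLM.contDiff.contDiffAt.comp x
          ((contDiff_norm_rpow hp).contDiffAt.comp x (dF x))
      obtain ⟨Q, hQ⟩ : ∃ Q : (σ → ℂ) → ℂ, Q = fun x => ε * (F x * conj (F x)) -
        ∑ v, MvPolynomial.eval x (g v) * conj (MvPolynomial.eval x (g v)) := ⟨_, rfl⟩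
      have dQ : ∀ x, ContDiffAt ℝ 1 Q x := fun x => hQ ▸
        (contDiffAt_const.mul ((dF x).mul (cd_conj (dF x)))).sub
          (ContDiffAt.sum fun v _ => (cd_eval _ x).mul (cd_conj (cd_eval _ x)))
      have eQ : ∀ x, F x ≠ 0 → Q x = F x * conj (F x) * q x := fun x hx => by
        have : conj (F x) ≠ 0 := by simpa using hx
        simp only [hQ, hq, mul_sub, Finset.mul_sum, map_div₀]
        congr 1
        · ring
        · exact Finset.sum_congr rfl fun v _ => by field_simp
      have k1 := ibp_set hK hB hBK (g := fun x => N x * A x * Q x ^ n * F x ^ M * conj (F x) ^ (d + 2))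
        (m := fun x => Q x * F x)
        (fun x _ => ((((dN x).mul (A1 x)).mul ((dQ x).pow _)).mul ((dF x).pow _)).mul
          ((cd_conj (dF x)).pow _)) (fun x _ => (dQ x).mul (dF x)) (fun x hx hx' => by
          by_cases h1 : F x = 0
          · exact mul_eq_zero_of_right _ h1
          · simp [eQ x h1, h0 x hx hx' h1]) i
      have k2 : EqOn (fun x => (((descPochhammer ℂ (j 0)).comp (Polynomial.X -
          Polynomial.C ((j 1 + (n + 2) : ℕ) : ℂ))).eval (s : ℂ) *
            ((j 1 + (n + 2)).descFactorial (j 1) : ℂ)) * W i (fun x =>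
          N x * A x * Q x ^ n * F x ^ M * conj (F x) ^ (d + 2) * (Q x * F x) ^ 2) x)
          (fun x => (Real.exp (s * L x) : ℂ) * ((descPochhammer ℂ (j 0)).comp
            (Polynomial.X - Polynomial.C ((j 1 + (n + 2) : ℕ) : ℂ)) *
            Polynomial.C ((j 1 + (n + 2)).descFactorial (j 1) : ℂ) *
          (Polynomial.C ((F x ^ d)⁻¹ * W i a x) +
          (Polynomial.X - Polynomial.C (d : ℂ)) * Polynomial.C ((F x ^ d)⁻¹ * (F x)⁻¹ * a x *
          W i F x))).eval (s : ℂ)) B := by
        intro x hx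
        have hne := hF0 x hx
        have d1 := df (cd_conj ((dF x).pow (d + M + n + 4)))
        have d3 := df (da x hx)
        have d4 := (df (dF x)).fun_pow (M + n + 4)
        have d5 := df (dN x)
        have k3 : F x * W i (fun x =>
            N x * A x * Q x ^ n * F x ^ M * conj (F x) ^ (d + 2) * (Q x * F x) ^ 2) x =
            conj (F x) ^ (d + M + n + 4) * F x ^ (M + n + 4) * N x *
                (F x * W i a x + (s - d) * a x * W i F x) := by
          rw [W_congr (a' := fun x => conj (F x ^ (d + M + n + 4)) *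
              (a x * (F x ^ (M + n + 4) * N x))) (by
              filter_upwards [hB.mem_nhds hx] with z hz
              simp only [a, map_pow, ← A2 z hz, eQ z (hF0 z hz)]
              ring),
            W_mul d1 (d3.fun_mul (d4.fun_mul d5)),
            W_conj ((aF x).differentiableAt.fun_pow (d + M + n + 4)),
            W_mul d3 (d4.fun_mul d5), W_mul d4 d5]
          have k4 := W_pow (l := i) (df (dF x)) (M + n + 4)
          have k5 : F x * W i N x = (2 * (s - (d + M + n + 4 : ℕ)) : ℝ) / 2 * N x * W i F x := by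
            rw [hN]; exact W_norm (aF x).differentiableAt hp
          simp only [map_pow]
          push_cast at k4 k5 ⊢
          linear_combination (conj (F x) ^ (d + M + n + 4) * a x) *
            (N x * k4 + F x ^ (M + n + 4) * k5)
        have k6 : (Real.exp (s * L x) : ℂ) =
            conj (F x) ^ (d + M + n + 4) * F x ^ (d + M + n + 4) * N x := by
          rw [eL s x hx, ← mul_pow, mul_comm (conj _), mul_conj, normSq_eq_norm_sq, hN]
          beta_reduce
          generalize d + M + n + 4 = r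
          norm_cast
          rw [← pow_mul, ← Real.rpow_natCast, ← Real.rpow_add (norm_pos_iff.2 hne)]
          congr 1
          push_cast
          ring
        apply mul_left_cancel₀ hne
        simp only [mul_left_comm (F x), k3, k6, Polynomial.eval_mul,
          Polynomial.eval_C, Polynomial.eval_add, Polynomial.eval_sub, Polynomial.eval_X]
        field_simp
        ring
      refine ⟨IntegrableOn.congr_fun (k1.1.const_mul _) k2 hB.measurableSet, ?_⟩
      rw [← setIntegral_congr_fun hB.measurableSet k2, integral_const_mul, k1.2]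
      simp

end Pool.Agent.MP_ee8c61_ag.H10
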