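import Mathlib
import Pool.Agent.MP_ee8c61_ag.H10.Wirt

/-! Change of variables for finite-to-one holomorphic maps. -/

namespace Pool.Agent.MP_ee8c61_ag.H10

open MeasureTheory Set Filter Topology Complex

variable {σ : Type} [Fintype σ]

lemma det_real (L : (σ → ℂ) →L[ℂ] (σ → ℂ)) : |(L.restrictScalars ℝ).det| = ‖L.det‖ ^ 2 := by
  have : (L.restrictScalars ℝ).det = Algebra.norm ℝ L.det :=
    LinearMap.det_restrictScalars (R := ℝ) (f := (L : (σ → ℂ) →ₗ[ℂ] (σ → ℂ)))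
  rw [this, Algebra.norm_complex_apply, normSq_eq_norm_sq, abs_of_nonneg (by positivity)]

lemma pieces {φ : (σ → ℂ) → σ → ℂ} {A : Set (σ → ℂ)} (hA : MeasurableSet A)
    (hφ : ∀ x ∈ A, DifferentiableAt ℂ φ x ∧ (fderiv ℂ φ x).det ≠ 0) :
    ∃ t : ℕ → Set (σ → ℂ), Pairwise (Function.onFun Disjoint t) ∧ (∀ n, MeasurableSet (t n)) ∧
      A = ⋃ n, t n ∧ (∀ n, InjOn φ (t n)) ∧ (∀ n, MeasurableSet (φ '' t n)) ∧ ∀ n, ∀ g : _ → ℝ,
        (IntegrableOn g (φ '' t n) ↔
          IntegrableOn (fun x => ‖(fderiv ℂ φ x).det‖ ^ 2 * g (φ x)) (t n)) ∧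
        ∫ x in φ '' t n, g x = ∫ x in t n, ‖(fderiv ℂ φ x).det‖ ^ 2 * g (φ x) := by
  classical
  have hd : ∀ x ∈ A, HasFDerivAt φ ((fderiv ℂ φ x).restrictScalars ℝ) x := fun x hx =>
    (hφ x hx).1.hasFDerivAt.restrictScalars ℝ
  obtain ⟨t, L, h1, h2, h3, h4, h5⟩ := exists_partition_approximatesLinearOn_of_hasFDerivWithinAt φ A _
    (fun x hx => (hd x hx).hasFDerivWithinAt) (fun L => if h : L.det ≠ 0 then
      (‖((L.toContinuousLinearEquivOfDetNeZero h).symm : (σ → ℂ) →L[ℝ] (σ → ℂ))‖₊ + 1)⁻¹ else 1)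
    (fun L => by split_ifs <;> simp)
  have hi : ∀ n, InjOn φ (A ∩ t n) := fun n => by
    rcases A.eq_empty_or_nonempty with rfl | hne
    · simp
    obtain ⟨y, hy, e⟩ := h5 hne n
    have h : (L n).det ≠ 0 := fun h => (hφ y hy).2 (by
      have := det_real (fderiv ℂ φ y)
      rw [← e, h] at this
      simpa using this.symm)
    have := h4 n
    simp only [dif_pos h] at this
    refine ApproximatesLinearOn.injOn (f' := (L n).toContinuousLinearEquivOfDetNeZero h) this ?_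
    refine ((L n).toContinuousLinearEquivOfDetNeZero h).subsingleton_or_nnnorm_symm_pos.imp_right
      fun h' => ?_
    exact inv_strictAnti₀ h' (lt_add_one _)
  have hm := fun n => hA.inter (h2 n)
  have hw := fun n x (hx : x ∈ A ∩ t n) => (hd x hx.1).hasFDerivWithinAt (s := A ∩ t n)
  refine ⟨fun n => A ∩ t n, fun i j hij => (h1 hij).mono inter_subset_right inter_subset_right, hm,
    by rw [← inter_iUnion, inter_eq_left.2 h3], hi,
    fun n => measurable_image_of_fderivWithin (hm n) (hw n) (hi n), fun n g => ⟨?_, ?_⟩⟩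
  · simpa only [det_real, smul_eq_mul] using
      integrableOn_image_iff_integrableOn_abs_det_fderiv_smul volume (hm n) (hw n) (hi n) g
  · simpa only [det_real, smul_eq_mul] using
      integral_image_eq_integral_abs_det_fderiv_smul volume (hm n) (hw n) (hi n) g

lemma area_int {φ : (σ → ℂ) → σ → ℂ} {A : Set (σ → ℂ)} (hA : MeasurableSet A)
    (hφ : ∀ x ∈ A, DifferentiableAt ℂ φ x ∧ (fderiv ℂ φ x).det ≠ 0) {g : (σ → ℂ) → ℝ}
    (hg : IntegrableOn (fun x => ‖(fderiv ℂ φ x).det‖ ^ 2 * g (φ x)) A) :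
    IntegrableOn g (φ '' A) := by
  obtain ⟨t, h1, h2, rfl, -, -, h3⟩ := pieces hA hφ
  rw [image_iUnion]
  refine integrableOn_iUnion_of_summable_integral_norm
    (fun n => (h3 n g).1.2 (hg.mono_set (subset_iUnion t n))) ?_
  simp only [fun n g => (h3 n g).2]
  simpa using (hasSum_integral_iUnion h2 h1 hg.norm).summable

lemma area_le {φ : (σ → ℂ) → σ → ℂ} {A B : Set (σ → ℂ)} (hA : MeasurableSet A)
    (hφ : ∀ x ∈ A, DifferentiableAt ℂ φ x ∧ (fderiv ℂ φ x).det ≠ 0) (hAB : φ '' A ⊆ B) {M : ℕ}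
    (hM : ∀ z, (A ∩ φ ⁻¹' {z}).encard ≤ M) {g : (σ → ℂ) → ℝ} (hB : MeasurableSet B)
    (h0 : ∀ x ∈ B, 0 ≤ g x) (hg : IntegrableOn g B)
    (hg' : IntegrableOn (fun x => ‖(fderiv ℂ φ x).det‖ ^ 2 * g (φ x)) A) :
    ∫ x in A, ‖(fderiv ℂ φ x).det‖ ^ 2 * g (φ x) ≤ M * ∫ x in B, g x := by
  obtain ⟨t, h1, h2, rfl, -, h4, h3⟩ := pieces hA hφ
  have k1 := (Measure.sum_restrict_le (μ := volume) (M := M) h4 fun z => by
    choose! p hp using fun n (h : n ∈ {n | z ∈ φ '' t n}) => h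
    refine le_trans (encard_le_encard_of_injOn (f := p) (fun n hn => mem_inter
      (mem_iUnion.2 ⟨n, (hp n hn).1⟩) (hp n hn).2) fun n hn m hm e => ?_) (hM z)
    by_contra h
    exact disjoint_left.1 (h1 h) (hp n hn).1 (e ▸ (hp m hm).1)).trans
      (nsmul_le_nsmul_right (Measure.restrict_mono_set _ (image_iUnion ▸ hAB)) M)
  have k2 : Integrable g (M • volume.restrict B) := by
    rw [← Nat.cast_smul_eq_nsmul ENNReal]; exact hg.smul_measure (by simp)
  have k3 := integral_mono_measure k1 (by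
    rw [← Nat.cast_smul_eq_nsmul ENNReal]
    exact Measure.ae_smul_measure ((ae_restrict_iff' hB).2 (ae_of_all _ h0)) _) k2
  rw [integral_sum_measure (k2.mono_measure k1), ← Nat.cast_smul_eq_nsmul ENNReal,
    integral_smul_measure] at k3
  simp only [fun n g => (h3 n g).2] at k3
  simpa [integral_iUnion h2 h1 hg'] using k3

lemma int_mon {D : Type} (I : Finset D) (e : D → σ) (he : InjOn e I) {t : D → ℝ} {δ : ℝ}
    (ht : ∀ i ∈ I, -2 < t i) (hδ : 0 < δ) :
    IntegrableOn (fun x : σ → ℂ => ∏ i ∈ I, ‖x (e i)‖ ^ t i) (Metric.ball 0 δ) ∧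
      ∫ x : σ → ℂ in Metric.ball 0 δ, ∏ i ∈ I, ‖x (e i)‖ ^ t i =
        (∏ i ∈ I, 2 * Real.pi * δ ^ (t i + 2) / (t i + 2)) *
          (Real.pi * δ ^ 2) ^ (Fintype.card σ - I.card) := by
  classical
  let t' : σ → ℝ := fun l => ∑ i ∈ I with e i = l, t i
  have h1 : ∀ i ∈ I, t' (e i) = t i := fun i hi => Finset.sum_eq_single_of_mem i (by simpa using hi)
    fun j hj hne => absurd (he (Finset.mem_filter.1 hj).1 hi (Finset.mem_filter.1 hj).2) hne
  have h2 : ∀ l ∈ (I.image e)ᶜ, t' l = 0 := fun l hl => Finset.sum_eq_zero fun i hi =>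
    (Finset.mem_compl.1 hl (Finset.mem_image.2 ⟨i, Finset.mem_filter.1 hi⟩)).elim
  have h3 : ∀ G : σ → ℝ → ℝ, ∏ l, G l (t' l) =
      (∏ i ∈ I, G (e i) (t i)) * ∏ l ∈ (I.image e)ᶜ, G l 0 := fun G => by
    rw [← Finset.prod_mul_prod_compl (I.image e), Finset.prod_image he]
    exact congrArg₂ _ (Finset.prod_congr rfl fun i hi => by rw [h1 i hi])
      (Finset.prod_congr rfl fun l hl => by rw [h2 l hl])
  have h4 := int_poly (t := t') (fun l => by
    by_cases h : l ∈ I.image e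
    · obtain ⟨i, hi, rfl⟩ := Finset.mem_image.1 h
      exact h1 i hi ▸ ht i hi
    · rw [h2 l (Finset.mem_compl.2 h)]; norm_num) hδ
  simp only [fun x : σ → ℂ => h3 fun l t => ‖x l‖ ^ t,
    h3 fun _ t => 2 * Real.pi * δ ^ (t + 2) / (t + 2), Real.rpow_zero, Finset.prod_const_one,
    mul_one, Finset.prod_const, Finset.card_compl, Finset.card_image_of_injOn he] at h4
  refine ⟨h4.1, h4.2.trans ?_⟩
  congr 2
  simp
  ring

end Pool.Agent.MP_ee8c61_ag.H10
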