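import Mathlib
import Pool.Agent.MP_ee8c61_ag.H10.Area

/-! Upper and lower bounds for the archimedean integral in a monomial chart. -/

namespace Pool.Agent.MP_ee8c61_ag.H10

open MeasureTheory Set Filter Topology Complex Metric

variable {σ D : Type} [Fintype σ]

lemma loc (I : Finset D) (e : D → σ) (he : InjOn e I) (a k : D → ℕ) (ha : ∀ i, 0 < a i)
    {φ : (σ → ℂ) → σ → ℂ} {F u v : (σ → ℂ) → ℂ} (hφ : AnalyticAt ℂ φ 0)
    (hu : AnalyticAt ℂ u 0) (hv : AnalyticAt ℂ v 0) (u0 : u 0 ≠ 0) (v0 : v 0 ≠ 0)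
    (h : ∀ᶠ τ in 𝓝 0, (fderiv ℂ φ τ).det = (∏ i ∈ I, τ (e i) ^ k i) * v τ ∧
      F (φ τ) = (∏ i ∈ I, τ (e i) ^ a i) * u τ) (c : ℝ) (hc : ∀ i ∈ I, c * a i ≤ k i + 1) :
    (∀ s, -c < s → ∃ U ∈ 𝓝 0, IntegrableOn (fun z => ‖F z‖ ^ (2 * s))
      (φ '' (U ∩ {τ | F (φ τ) ≠ 0}))) ∧
    ∀ U ∈ 𝓝 0, ∀ (M : ℕ) (B : Set (σ → ℂ)), MeasurableSet B → φ '' (U ∩ {τ | F (φ τ) ≠ 0}) ⊆ B →
      (∀ z, (U ∩ {τ | F (φ τ) ≠ 0} ∩ φ ⁻¹' {z}).encard ≤ M) →
      (∀ s, -c < s → IntegrableOn (fun z => ‖F z‖ ^ (2 * s)) B) →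
      ∀ R ⊆ I, (∀ i ∈ R, (k i + 1 : ℝ) = c * a i) → ∃ m : ℝ → ℝ, ContinuousAt m (-c) ∧ 0 < m (-c) ∧
        ∀ᶠ s in 𝓝[>] (-c), m s ≤ (s + c) ^ R.card * ∫ z in B, ‖F z‖ ^ (2 * s) := by
  classical
  obtain ⟨r, hr, H⟩ := nhds_basis_closedBall.eventually_iff.1 (h.and (hφ.eventually_analyticAt.and
    (hu.eventually_analyticAt.and (hv.eventually_analyticAt.and
      ((hu.continuousAt.eventually_ne u0).and (hv.continuousAt.eventually_ne v0))))))
  let G : ℝ × (σ → ℂ) → ℝ := fun p => ‖v p.2‖ ^ 2 * ‖u p.2‖ ^ (2 * p.1)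
  have cG : ∀ s, ∀ τ ∈ closedBall (0 : σ → ℂ) r, ContinuousAt G (s, τ) := fun s τ hτ =>
    (((H hτ).2.2.2.1.continuousAt.comp continuousAt_snd).norm.pow 2).mul
      (((H hτ).2.2.1.continuousAt.comp continuousAt_snd).norm.rpow (by fun_prop)
        (Or.inl (norm_ne_zero_iff.2 (H hτ).2.2.2.2.1)))
  have cG' : ∀ s, ContinuousOn (fun τ => G (s, τ)) (closedBall 0 r) := fun s τ hτ =>
    ((cG s τ hτ).comp (f := fun τ => (s, τ)) (by fun_prop)).continuousWithinAt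
  let A : ℝ → Set (σ → ℂ) := fun δ => ball 0 δ ∩ {τ | ∀ i ∈ I, τ (e i) ≠ 0}
  have mA : ∀ δ, MeasurableSet (A δ) := fun δ => measurableSet_ball.inter (by
    simp only [setOf_forall]
    exact I.measurableSet_biInter fun i _ => (measurable_pi_apply (e i)
      (measurableSet_singleton 0)).compl)
  have sA : ∀ δ ≤ r, ball (0 : σ → ℂ) δ ⊆ closedBall 0 r := fun δ hδ =>
    ball_subset_closedBall.trans (closedBall_subset_closedBall hδ)
  have eA : ∀ δ ≤ r, ball 0 δ ∩ {τ | F (φ τ) ≠ 0} = A δ := fun δ hδ => by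
    ext τ
    refine and_congr_right fun hτ => ?_
    have := H (sA δ hδ hτ)
    simp only [mem_setOf, this.1.2, ne_eq, mul_eq_zero, this.2.2.2.2.1, or_false,
      Finset.prod_eq_zero_iff, pow_eq_zero_iff (ha _).ne', not_exists, not_and]
  have dA : ∀ δ ≤ r, ∀ τ ∈ A δ, DifferentiableAt ℂ φ τ ∧ (fderiv ℂ φ τ).det ≠ 0 := fun δ hδ τ hτ => by
    have := H (sA δ hδ hτ.1)
    exact ⟨this.2.1.differentiableAt, this.1.1 ▸ mul_ne_zero
      (Finset.prod_ne_zero_iff.2 fun i hi => pow_ne_zero _ (hτ.2 i hi)) this.2.2.2.2.2⟩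
  have iA : ∀ s : ℝ, ∀ δ ≤ r, ∀ τ ∈ A δ, ‖(fderiv ℂ φ τ).det‖ ^ 2 * ‖F (φ τ)‖ ^ (2 * s) =
      (∏ i ∈ I, ‖τ (e i)‖ ^ (2 * (a i * s + k i))) * G (s, τ) := fun s δ hδ τ hτ => by
    have := (H (sA δ hδ hτ.1)).1
    rw [this.1, this.2, norm_mul, norm_mul, norm_prod, norm_prod, mul_pow,
      Real.mul_rpow (by positivity) (norm_nonneg _), ← Finset.prod_pow,
      ← Real.finsetProd_rpow _ _ (fun _ _ => norm_nonneg _), mul_mul_mul_comm,
      ← Finset.prod_mul_distrib]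
    refine congrArg₂ _ (Finset.prod_congr rfl fun i hi => ?_) rfl
    have := norm_pos_iff.2 (hτ.2 i hi)
    rw [norm_pow, norm_pow, ← pow_mul, ← Real.rpow_natCast, ← Real.rpow_natCast,
      ← Real.rpow_mul this.le, ← Real.rpow_add this]
    congr 1
    push_cast
    ring
  have ex : ∀ s, -c < s → ∀ i ∈ I, -2 < 2 * (a i * s + k i) := fun s hs i hi => by
    have := hc i hi
    have h1 : (0 : ℝ) < a i := by exact_mod_cast ha i
    nlinarith
  have int : ∀ s, -c < s → ∀ δ, 0 < δ → δ ≤ r → IntegrableOn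
      (fun τ => ‖(fderiv ℂ φ τ).det‖ ^ 2 * ‖F (φ τ)‖ ^ (2 * s)) (A δ) := fun s hs δ h0 hδ =>
    IntegrableOn.congr_fun (((int_mon I e he (ex s hs) h0).1.mono_set
      inter_subset_left).mul_continuousOn_of_subset (cG' s) (mA δ) (isCompact_closedBall _ _)
        (inter_subset_left.trans (sA δ hδ))) (fun τ hτ => (iA s δ hδ τ hτ).symm) (mA δ)
  refine ⟨fun s hs => ⟨ball 0 r, ball_mem_nhds _ hr, ?_⟩, fun U hU M B hB h1 h2 h3 R hR h4 => ?_⟩
  · rw [eA r le_rfl]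
    exact area_int (mA r) (dA r le_rfl) (int s hs r hr le_rfl)
  have G0 : 0 < G (-c, 0) := by
    have := norm_pos_iff.2 u0
    have := norm_pos_iff.2 v0
    positivity
  have k1 := (cG (-c) 0 (mem_closedBall_self hr.le)).eventually (lt_mem_nhds (half_lt_self G0))
  rw [nhds_prod_eq] at k1
  obtain ⟨p1, k1, p2, k2, k3⟩ := eventually_prod_iff.1 k1
  obtain ⟨δ, hδ, k4⟩ := nhds_basis_ball.eventually_iff.1 (k2.and (hU : ∀ᶠ τ in 𝓝 0, τ ∈ U))
  obtain ⟨δ, hδ, hδr, k4⟩ : ∃ δ, 0 < δ ∧ δ ≤ r ∧ ∀ τ ∈ ball (0 : σ → ℂ) δ, p2 τ ∧ τ ∈ U :=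
    ⟨min δ r, lt_min hδ hr, min_le_right _ _, fun τ hτ => k4 (ball_subset_ball (min_le_left _ _) hτ)⟩
  have sU : A δ ⊆ U ∩ {τ | F (φ τ) ≠ 0} := eA δ hδr ▸ inter_subset_inter_left _ fun τ hτ => (k4 τ hτ).2
  have a0 : ∀ i, (0 : ℝ) < a i := fun i => by exact_mod_cast ha i
  let R' := I.filter fun i => (k i + 1 : ℝ) = c * a i
  have hR' : R ⊆ R' := fun i hi => Finset.mem_filter.2 ⟨hR hi, h4 i hi⟩
  let m : ℝ → ℝ := fun s => G (-c, 0) / 2 / (M + 1) *
    ((∏ i ∈ R', 2 * Real.pi * δ ^ (2 * (a i * s + k i) + 2) / (2 * a i)) *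
      (∏ i ∈ I with ¬(k i + 1 : ℝ) = c * a i,
        2 * Real.pi * δ ^ (2 * (a i * s + k i) + 2) / (2 * (a i * s + k i) + 2)) *
      (Real.pi * δ ^ 2) ^ (Fintype.card σ - I.card))
  have k5 : ∀ i ∈ I.filter fun i => ¬(k i + 1 : ℝ) = c * a i, 0 < 2 * (a i * -c + k i) + 2 :=
    fun i hi => by
      have := Finset.mem_filter.1 hi
      have := lt_of_le_of_ne (hc i this.1) (Ne.symm this.2)
      linarith
  have cl : ∀ i, ContinuousAt (fun s : ℝ => 2 * (a i * s + k i) + 2) (-c) := fun i => by fun_prop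
  refine ⟨m, continuousAt_const.mul (((tendsto_finsetProd _ fun i _ => ?_).mul
    (tendsto_finsetProd _ fun i hi => ?_)).mul continuousAt_const), ?_, ?_⟩
  · exact (continuousAt_const.mul (continuousAt_const.rpow (cl i) (Or.inl hδ.ne'))).div_const _
  · exact (continuousAt_const.mul (continuousAt_const.rpow (cl i) (Or.inl hδ.ne'))).div (cl i)
      (k5 i hi).ne'
  · have := Finset.prod_pos (s := R') fun i _ => show
      0 < 2 * Real.pi * δ ^ (2 * (a i * -c + k i) + 2) / (2 * a i) by have := a0 i; positivity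
    have := Finset.prod_pos fun i hi => show 0 < 2 * Real.pi * δ ^ (2 * (a i * -c + k i) + 2) /
      (2 * (a i * -c + k i) + 2) by have := k5 i hi; positivity
    positivity
  filter_upwards [self_mem_nhdsWithin, nhdsWithin_le_nhds k1,
    nhdsWithin_le_nhds (Iio_mem_nhds (show -c < -c + 1 by linarith))] with s hs hs1 hs2
  have hs0 : 0 < s + c := by linarith [mem_Ioi.1 hs]
  obtain ⟨i1, i2⟩ := int_mon I e he (ex s hs) hδ
  have k6 := area_le (mA δ) (dA δ hδr) ((image_mono sU).trans h1)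
    (fun z => (encard_le_encard (inter_subset_inter_left _ sU)).trans (h2 z)) hB
    (fun _ _ => by positivity) (h3 s hs) (int s hs δ hδ hδr)
  have k7 := setIntegral_mono_on ((i1.mono_set inter_subset_left).mul_const (G (-c, 0) / 2))
    (int s hs δ hδ hδr) (mA δ) fun τ hτ => by
      rw [iA s δ hδr τ hτ]
      exact mul_le_mul_of_nonneg_left (k3 hs1 (k4 τ hτ.1).1).le (by positivity)
  have k8 : A δ =ᵐ[volume] ball (0 : σ → ℂ) δ := by
    have : ∀ᵐ τ : σ → ℂ, ∀ l, τ l ≠ 0 := ae_all_iff.2 fun l => Measure.ae_eval_ne _ l 0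
    filter_upwards [this] with τ hτ
    exact propext ⟨fun h => h.1, fun h => ⟨h, fun i _ => hτ _⟩⟩
  rw [integral_mul_const, setIntegral_congr_set k8, i2,
    ← Finset.prod_filter_mul_prod_filter_not I fun i => (k i + 1 : ℝ) = c * a i] at k7
  have k9 : ∏ i ∈ R', 2 * Real.pi * δ ^ (2 * (a i * s + k i) + 2) / (2 * a i) = (s + c) ^ R'.card *
      ∏ i ∈ R', 2 * Real.pi * δ ^ (2 * (a i * s + k i) + 2) / (2 * (a i * s + k i) + 2) := by
    rw [← Finset.prod_const, ← Finset.prod_mul_distrib]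
    refine Finset.prod_congr rfl fun i hi => ?_
    have := (Finset.mem_filter.1 hi).2
    have h0 := a0 i
    rw [show 2 * (a i * s + k i) + 2 = 2 * a i * (s + c) by linarith]
    field_simp
  have z0 : 0 ≤ ∫ z in B, ‖F z‖ ^ (2 * s) := integral_nonneg fun _ => by positivity
  have k10 : (s + c) ^ R'.card ≤ (s + c) ^ R.card :=
    pow_le_pow_of_le_one hs0.le (by linarith [mem_Iio.1 hs2]) (Finset.card_le_card hR')
  refine le_trans ?_ (mul_le_mul_of_nonneg_right k10 z0)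
  simp only [m, k9]
  rw [div_mul_eq_mul_div, div_le_iff₀ (by positivity)]
  have := mul_le_mul_of_nonneg_left (k7.trans k6) (pow_pos hs0 R'.card).le
  nlinarith [mul_nonneg (pow_pos hs0 R'.card).le z0]

end Pool.Agent.MP_ee8c61_ag.H10
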