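import Mathlib
import Pool.Agent.MP_ee8c61_ag.H10.Res

/-! From divisibility of the Bernstein-Sato polynomial to the topological zeta function. -/

namespace Pool.Agent.MP_ee8c61_ag.H10

open Polynomial

lemma prod_dvd_of_fibres {D : Type} (J : Finset D) (z : D → ℂ) (b : ℂ[X])
    (h : ∀ i ∈ J, (X - C (z i)) ^ (J.filter fun j => z i = z j).card ∣ b) :
    ∏ i ∈ J, (X - C (z i)) ∣ b := by
  classical
  rcases eq_or_ne b 0 with rfl | h0
  · exact dvd_zero _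
  have : ∏ i ∈ J, (X - C (z i)) = ((J.val.map z).map fun a => X - C a).prod := by
    rw [Multiset.map_map]; rfl
  rw [this, Multiset.prod_X_sub_C_dvd_iff_le_roots h0, Multiset.le_iff_count]
  intro a
  rw [count_roots, le_rootMultiplicity_iff h0, Multiset.count_map]
  change (X - C a) ^ (J.filter fun i => a = z i).card ∣ b
  rcases (J.filter fun i => a = z i).eq_empty_or_nonempty with e | ⟨i, hi⟩
  · simp [e]
  · obtain ⟨h1, rfl⟩ := Finset.mem_filter.1 hi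
    exact h i h1

lemma lin_eq' {a : ℕ} (k : ℕ) (ha : 0 < a) : lin a k = algebraMap ℂ[X] (RatFunc ℂ)
    (C (a : ℂ) * (X - C (-((k + 1 : ℝ) / a : ℝ) : ℂ))) := by
  have : (a : ℂ) ≠ 0 := by exact_mod_cast ha.ne'
  rw [mul_sub, ← C_mul, show (a : ℂ) * (-((k + 1 : ℝ) / a : ℝ) : ℂ) = -(k + 1) by
    push_cast; field_simp]
  simp [lin]
  ring

theorem zeta_poly' {D : Type} [Fintype D] [DecidableEq D] (a k : D → ℕ) (ha : ∀ i, 0 < a i)
    (χ : Finset D → ℤ) (T : Finset D) (b : ℂ[X]) (h : ∀ I, χ I ≠ 0 → ∀ i ∈ I \ T,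
      (X - C (-((k i + 1 : ℝ) / a i : ℝ) : ℂ)) ^
        ((I \ T).filter fun j => a i * (k j + 1) = a j * (k i + 1)).card ∣ b) :
    ∃ Q : ℂ[X], algebraMap ℂ[X] (RatFunc ℂ) b * (∏ i ∈ T, lin (a i) (k i)) * zeta a k χ =
      algebraMap ℂ[X] (RatFunc ℂ) Q := by
  classical
  refine (?_ : _ ∈ (algebraMap ℂ[X] (RatFunc ℂ)).range).imp fun _ h => h.symm
  rw [zeta, Finset.mul_sum]
  refine sum_mem fun I _ => ?_
  by_cases h0 : χ I = 0
  · simp [h0]
  have a0 : ∀ i, (a i : ℂ) ≠ 0 := fun i => by exact_mod_cast (ha i).ne'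
  obtain ⟨Q, rfl⟩ := prod_dvd_of_fibres (I \ T) (fun i => (-((k i + 1 : ℝ) / a i : ℝ) : ℂ)) b
    fun i hi => by
      have := h I h0 i hi
      rwa [Finset.filter_congr (q := fun j => (-((k i + 1 : ℝ) / a i : ℝ) : ℂ) =
        (-((k j + 1 : ℝ) / a j : ℝ) : ℂ)) fun j _ => by
          push_cast
          rw [neg_inj, div_eq_div_iff (a0 i) (a0 j), eq_comm, mul_comm, mul_comm (a i)]
          norm_cast] at this
  have l0 : ∀ i, lin (a i) (k i) ≠ 0 := fun i => by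
    rw [lin_eq' _ (ha i)]
    exact RatFunc.algebraMap_ne_zero (mul_ne_zero (C_ne_zero.2 (a0 i)) (X_sub_C_ne_zero _))
  have e1 : ∀ i, algebraMap ℂ[X] (RatFunc ℂ) (X - C (-((k i + 1 : ℝ) / a i : ℝ) : ℂ)) =
      algebraMap ℂ[X] (RatFunc ℂ) (C (a i : ℂ)⁻¹) * lin (a i) (k i) := fun i => by
    rw [lin_eq' _ (ha i), ← map_mul, ← mul_assoc, ← C_mul, inv_mul_cancel₀ (a0 i), C_1, one_mul]
  have e2 : (∏ i ∈ I \ T, lin (a i) (k i)) * (∏ i ∈ T, lin (a i) (k i)) *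
      ∏ i ∈ I, 1 / lin (a i) (k i) = ∏ i ∈ T \ I, lin (a i) (k i) := by
    rw [← Finset.prod_union Finset.sdiff_disjoint, Finset.sdiff_union_self_eq_union,
      ← Finset.union_sdiff_self_eq_union, Finset.prod_union Finset.disjoint_sdiff, mul_right_comm,
      ← Finset.prod_mul_distrib]
    simp [l0]
  have : algebraMap ℂ[X] (RatFunc ℂ) ((∏ i ∈ I \ T, (X - C (-((k i + 1 : ℝ) / a i : ℝ) : ℂ))) * Q) *
      (∏ i ∈ T, lin (a i) (k i)) * ((χ I : RatFunc ℂ) * ∏ i ∈ I, 1 / lin (a i) (k i)) =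
      (∏ i ∈ I \ T, algebraMap ℂ[X] (RatFunc ℂ) (C (a i : ℂ)⁻¹)) * algebraMap _ _ Q * χ I *
        ∏ i ∈ T \ I, lin (a i) (k i) := by
    rw [← e2, map_mul, map_prod, Finset.prod_congr rfl fun i _ => e1 i, Finset.prod_mul_distrib]
    ring
  rw [this]
  exact mul_mem (mul_mem (mul_mem (prod_mem fun i _ => ⟨_, rfl⟩) ⟨_, rfl⟩) (intCast_mem _ _))
    (prod_mem fun i _ => ⟨_, (lin_eq' _ (ha i)).symm⟩)

end Pool.Agent.MP_ee8c61_ag.H10
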